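import Pool.Agent.Helper22.PT.Chain

/-!
# Atomic models for types of limit rank
-/

namespace Pool.Agent.Helper22.PT

open FirstOrder Language Cardinal Ordinal Pool.Agent.Helper85.VC

variable {L : FirstOrder.Language.{0, 0}} {T : L.Theory} {Φ : ℕ → Set (L.Formula (Fin 1))}
  {M : CModel T}

/-- Over its first `k` terms, the sequence `p.v` enumerates the model and the rank `< δ` type of
each initial segment of `p.v` is isolated by the type of some rank `< δ` of a longer initial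
segment. -/
def Atomic (δ : Ordinal.{0}) (k : ℕ) (p : Pt Φ M) : Prop :=
  Function.Surjective p.v ∧ ∀ n, ∃ m, n ≤ m ∧ ∃ β, β < δ ∧ ∀ q : Pt Φ M, Eqv β m p q →
    (∀ γ < δ, Eqv γ k p q) → ∀ γ < δ, Eqv γ n p q

/-- the approximation `r` isolates the rank `< δ` type of the first `n` terms -/
def Isol (δ : Ordinal.{0}) (k : ℕ) (n : ℕ) (r : Ap Φ M) : Prop :=
  n ≤ r.m ∧ ∀ q : Pt Φ M, Eqv r.β r.m r.p q → (∀ γ < δ, Eqv γ k r.p q) → ∀ γ < δ, Eqv γ n r.p q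

private theorem Atom_ext {δ : Ordinal.{0}} {k : ℕ} {p₀ : Pt Φ M} {s : Ap Φ M} (hk : k ≤ s.m)
    (h : ∀ γ < δ, Eqv γ k s.p p₀) (b : s.p.N.mod) : ∀ γ < δ, Eqv γ k (s.ext b).p p₀ := by
  intro γ hγ
  have h1 : pr k (s.ext b).p.v p₀.v = pr k s.p.v p₀.v := by
    apply pr_congr
    · intro i hi
      exact Function.update_of_ne (hi.trans_le hk).ne _ _
    · intro i _
      rfl
  show E Φ γ (pr k (s.ext b).p.v p₀.v)
  rw [h1]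
  exact h γ hγ

private theorem Atom_enlarge {δ : Ordinal.{0}} (n k : ℕ) (p₀ : Pt Φ M) (r : Ap Φ M)
    (hr : r.β < δ) (hk : k ≤ r.m) (hr0 : ∀ γ < δ, Eqv γ k r.p p₀) :
    ∃ s : Ap Φ M, s.β < δ ∧ k ≤ s.m ∧ (∀ γ < δ, Eqv γ k s.p p₀) ∧ r.Le s ∧ n ≤ s.m := by
  induction n with
  | zero => exact ⟨r, hr, hk, hr0, Ap.Le.refl r, Nat.zero_le _⟩
  | succ n ih =>
    obtain ⟨s, h1, h2, h3, h4, h5⟩ := ih
    exact ⟨s.ext (Classical.arbitrary _), h1, h2.trans (Nat.le_succ _), Atom_ext h2 h3 _,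
      h4.trans (s.le_ext _), Nat.succ_le_succ h5⟩

/-- Suppose not; adding elements we may assume `n ≤ r.m`.  Let `t : ℕ → Pt Φ M` be such that every
`q` is `Eqv δ n` equivalent to some `t j` (`hc`).  Use `chain` with
`C = {s | s.β < δ ∧ k ≤ s.m ∧ (∀ γ < δ, Eqv γ k s.p p₀) ∧ r.Le s ∧ n ≤ s.m}` and
`D j = {s | ∃ γ ≤ s.β, ¬ Eqv γ n s.p (t j)}`: as `s ∈ C` does not isolate there is `q` with
`Eqv s.β s.m s.p q`, `∀ γ < δ, Eqv γ k q p₀` and `¬ Eqv γ n s.p q` for some `γ < δ`, so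
`¬ Eqv γ n s.p (t j)`, and `s.up (max s.β γ)` will do, or `¬ Eqv γ n q (t j)`, and
`Ap.exists_move` will do.  The model `p` given by `chain` is not `Eqv δ n` equivalent to any
`t j`, a contradiction. -/
theorem exists_isol [Countable L.Symbols] {δ : Ordinal.{0}} (hδ : δ < ω₁) (hδ0 : 0 < δ)
    (hlim : ∀ β < δ, β + 1 < δ) (n : ℕ) (hc : Countable (Cls Φ M δ n)) (k : ℕ) (p₀ : Pt Φ M)
    (r : Ap Φ M) (hr : r.β < δ) (hk : k ≤ r.m) (hr0 : ∀ γ < δ, Eqv γ k r.p p₀) :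
    ∃ s : Ap Φ M, s.β < δ ∧ k ≤ s.m ∧ (∀ γ < δ, Eqv γ k s.p p₀) ∧ r.Le s ∧ Isol δ k n s := by
  classical
  by_contra hcon
  push Not at hcon
  obtain ⟨r', hr', hk', hr0', hle', hn'⟩ := Atom_enlarge n k p₀ r hr hk hr0
  have hne : Nonempty (Cls Φ M δ n) := ⟨Quotient.mk (eqvSetoid Φ M δ n) p₀⟩
  obtain ⟨f, hf⟩ := exists_surjective_nat (Cls Φ M δ n)
  let t : ℕ → Pt Φ M := fun j => Quotient.out (s := eqvSetoid Φ M δ n) (f j)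
  have ht : ∀ q : Pt Φ M, ∃ j, Eqv δ n (t j) q := by
    intro q
    obtain ⟨j, hj⟩ := hf (Quotient.mk (eqvSetoid Φ M δ n) q)
    refine ⟨j, Quotient.exact (s := eqvSetoid Φ M δ n) ?_⟩
    exact (Quotient.out_eq (s := eqvSetoid Φ M δ n) (f j)).trans hj
  let C : Set (Ap Φ M) :=
    {s | s.β < δ ∧ k ≤ s.m ∧ (∀ γ < δ, Eqv γ k s.p p₀) ∧ r.Le s ∧ n ≤ s.m}
  let D : ℕ → Set (Ap Φ M) := fun j => {s | ∃ γ, γ ≤ s.β ∧ ¬ Eqv γ n s.p (t j)}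
  have hup : ∀ s ∈ C, ∀ γ, s.β ≤ γ → γ < δ → s.up γ ∈ C := by
    rintro s ⟨h1, h2, h3, h4, h5⟩ γ hγ hγδ
    exact ⟨hγδ, h2, h3, h4.trans (s.le_up hγ), h5⟩
  have hD : ∀ j, ∀ s ∈ C, ∃ s' ∈ C, s' ∈ D j ∧ s.Le s' := by
    rintro j s ⟨h1, h2, h3, h4, h5⟩
    have h6 := hcon s h1 h2 h3 h4
    unfold Isol at h6
    push Not at h6
    obtain ⟨q, hq1, hq2, γ, hγ, hq3⟩ := h6 h5
    by_cases h7 : Eqv γ n s.p (t j)
    · obtain ⟨s', hs1, hs2, hs3, hs4⟩ := s.exists_move q hq1 (max s.β γ) (le_max_left _ _)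
      refine ⟨s', ⟨?_, ?_, ?_, h4.trans hs4, ?_⟩, ⟨γ, ?_, ?_⟩, hs4⟩
      · rw [hs3]
        exact max_lt h1 hγ
      · rw [hs2]
        exact h2
      · rw [hs1]
        exact fun γ' hγ' => (hq2 γ' hγ').symm.trans (h3 γ' hγ')
      · rw [hs2]
        exact h5
      · rw [hs3]
        exact le_max_right _ _
      · rw [hs1]
        exact fun h8 => hq3 (h7.trans h8.symm)
    · exact ⟨s.up (max s.β γ), hup s ⟨h1, h2, h3, h4, h5⟩ _ (le_max_left _ _) (max_lt h1 hγ),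
        ⟨γ, le_max_right _ _, h7⟩, s.le_up (le_max_left _ _)⟩
  obtain ⟨p, rs, -, -, hC, -, hrD, -, -, hp⟩ := chain hδ hδ0 hlim C (fun s hs => hs.1)
    (fun s hs b => ⟨hs.1, hs.2.1.trans (Nat.le_succ _), Atom_ext hs.2.1 hs.2.2.1 b,
      hs.2.2.2.1.trans (s.le_ext b), hs.2.2.2.2.trans (Nat.le_succ _)⟩) hup D hD r'
    ⟨hr', hk', hr0', hle', hn'⟩
  obtain ⟨j, hj⟩ := ht p
  obtain ⟨i, γ, hγ, hi⟩ := hrD j
  apply hi
  have h1 : Eqv γ n (rs i).p p := (hp i).mono hγ (hC i).2.2.2.2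
  exact h1.trans (hj.symm.mono (hγ.trans (hC i).1.le) le_rfl)

/-- `chain` with `C = {s | s.β < δ ∧ k ≤ s.m ∧ ∀ γ < δ, Eqv γ k s.p p₀}` and
`D n = {s | Isol δ k n s}` (dense by `exists_isol`). -/
theorem exists_atomic [Countable L.Symbols] {δ : Ordinal.{0}} (hδ : δ < ω₁) (hδ0 : 0 < δ)
    (hlim : ∀ β < δ, β + 1 < δ) (hc : ∀ n, Countable (Cls Φ M δ n)) (k : ℕ) (p₀ : Pt Φ M) :
    ∃ p : Pt Φ M, Atomic δ k p ∧ ∀ γ < δ, Eqv γ k p p₀ := by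
  classical
  let C : Set (Ap Φ M) := {s | s.β < δ ∧ k ≤ s.m ∧ ∀ γ < δ, Eqv γ k s.p p₀}
  let D : ℕ → Set (Ap Φ M) := fun n => {s | Isol δ k n s}
  obtain ⟨e, he⟩ := p₀.N.ex
  have hD : ∀ n, ∀ s ∈ C, ∃ s' ∈ C, s' ∈ D n ∧ s.Le s' := by
    rintro n s ⟨h1, h2, h3⟩
    obtain ⟨s', h4, h5, h6, h7, h8⟩ := exists_isol hδ hδ0 hlim n (hc n) k p₀ s h1 h2 h3
    exact ⟨s', ⟨h4, h5, h6⟩, h8, h7⟩
  obtain ⟨p, rs, hsurj, -, hC, -, hrD, hrβ, -, hp⟩ := chain hδ hδ0 hlim C (fun s hs => hs.1)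
    (fun s hs b => ⟨hs.1, hs.2.1.trans (Nat.le_succ _), Atom_ext hs.2.1 hs.2.2 b⟩)
    (fun s hs γ _ hγδ => ⟨hγδ, hs.2.1, hs.2.2⟩) D hD ⟨p₀, e, he, k, 0⟩
    ⟨hδ0, le_rfl, fun γ _ => Eqv.refl γ k p₀⟩
  have hpp : ∀ γ < δ, Eqv γ k p p₀ := by
    intro γ hγ
    obtain ⟨i, hi⟩ := hrβ γ hγ
    exact ((hp i).mono hi (hC i).2.1).symm.trans ((hC i).2.2 γ hγ)
  refine ⟨p, ⟨hsurj, fun n => ?_⟩, hpp⟩
  obtain ⟨i, hi1, hi2⟩ := hrD n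
  have h1 : ∀ γ < δ, Eqv γ k (rs i).p p := fun γ hγ => ((hC i).2.2 γ hγ).trans (hpp γ hγ).symm
  have h2 := hi2 p (hp i) h1
  refine ⟨(rs i).m, hi1, (rs i).β, (hC i).1, fun q hq1 hq2 γ hγ => ?_⟩
  exact (h2 γ hγ).symm.trans (hi2 q ((hp i).trans hq1) (fun γ' hγ' => (h1 γ' hγ').trans (hq2 γ' hγ'))
    γ hγ)

end Pool.Agent.Helper22.PT
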