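import Pool.Agent.Helper22.PT.BoundE

/-!
# From back-and-forth of all countable ranks to isomorphisms
-/

namespace Pool.Agent.Helper22.PT

open FirstOrder Language Cardinal Ordinal Pool.Agent.Helper85.VC

variable {L : FirstOrder.Language.{0, 0}} {T : L.Theory} {Φ : ℕ → Set (L.Formula (Fin 1))}
  {M : CModel T}

section limit

variable {Rs : ℕ → Rl Φ M} (hle : ∀ i j, i ≤ j → (Rs i).Le (Rs j)) (hk : ∀ j, j < (Rs j).k)
  {N : CModel T} {x : ℕ → N} (hx : ∀ φ : L.Formula ℕ, Dg Rs φ ↔ φ.Realize x)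

include hle hk hx in
theorem pelem_limit (j : ℕ) : PElem L (pr (Rs j).k (Rs j).v x) := by
  intro n φ u hu
  choose σ hσ hu2 using hu
  let ψ : L.Formula ℕ := φ.relabel σ
  let j' := max j (bd ψ)
  have h1 : bd ψ ≤ (Rs j').k := (le_max_right _ _).trans (hk j').le
  have h2 := (dg_iff hle h1).symm.trans (hx ψ)
  rw [Formula.realize_relabel, Formula.realize_relabel] at h2
  have h3 := (hle j j' (le_max_left _ _)).pelem n φ
    (fun i => ((Rs j).v (σ i), (Rs j').v (σ i))) (fun i => ⟨σ i, hσ i, rfl⟩)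
  have h4 : (fun i => (u i).1) = fun i => (Rs j).v (σ i) := by
    funext i
    rw [hu2 i]
  have h5 : (fun i => (u i).2) = fun i => x (σ i) := by
    funext i
    rw [hu2 i]
  rw [h4, h5]
  exact h3.trans h2

/-- the indices of the elements of the limit substructure -/
def SInf (Rs : ℕ → Rl Φ M) (i : ℕ) : Prop := ∃ j, i < (Rs j).k ∧ (Rs j).v i ∈ (Rs j).A

include hle in
theorem sInf_iff {i j : ℕ} (hi : i < (Rs j).k) : SInf Rs i ↔ (Rs j).v i ∈ (Rs j).A := by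
  constructor
  · rintro ⟨j', h1, h2⟩
    exact (mem_iff hle h1 hi).1 h2
  · intro h
    exact ⟨j, hi, h⟩

include hle hk hx in
theorem tv_limit (htask : ∀ t j₀, ∃ j, j₀ ≤ j ∧ Task t (Rs j) (Rs (j + 1))) (n : ℕ)
    (φ : L.BoundedFormula Empty (n + 1)) (σ : Fin n → ℕ) (hσ : ∀ i, SInf Rs (σ i)) (a : N)
    (ha : φ.Realize default (Fin.snoc (fun i => x (σ i)) a : Fin (n + 1) → N)) :
    ∃ m, SInf Rs m ∧ φ.Realize default (Fin.snoc (fun i => x (σ i)) (x m) : Fin (n + 1) → N) := by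
  obtain ⟨j, hj, ht⟩ := htask (Sum.inr (Sum.inl ⟨n, φ, σ⟩)) (Finset.univ.sup σ)
  have hj1 : ∀ i, σ i < (Rs j).k := fun i =>
    lt_of_le_of_lt ((Finset.le_sup (Finset.mem_univ i)).trans hj) (hk j)
  have hkk : (Rs j).k ≤ (Rs (j + 1)).k := (hle j (j + 1) (Nat.le_succ j)).k
  have hj2 : ∀ i, σ i < (Rs (j + 1)).k := fun i => (hj1 i).trans_le hkk
  have hS : ∀ i, σ i ∈ (Rs j).S := fun i => by
    rw [Rl.mem_S]
    exact ⟨hj1 i, (sInf_iff hle (hj1 i)).1 (hσ i)⟩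
  have hpe := pelem_limit hle hk hx (j + 1)
  have h1 : φ.ex.Realize default (fun i => x (σ i)) := by
    rw [BoundedFormula.realize_ex]
    exact ⟨a, ha⟩
  have h2 := (bounded_iff_of_pelem hpe φ.ex (fun i => (Rs (j + 1)).v (σ i)) _
    (fun i => ⟨σ i, hj2 i, rfl⟩)).2 h1
  rw [BoundedFormula.realize_ex] at h2
  obtain ⟨m, hm, hm2⟩ := ht hS hkk h2
  obtain ⟨hm3, hm4⟩ := (Rl.mem_S _).1 hm
  refine ⟨m, ⟨_, hm3, hm4⟩, ?_⟩
  refine (bounded_iff_of_pelem hpe φ _ _ ?_).1 hm2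
  intro i
  refine Fin.lastCases ?_ (fun i => ?_) i
  · simp only [Fin.snoc_last]
    exact ⟨m, hm3, rfl⟩
  · simp only [Fin.snoc_castSucc]
    exact ⟨σ i, hj2 i, rfl⟩

/-- the limit substructure -/
def limSub (htv : ∀ (n : ℕ) (φ : L.BoundedFormula Empty (n + 1)) (σ : Fin n → ℕ),
    (∀ i, SInf Rs (σ i)) → ∀ a : N,
    φ.Realize default (Fin.snoc (fun i => x (σ i)) a : Fin (n + 1) → N) →
    ∃ m, SInf Rs m ∧ φ.Realize default
      (Fin.snoc (fun i => x (σ i)) (x m) : Fin (n + 1) → N)) : L.Substructure N where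
  carrier := {a | ∃ i, SInf Rs i ∧ x i = a}
  fun_mem := by
    intro n f xs hxs
    choose σ hσ hσ2 using hxs
    let φ : L.BoundedFormula Empty (n + 1) :=
      (Term.func f (fun i => Term.var (Sum.inr i.castSucc))).bdEqual
        (Term.var (Sum.inr (Fin.last n)))
    have h1 : ∀ a : N, φ.Realize default (Fin.snoc (fun i => x (σ i)) a : Fin (n + 1) → N) ↔
        Structure.funMap f xs = a := by
      intro a
      simp only [φ, BoundedFormula.realize_bdEqual, Term.realize_func, Term.realize_var,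
        Sum.elim_inr, Fin.snoc_castSucc, Fin.snoc_last, hσ2]
    obtain ⟨m, hm, hm2⟩ := htv n φ σ hσ _ ((h1 _).2 rfl)
    exact ⟨m, hm, ((h1 _).1 hm2).symm⟩

include hle hk hx in
theorem pairs_limit (hok : ∀ j, (Rs j).Ok 0) {J : ℕ} {n : ℕ} (φ : L.Formula (Fin n))
    (p : Fin n → ℕ × ℕ) (hp : ∀ i, ∃ j, p i ∈ (Rs j).H.getD J []) :
    φ.Realize (fun i => x (p i).1) ↔ φ.Realize (fun i => x (p i).2) := by
  choose s hs using hp
  let j := Finset.univ.sup s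
  have h1 : ∀ i, p i ∈ (Rs j).H.getD J [] := fun i =>
    (hle (s i) j (Finset.le_sup (Finset.mem_univ i))).H J (hs i)
  have h2 : ∀ i, (p i).1 < (Rs j).k ∧ (p i).2 < (Rs j).k ∧ (Rs j).v (p i).1 ∈ (Rs j).A :=
    fun i => (Rs j).hH J (p i) (h1 i)
  have hpe := pelem_limit hle hk hx j
  have h3 := hpe n φ (fun i => ((Rs j).v (p i).1, x (p i).1)) (fun i => ⟨_, (h2 i).1, rfl⟩)
  have h4 := hpe n φ (fun i => ((Rs j).v (p i).2, x (p i).2)) (fun i => ⟨_, (h2 i).2.1, rfl⟩)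
  have h5 := (E.base ((hok j).2 J)).1 n φ
    (fun i => ((⟨(Rs j).v (p i).1, (h2 i).2.2⟩ : (Rs j).A), (Rs j).v (p i).2))
    (fun i => ⟨p i, h1 i, rfl, rfl⟩)
  have h6 := (Rs j).A.subtype.map_formula φ
    (fun i => (⟨(Rs j).v (p i).1, (h2 i).2.2⟩ : (Rs j).A))
  exact (h3.symm.trans (h6.trans h5)).trans h4

end limit

theorem bounding [Countable L.Symbols] (h0 : ∀ m, Countable (Cls Φ M 0 m))
    (h : ∀ γ < ω₁, ∃ (N : KQ Φ M) (A : L.ElementarySubstructure N.mod),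
      ¬ (sol Φ N.mod ⊆ (A : Set N.mod)) ∧
        ∀ (m : ℕ) (b : ℕ → A), E Φ γ (pr m b (fun i => ((b i : A) : N.mod)))) :
    ∃ (N : KQ Φ M) (A : L.ElementarySubstructure N.mod), ¬ (sol Φ N.mod ⊆ (A : Set N.mod)) ∧
      ∀ (m : ℕ) (b : Fin m → A), ∃ g : A ≃[L] N.mod, ∀ i, g (b i) = ((b i : A) : N.mod) := by
  classical
  obtain ⟨Rs, hle, hok, htask, hk, hx0A, hx0s⟩ := exists_seq h0 h
  obtain ⟨N, e, x, he, hsurj, hx1, hx2⟩ := isCode_limit hle hk htask
  have hx : ∀ φ : L.Formula ℕ, Dg Rs φ ↔ φ.Realize x := fun φ => by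
    rw [← hx1 φ, decide_eq_true_iff]
  have htv := tv_limit hle hk hx htask
  let S : L.Substructure N := limSub htv
  have hmemS : ∀ a : N, a ∈ S ↔ ∃ i, SInf Rs i ∧ x i = a := fun a => Iff.rfl
  have htv' : ∀ (n : ℕ) (φ : L.BoundedFormula Empty (n + 1)) (y : Fin n → S) (a : N),
      φ.Realize default (Fin.snoc ((↑) ∘ y) a : _ → N) →
        ∃ b : S, φ.Realize default (Fin.snoc ((↑) ∘ y) b : _ → N) := by
    intro n φ y a ha
    choose σ hσ hσ2 using fun i => (hmemS _).1 (y i).2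
    have h1 : ((↑) ∘ y : Fin n → N) = fun i => x (σ i) := by
      funext i
      exact (hσ2 i).symm
    rw [h1] at ha
    obtain ⟨m, hm, hm2⟩ := htv n φ σ hσ a ha
    refine ⟨⟨x m, (hmemS _).2 ⟨m, hm, rfl⟩⟩, ?_⟩
    rw [h1]
    exact hm2
  let A : L.ElementarySubstructure N := S.toElementarySubstructure htv'
  have hmemA : ∀ a : N, a ∈ A ↔ ∃ i, SInf Rs i ∧ x i = a := fun a => Iff.rfl
  refine ⟨⟨N, e, he⟩, A, ?_, ?_⟩
  · intro hsub
    have h1 : x 0 ∈ sol Φ N :=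
      (mem_sol_iff (pelem_limit hle hk hx 0) (p := ((Rs 0).v 0, x 0)) ⟨0, hk 0, rfl⟩).1 hx0s
    obtain ⟨i, hi, hi2⟩ := (hmemA _).1 (hsub h1)
    have h3 : i < (Rs i).k := hk i
    have h4 : 0 < (Rs i).k := lt_of_le_of_lt (Nat.zero_le _) h3
    have h5 := pelem_limit hle hk hx i 2 ((Term.var 0).equal (Term.var 1))
      ![((Rs i).v i, x i), ((Rs i).v 0, x 0)] (by
        intro l
        fin_cases l
        · exact ⟨i, h3, rfl⟩
        · exact ⟨0, h4, rfl⟩)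
    simp only [Formula.realize_equal, Term.realize_var] at h5
    have h6 : (Rs i).v i = (Rs i).v 0 := h5.2 hi2
    have h7 := (sInf_iff hle h3).1 hi
    rw [h6] at h7
    exact hx0A ((mem_iff hle h4 (hk 0)).1 h7)
  · intro m b
    choose σ hσ hσ2 using fun i => (hmemA _).1 (b i).2
    obtain ⟨j, hj, ht⟩ := htask
      (Sum.inr (Sum.inr (Sum.inr (Sum.inr (Sum.inr (List.ofFn σ)))))) (Finset.univ.sup σ)
    have hj1 : ∀ i, σ i < (Rs j).k := fun i =>
      lt_of_le_of_lt ((Finset.le_sup (Finset.mem_univ i)).trans hj) (hk j)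
    obtain ⟨J, hJ, hJ2⟩ := ht (by
      intro i hi
      obtain ⟨l, rfl⟩ := (List.mem_ofFn' _ _).1 hi
      rw [Rl.mem_S]
      exact ⟨hj1 l, (sInf_iff hle (hj1 l)).1 (hσ l)⟩)
    let X : Type := {p : ℕ × ℕ // ∃ j, p ∈ (Rs j).H.getD J []}
    have hXA : ∀ p : X, x p.1.1 ∈ A := by
      rintro ⟨p, j', hp⟩
      obtain ⟨h1, -, h2⟩ := (Rs j').hH J p hp
      exact (hmemA _).2 ⟨p.1, ⟨j', h1, h2⟩, rfl⟩
    let u : X → A := fun p => ⟨x p.1.1, hXA p⟩
    let u' : X → N := fun p => x p.1.2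
    have hu : Function.Surjective u := by
      rintro ⟨a, ha⟩
      obtain ⟨i, hi, rfl⟩ := (hmemA _).1 ha
      obtain ⟨j', hj', ht'⟩ := htask (Sum.inr (Sum.inr (Sum.inr (Sum.inl (J, i)))))
        (max (j + 1) i)
      have h1 : i < (Rs j').k := lt_of_le_of_lt ((le_max_right _ _).trans hj') (hk j')
      obtain ⟨i', hi'⟩ := ht' (by
        rw [Rl.mem_S]
        exact ⟨h1, (sInf_iff hle h1).1 hi⟩)
        (hJ.trans_le (hle (j + 1) j' ((le_max_left _ _).trans hj')).len)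
      exact ⟨⟨(i, i'), _, hi'⟩, rfl⟩
    have hu' : Function.Surjective u' := by
      intro a
      obtain ⟨i', rfl⟩ := hsurj a
      obtain ⟨j', hj', ht'⟩ := htask (Sum.inr (Sum.inr (Sum.inr (Sum.inr (Sum.inl (J, i'))))))
        (max (j + 1) i')
      have h1 : i' < (Rs j').k := lt_of_le_of_lt ((le_max_right _ _).trans hj') (hk j')
      obtain ⟨i, hi⟩ := ht' h1 (hJ.trans_le (hle (j + 1) j' ((le_max_left _ _).trans hj')).len)
      exact ⟨⟨(i, i'), _, hi⟩, rfl⟩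
    obtain ⟨g, hg⟩ := iso_of_rel u u' hu hu' (by
      intro n φ xs
      have h1 := pairs_limit hle hk hx hok φ (fun i => (xs i).1) (fun i => (xs i).2)
      have h2 := A.subtype.map_formula φ (fun i => u (xs i))
      exact h2.symm.trans h1)
    refine ⟨g, fun i => ?_⟩
    have h1 : (σ i, σ i) ∈ (Rs (j + 1)).H.getD J [] := hJ2 _ ((List.mem_ofFn' _ _).2 ⟨i, rfl⟩)
    have h2 := hg ⟨(σ i, σ i), _, h1⟩
    have h3 : u ⟨(σ i, σ i), _, h1⟩ = b i := Subtype.ext (hσ2 i)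
    rw [h3] at h2
    rw [h2]
    exact hσ2 i

end Pool.Agent.Helper22.PT
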