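import Pool.Agent.Helper22.PT.Defs

/-!
# Formulas depend on finitely many variables
-/

namespace Pool.Agent.Helper22.PT

open FirstOrder Language Cardinal Ordinal Pool.Agent.Helper85.VC

variable {L : FirstOrder.Language.{0, 0}} {N N' : Type} [L.Structure N] [L.Structure N']

theorem realize_iff_of_pelem {α : Type} [DecidableEq α] (ψ : L.Formula α) {v : α → N}
    {v' : α → N'} (h : PElem L {p : N × N' | ∃ a ∈ ψ.freeVarFinset, p = (v a, v' a)}) :
    ψ.Realize v ↔ ψ.Realize v' := by
  classical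
  let χ : L.Formula ψ.freeVarFinset := ψ.restrictFreeVar id
  have h1 : ∀ {K : Type} [L.Structure K] (w : α → K),
      ψ.Realize w ↔ χ.Realize (fun x => w x.1) := by
    intro K _ w
    exact (BoundedFormula.realize_restrictFreeVar (f := id) (v := fun x => w x.1) w
      (fun a => rfl)).symm
  rw [h1 v, h1 v']
  let n := Fintype.card ψ.freeVarFinset
  let f : ψ.freeVarFinset ≃ Fin n := Fintype.equivFin _
  have h2 := h n (χ.relabel f) (fun i => (v (f.symm i).1, v' (f.symm i).1))
    (fun i => ⟨(f.symm i).1, (f.symm i).2, rfl⟩)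
  rw [Formula.realize_relabel, Formula.realize_relabel] at h2
  have h3 : (fun i => (v (f.symm i).1, v' (f.symm i).1).1) ∘ f =
      fun x : ψ.freeVarFinset => v x.1 := by
    funext x
    simp
  have h4 : (fun i => (v (f.symm i).1, v' (f.symm i).1).2) ∘ f =
      fun x : ψ.freeVarFinset => v' x.1 := by
    funext x
    simp
  rw [h3, h4] at h2
  exact h2

/-- a bound for the variables of a formula `φ(x₀, x₁, …)` -/
theorem exists_bd (φ : L.Formula ℕ) : ∃ K : ℕ, ∀ {N N' : Type} [L.Structure N] [L.Structure N']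
    (m : ℕ) (v : ℕ → N) (v' : ℕ → N'), K ≤ m → PElem L (pr m v v') →
      (φ.Realize v ↔ φ.Realize v') := by
  refine ⟨φ.freeVarFinset.sup id + 1, fun m v v' hm h => ?_⟩
  refine realize_iff_of_pelem φ (h.mono ?_)
  rintro _ ⟨a, ha, rfl⟩
  refine ⟨a, ?_, rfl⟩
  have := Finset.le_sup (f := id) ha
  simp only [id] at this
  omega

/-- a bound for the variables of a formula `φ(x₀, x₁, …; y)` -/
theorem exists_bd1 (φ : L.BoundedFormula ℕ 1) : ∃ K : ℕ,
    ∀ {N N' : Type} [L.Structure N] [L.Structure N'] (m : ℕ) (v : ℕ → N) (v' : ℕ → N'),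
      K ≤ m → (PElem L (pr m v v') → (φ.ex.Realize v default ↔ φ.ex.Realize v' default)) ∧
        ∀ (a : N) (a' : N'), PElem L (insert (a, a') (pr m v v')) →
          (φ.Realize v (fun _ => a) ↔ φ.Realize v' (fun _ => a')) := by
  classical
  obtain ⟨K1, h1⟩ := exists_bd (L := L) (φ.ex : L.Formula ℕ)
  let ψ : L.Formula (ℕ ⊕ Fin 1) := φ.toFormula
  let K2 : ℕ := ψ.freeVarFinset.sup (Sum.elim id fun _ => 0) + 1
  refine ⟨max K1 K2, fun m v v' hm => ⟨fun h => ?_, fun a a' h => ?_⟩⟩
  · have h2 := h1 m v v' ((le_max_left _ _).trans hm) h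
    exact h2
  · have h3 : ∀ {K : Type} [L.Structure K] (w : ℕ → K) (b : K),
        φ.Realize w (fun _ => b) ↔ ψ.Realize (Sum.elim w fun _ => b) := by
      intro K _ w b
      exact (BoundedFormula.realize_toFormula φ (Sum.elim w fun _ => b)).symm
    rw [h3, h3]
    refine realize_iff_of_pelem ψ (h.mono ?_)
    rintro _ ⟨c, hc, rfl⟩
    rcases c with i | i
    · right
      refine ⟨i, ?_, rfl⟩
      have h4 := Finset.le_sup (f := Sum.elim id fun _ => 0) hc
      simp only [Sum.elim_inl, id] at h4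
      have h5 : K2 ≤ m := (le_max_right _ _).trans hm
      change ψ.freeVarFinset.sup _ + 1 ≤ m at h5
      omega
    · left
      rfl

end Pool.Agent.Helper22.PT
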