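import Pool.Agent.Helper22.PT.Code
import Pool.Agent.Helper22.PT.Dep

/-!
# Nodes of the Henkin construction with all countable ranks
-/

namespace Pool.Agent.Helper22.PT

open FirstOrder Language Cardinal Ordinal Pool.Agent.Helper85.VC

variable {L : FirstOrder.Language.{0, 0}} {T : L.Theory} {Φ : ℕ → Set (L.Formula (Fin 1))}
  {M : CModel T}

/-- a realised node -/
structure Rl (Φ : ℕ → Set (L.Formula (Fin 1))) (M : CModel T) where
  /-- the model -/
  N : KQ Φ M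
  /-- the elementary substructure -/
  A : L.ElementarySubstructure N.mod
  /-- the bijection -/
  e : sol Φ M ≃ sol Φ N.mod
  he : Elem L e
  /-- the elements -/
  v : ℕ → N.mod
  /-- the number of elements -/
  k : ℕ
  /-- lists of pairs -/
  H : List (List (ℕ × ℕ))
  hH : ∀ j, ∀ p ∈ H.getD j [], p.1 < k ∧ p.2 < k ∧ v p.1 ∈ A

/-- the `j`-th list as a relation -/
def Rl.rel (R : Rl Φ M) (j : ℕ) : Set (R.A × R.N.mod) :=
  {x | ∃ p ∈ R.H.getD j [], (x.1 : R.N.mod) = R.v p.1 ∧ x.2 = R.v p.2}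

/-- the node is realised at rank `γ` -/
def Rl.Ok (R : Rl Φ M) (γ : Ordinal.{0}) : Prop :=
  (∀ (m : ℕ) (b : ℕ → R.A), E Φ γ (pr m b (fun i => ((b i : R.A) : R.N.mod)))) ∧
    ∀ j, E Φ γ (R.rel j)

theorem Rl.Ok.mono {R : Rl Φ M} {γ γ' : Ordinal.{0}} (h : R.Ok γ) (hγ : γ' ≤ γ) : R.Ok γ' :=
  ⟨fun m b => (h.1 m b).mono_rank hγ, fun j => (h.2 j).mono_rank hγ⟩

open Classical in
/-- the element of `Q` corresponding to `a` -/
noncomputable def val {N : CModel T} (e : sol Φ M ≃ sol Φ N) (a : N) : Option (sol Φ M) :=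
  if h : ∃ q, ((e q : sol Φ N) : N) = a then some h.choose else none

theorem val_eq {N : CModel T} (e : sol Φ M ≃ sol Φ N) (a : N) (q : sol Φ M) :
    val e a = some q ↔ ((e q : sol Φ N) : N) = a := by
  unfold val
  constructor
  · intro h
    split_ifs at h with h1
    have h2 : h1.choose = q := Option.some.inj h
    rw [← h2]
    exact h1.choose_spec
  · intro h
    have h1 : ∃ q, ((e q : sol Φ N) : N) = a := ⟨q, h⟩
    rw [dif_pos h1]
    have h2 : ((e h1.choose : sol Φ N) : N) = ((e q : sol Φ N) : N) := h1.choose_spec.trans h.symm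
    have h3 : h1.choose = q := e.injective (Subtype.ext h2)
    exact congrArg some h3

/-- nodes -/
abbrev Nd (Φ : ℕ → Set (L.Formula (Fin 1))) (M : CModel T) : Type 1 :=
  (Σ k, Cls Φ M 0 k) × Finset ℕ × List (Option (sol Φ M)) × List (List (ℕ × ℕ))

theorem countable_nd (h0 : ∀ m, Countable (Cls Φ M 0 m)) : Countable (Nd Φ M) := by
  infer_instance

open Classical in
/-- the set of the indices of the elements in the substructure -/
noncomputable def Rl.S (R : Rl Φ M) : Finset ℕ := (Finset.range R.k).filter fun i => R.v i ∈ R.A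

theorem Rl.mem_S (R : Rl Φ M) {i : ℕ} : i ∈ R.S ↔ i < R.k ∧ R.v i ∈ R.A := by
  simp [Rl.S]

/-- the node of a realised node -/
noncomputable def Rl.node (R : Rl Φ M) : Nd Φ M :=
  (⟨R.k, Quotient.mk (eqvSetoid Φ M 0 R.k) ⟨R.N, R.v⟩⟩, R.S,
    (List.range R.k).map (fun i => val R.e (R.v i)), R.H)

/-- extension of realised nodes -/
structure Rl.Le (R R' : Rl Φ M) : Prop where
  k : R.k ≤ R'.k
  eqv : Eqv 0 R.k ⟨R.N, R.v⟩ ⟨R'.N, R'.v⟩
  mem : ∀ i < R.k, R.v i ∈ R.A ↔ R'.v i ∈ R'.A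
  val : ∀ i < R.k, ∀ q, ((R.e q : sol Φ R.N.mod) : R.N.mod) = R.v i ↔
    ((R'.e q : sol Φ R'.N.mod) : R'.N.mod) = R'.v i
  H : ∀ j, R.H.getD j [] ⊆ R'.H.getD j []
  len : R.H.length ≤ R'.H.length

theorem sigma_cls {k k' : ℕ} {p p' : Pt Φ M}
    (h : (⟨k, Quotient.mk (eqvSetoid Φ M 0 k) p⟩ : Σ k, Cls Φ M 0 k) =
      ⟨k', Quotient.mk (eqvSetoid Φ M 0 k') p'⟩) : k = k' ∧ Eqv 0 k p p' := by
  obtain ⟨h1, h2⟩ := Sigma.mk.inj_iff.1 h
  subst h1
  refine ⟨rfl, ?_⟩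
  have h3 := eq_of_heq h2
  exact Quotient.exact h3

theorem Rl.le_of_node {R R' : Rl Φ M} (h : R.node = R'.node) : R.Le R' := by
  unfold Rl.node at h
  simp only [Prod.mk.injEq] at h
  obtain ⟨h1, h2, h3, h4⟩ := h
  obtain ⟨hk, he⟩ := sigma_cls h1
  refine ⟨hk.le, he, fun i hi => ?_, fun i hi q => ?_, fun j => by rw [h4]; exact fun _ h => h,
    by rw [h4]⟩
  · have h5 : i ∈ R.S ↔ i ∈ R'.S := by rw [h2]
    rw [R.mem_S, R'.mem_S] at h5
    constructor
    · intro h6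
      exact (h5.1 ⟨hi, h6⟩).2
    · intro h6
      exact (h5.2 ⟨hk ▸ hi, h6⟩).2
  · rw [← hk] at h3
    have h6 := (List.map_inj_left.1 h3) i (List.mem_range.2 hi)
    rw [← val_eq, ← val_eq, h6]

theorem Rl.Le.trans {R R' R'' : Rl Φ M} (h : R.Le R') (h' : R'.Le R'') : R.Le R'' :=
  ⟨h.k.trans h'.k, h.eqv.trans (h'.eqv.mono le_rfl h.k),
    fun i hi => (h.mem i hi).trans (h'.mem i (hi.trans_le h.k)),
    fun i hi q => (h.val i hi q).trans (h'.val i (hi.trans_le h.k) q),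
    fun j _ hp => h'.H j (h.H j hp), h.len.trans h'.len⟩

theorem Rl.Le.pelem {R R' : Rl Φ M} (h : R.Le R') : PElem L (pr R.k R.v R'.v) :=
  (E.base h.eqv).1

/-- adding an element and changing the lists -/
def Rl.add (R : Rl Φ M) (a : R.N.mod) (H' : List (List (ℕ × ℕ)))
    (hH' : ∀ j, ∀ p ∈ H'.getD j [], p.1 < R.k + 1 ∧ p.2 < R.k + 1 ∧
      Function.update R.v R.k a p.1 ∈ R.A) : Rl Φ M :=
  ⟨R.N, R.A, R.e, R.he, Function.update R.v R.k a, R.k + 1, H', hH'⟩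

theorem Rl.le_add (R : Rl Φ M) (a : R.N.mod) (H' : List (List (ℕ × ℕ)))
    (hH' : ∀ j, ∀ p ∈ H'.getD j [], p.1 < R.k + 1 ∧ p.2 < R.k + 1 ∧
      Function.update R.v R.k a p.1 ∈ R.A) (h1 : ∀ j, R.H.getD j [] ⊆ H'.getD j [])
    (h2 : R.H.length ≤ H'.length) : R.Le (R.add a H' hH') := by
  have h3 : ∀ i < R.k, Function.update R.v R.k a i = R.v i := fun i hi => by simp [hi.ne]
  refine ⟨Nat.le_succ _, ?_, fun i hi => ?_, fun i hi q => ?_, h1, h2⟩
  · apply E_refl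
    rintro _ ⟨i, hi, rfl⟩
    exact (h3 i hi).symm
  · change R.v i ∈ R.A ↔ Function.update R.v R.k a i ∈ R.A
    rw [h3 i hi]
  · change _ ↔ _ = Function.update R.v R.k a i
    rw [h3 i hi]
    exact Iff.rfl

/-- pigeonhole on the countable ordinals -/
theorem pigeonhole {ι : Type 1} [Countable ι] (Q : Ordinal.{0} → ι → Prop)
    (hmono : ∀ γ γ' i, γ' ≤ γ → Q γ i → Q γ' i) (h : ∀ γ < ω₁, ∃ i, Q γ i) :
    ∃ i, ∀ γ < ω₁, Q γ i := by
  by_contra hcon
  push Not at hcon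
  choose f hf hf' using hcon
  have h1 : ⨆ i, f i < ω₁ := Ordinal.iSup_lt_omega_one hf
  obtain ⟨i, hi⟩ := h _ h1
  exact hf' i (hmono _ _ _ (Ordinal.le_iSup f i) hi)

end Pool.Agent.Helper22.PT
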