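import Pool.Agent.Helper22.PT.BoundA

/-!
# The tasks of the Henkin construction with all countable ranks
-/

namespace Pool.Agent.Helper22.PT

open FirstOrder Language Cardinal Ordinal Pool.Agent.Helper85.VC

variable {L : FirstOrder.Language.{0, 0}} {T : L.Theory} {Φ : ℕ → Set (L.Formula (Fin 1))}
  {M : CModel T}

theorem Rl.node_eq {R R' : Rl Φ M} (h : R.node = R'.node) :
    R.k = R'.k ∧ R.S = R'.S ∧ R.H = R'.H := by
  have h1 := h
  unfold Rl.node at h1
  simp only [Prod.mk.injEq] at h1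
  exact ⟨(sigma_cls h1.1).1, h1.2.1, h1.2.2.2⟩

/-- truth of formulas without free variables on tuples in an elementary relation -/
theorem bounded_iff_of_pelem {N N' : Type} [L.Structure N] [L.Structure N'] {s : Set (N × N')}
    (h : PElem L s) {n : ℕ} (χ : L.BoundedFormula Empty n) (u : Fin n → N) (u' : Fin n → N')
    (hu : ∀ i, (u i, u' i) ∈ s) : χ.Realize default u ↔ χ.Realize default u' := by
  let ψ : L.Formula (Fin n) := χ.toFormula.relabel (Sum.elim Empty.elim id)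
  have h1 : ∀ {K : Type} [L.Structure K] (w : Fin n → K), ψ.Realize w ↔ χ.Realize default w := by
    intro K _ w
    unfold ψ
    rw [Formula.realize_relabel, BoundedFormula.realize_toFormula]
    have h2 : (w ∘ Sum.elim Empty.elim id) ∘ Sum.inl = (default : Empty → K) := by
      funext x
      exact x.elim
    have h3 : (w ∘ Sum.elim Empty.elim id) ∘ Sum.inr = w := by
      funext x
      rfl
    rw [h2, h3]
  rw [← h1, ← h1]
  exact h n ψ (fun i => (u i, u' i)) hu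

/-- the bound for the variables of `φ` -/
noncomputable def bd1 (φ : L.BoundedFormula ℕ 1) : ℕ := (exists_bd1 φ).choose

theorem bd1_spec (φ : L.BoundedFormula ℕ 1) {N N' : Type} [L.Structure N] [L.Structure N']
    (m : ℕ) (v : ℕ → N) (v' : ℕ → N') (hm : bd1 φ ≤ m) :
    (PElem L (pr m v v') → (φ.ex.Realize v default ↔ φ.ex.Realize v' default)) ∧
        ∀ (a : N) (a' : N'), PElem L (insert (a, a') (pr m v v')) →
          (φ.Realize v (fun _ => a) ↔ φ.Realize v' (fun _ => a')) :=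
  (exists_bd1 φ).choose_spec m v v' hm

theorem bd1_mem (φ : L.BoundedFormula ℕ 1) {N N' : Type} [L.Structure N] [L.Structure N']
    {m : ℕ} {v : ℕ → N} {v' : ℕ → N'} (hm : bd1 φ ≤ m) (h : PElem L (pr m v v')) {i : ℕ}
    (hi : i < m) : φ.Realize v (fun _ => v i) ↔ φ.Realize v' (fun _ => v' i) :=
  (bd1_spec φ m v v' hm).2 _ _ (by
    have h1 : (v i, v' i) ∈ pr m v v' := ⟨i, hi, rfl⟩
    rw [Set.insert_eq_of_mem h1]
    exact h)

/-- first task: witnesses -/
def THen (φ : L.BoundedFormula ℕ 1) (R R' : Rl Φ M) : Prop :=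
  bd1 φ ≤ R.k → R.k ≤ R'.k → φ.ex.Realize R'.v default →
    ∃ m < R'.k, φ.Realize R'.v (fun _ => R'.v m)

/-- second task: witnesses in the substructure -/
def TTv (t : Σ n, L.BoundedFormula Empty (n + 1) × (Fin n → ℕ)) (R R' : Rl Φ M) : Prop :=
  (∀ i, t.2.2 i ∈ R.S) → R.k ≤ R'.k →
    (∃ a, t.2.1.Realize default (Fin.snoc (fun i => R'.v (t.2.2 i)) a : Fin (t.1 + 1) → R'.N.mod)) →
    ∃ m ∈ R'.S, t.2.1.Realize default
      (Fin.snoc (fun i => R'.v (t.2.2 i)) (R'.v m) : Fin (t.1 + 1) → R'.N.mod)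

/-- third task: elements of `Q` -/
def TSurj (q : sol Φ M) (_R R' : Rl Φ M) : Prop :=
  ∃ i < R'.k, ((R'.e q : sol Φ R'.N.mod) : R'.N.mod) = R'.v i

/-- fourth task: domains -/
def TDom (t : ℕ × ℕ) (R R' : Rl Φ M) : Prop :=
  t.2 ∈ R.S → t.1 < R.H.length → ∃ i', (t.2, i') ∈ R'.H.getD t.1 []

/-- fifth task: ranges -/
def TRan (t : ℕ × ℕ) (R R' : Rl Φ M) : Prop :=
  t.2 < R.k → t.1 < R.H.length → ∃ i, (i, t.2) ∈ R'.H.getD t.1 []

/-- sixth task: new lists -/
def TNew (b : List ℕ) (R R' : Rl Φ M) : Prop :=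
  (∀ i ∈ b, i ∈ R.S) → ∃ j < R'.H.length, ∀ i ∈ b, (i, i) ∈ R'.H.getD j []

/-- all tasks -/
def Task (t : L.BoundedFormula ℕ 1 ⊕ (Σ n, L.BoundedFormula Empty (n + 1) × (Fin n → ℕ)) ⊕
    sol Φ M ⊕ (ℕ × ℕ) ⊕ (ℕ × ℕ) ⊕ List ℕ) (R R' : Rl Φ M) : Prop :=
  match t with
  | Sum.inl φ => THen φ R R'
  | Sum.inr (Sum.inl t) => TTv t R R'
  | Sum.inr (Sum.inr (Sum.inl q)) => TSurj q R R'
  | Sum.inr (Sum.inr (Sum.inr (Sum.inl t))) => TDom t R R'
  | Sum.inr (Sum.inr (Sum.inr (Sum.inr (Sum.inl t)))) => TRan t R R'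
  | Sum.inr (Sum.inr (Sum.inr (Sum.inr (Sum.inr b)))) => TNew b R R'

theorem task_congr (t) {R R' R₁ R₁' : Rl Φ M} (h : R.node = R₁.node) (h' : R'.node = R₁'.node)
    (ht : Task t R R') : Task t R₁ R₁' := by
  obtain ⟨hk, hS, hH⟩ := Rl.node_eq h
  obtain ⟨hk', hS', hH'⟩ := Rl.node_eq h'
  have hle := Rl.le_of_node h'
  have hpe := hle.pelem
  rcases t with φ | t | q | t | t | b
  · change THen φ R R' at ht
    change THen φ R₁ R₁'
    intro h1 h2 h3
    rw [← hk] at h1 h2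
    rw [← hk'] at h2
    have hb : bd1 φ ≤ R'.k := h1.trans h2
    obtain ⟨m, hm, hm2⟩ := ht h1 h2 (((bd1_spec φ R'.k R'.v R₁'.v hb).1 hpe).2 h3)
    exact ⟨m, hk' ▸ hm, (bd1_mem φ hb hpe hm).1 hm2⟩
  · change TTv t R R' at ht
    change TTv t R₁ R₁'
    rintro h1 h2 ⟨a, ha⟩
    rw [← hS] at h1
    rw [← hk, ← hk'] at h2
    have hσ : ∀ i, (R'.v (t.2.2 i), R₁'.v (t.2.2 i)) ∈ pr R'.k R'.v R₁'.v := fun i =>
      ⟨_, ((R.mem_S.1 (h1 i)).1.trans_le h2), rfl⟩
    have h3 : ∃ a, t.2.1.Realize default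
        (Fin.snoc (fun i => R'.v (t.2.2 i)) a : Fin (t.1 + 1) → R'.N.mod) := by
      have h4 : t.2.1.ex.Realize default (fun i => R₁'.v (t.2.2 i)) := by
        rw [BoundedFormula.realize_ex]
        exact ⟨a, ha⟩
      have h5 := (bounded_iff_of_pelem hpe t.2.1.ex _ _ hσ).2 h4
      rw [BoundedFormula.realize_ex] at h5
      exact h5
    obtain ⟨m, hm, hm2⟩ := ht h1 h2 h3
    refine ⟨m, hS' ▸ hm, (bounded_iff_of_pelem hpe t.2.1 _ _ ?_).1 hm2⟩
    intro i
    refine Fin.lastCases ?_ (fun i => ?_) i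
    · simp only [Fin.snoc_last]
      exact ⟨m, (R'.mem_S.1 hm).1, rfl⟩
    · simp only [Fin.snoc_castSucc]
      exact hσ i
  · change TSurj q R R' at ht
    change TSurj q R₁ R₁'
    obtain ⟨i, hi, hi2⟩ := ht
    exact ⟨i, hk' ▸ hi, (hle.val i hi q).1 hi2⟩
  · change TDom t R R' at ht
    change TDom t R₁ R₁'
    intro h1 h2
    rw [← hS] at h1
    rw [← hH] at h2
    rw [← hH']
    exact ht h1 h2
  · change TRan t R R' at ht
    change TRan t R₁ R₁'
    intro h1 h2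
    rw [← hk] at h1
    rw [← hH] at h2
    rw [← hH']
    exact ht h1 h2
  · change TNew b R R' at ht
    change TNew b R₁ R₁'
    intro h1
    rw [← hS] at h1
    rw [← hH']
    exact ht h1

end Pool.Agent.Helper22.PT
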