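import Pool.Agent.Helper22.PT.BoundB

/-!
# Doing the tasks
-/

namespace Pool.Agent.Helper22.PT

open FirstOrder Language Cardinal Ordinal Pool.Agent.Helper85.VC

variable {L : FirstOrder.Language.{0, 0}} {T : L.Theory} {Φ : ℕ → Set (L.Formula (Fin 1))}
  {M : CModel T}

theorem Rl.upd (R : Rl Φ M) {i : ℕ} (hi : i < R.k) (a : R.N.mod) :
    Function.update R.v R.k a i = R.v i := by
  simp [hi.ne]

theorem Rl.upd_self (R : Rl Φ M) (a : R.N.mod) :
    Function.update R.v R.k a R.k = a := by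
  simp

theorem Rl.hadd (R : Rl Φ M) (a : R.N.mod) : ∀ j, ∀ p ∈ R.H.getD j [],
    p.1 < R.k + 1 ∧ p.2 < R.k + 1 ∧ Function.update R.v R.k a p.1 ∈ R.A := by
  intro j p hp
  obtain ⟨h1, h2, h3⟩ := R.hH j p hp
  refine ⟨by omega, by omega, ?_⟩
  rw [R.upd h1]
  exact h3

theorem Rl.rel_add (R : Rl Φ M) (a : R.N.mod) (H' : List (List (ℕ × ℕ)))
    (hH' : ∀ j, ∀ p ∈ H'.getD j [], p.1 < R.k + 1 ∧ p.2 < R.k + 1 ∧
      Function.update R.v R.k a p.1 ∈ R.A) (j : ℕ) (h : H'.getD j [] = R.H.getD j []) :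
    (R.add a H' hH').rel j = R.rel j := by
  unfold Rl.rel
  change {x : R.A × R.N.mod | ∃ p ∈ H'.getD j [], (x.1 : R.N.mod) =
    Function.update R.v R.k a p.1 ∧ x.2 = Function.update R.v R.k a p.2} = _
  rw [h]
  ext x
  constructor
  · rintro ⟨p, hp, h1, h2⟩
    obtain ⟨h3, h4, -⟩ := R.hH j p hp
    rw [R.upd h3] at h1
    rw [R.upd h4] at h2
    exact ⟨p, hp, h1, h2⟩
  · rintro ⟨p, hp, h1, h2⟩
    obtain ⟨h3, h4, -⟩ := R.hH j p hp
    refine ⟨p, hp, ?_, ?_⟩
    · rw [R.upd h3]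
      exact h1
    · rw [R.upd h4]
      exact h2

theorem Rl.ok_add (R : Rl Φ M) (a : R.N.mod) (H' : List (List (ℕ × ℕ)))
    (hH' : ∀ j, ∀ p ∈ H'.getD j [], p.1 < R.k + 1 ∧ p.2 < R.k + 1 ∧
      Function.update R.v R.k a p.1 ∈ R.A) {γ : Ordinal.{0}} (h : R.Ok γ)
    (h2 : ∀ j, H'.getD j [] ≠ R.H.getD j [] → E Φ γ ((R.add a H' hH').rel j)) :
    (R.add a H' hH').Ok γ := by
  refine ⟨h.1, fun j => ?_⟩
  by_cases h3 : H'.getD j [] = R.H.getD j []
  · rw [R.rel_add a H' hH' j h3]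
    exact h.2 j
  · exact h2 j h3

/-- adding an element without changing the lists -/
def Rl.add1 (R : Rl Φ M) (a : R.N.mod) : Rl Φ M := R.add a R.H (R.hadd a)

theorem Rl.le_add1 (R : Rl Φ M) (a : R.N.mod) : R.Le (R.add1 a) :=
  R.le_add a _ _ (fun _ _ h => h) le_rfl

theorem Rl.ok_add1 (R : Rl Φ M) (a : R.N.mod) {γ : Ordinal.{0}} (h : R.Ok γ) :
    (R.add1 a).Ok γ :=
  R.ok_add a _ _ h (fun _ h => (h rfl).elim)

/-- replacing the `j`-th list by adding a pair -/
def consAt (H : List (List (ℕ × ℕ))) (j : ℕ) (p : ℕ × ℕ) : List (List (ℕ × ℕ)) :=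
  H.set j (p :: H.getD j [])

theorem getD_consAt (H : List (List (ℕ × ℕ))) {j : ℕ} (hj : j < H.length) (p : ℕ × ℕ) (i : ℕ) :
    (consAt H j p).getD i [] = if i = j then p :: H.getD j [] else H.getD i [] := by
  unfold consAt
  rw [List.getD_eq_getElem?_getD, List.getElem?_set]
  by_cases h : j = i
  · subst h
    simp [hj]
  · have h' : i ≠ j := fun h1 => h h1.symm
    simp [h, h', List.getD_eq_getElem?_getD]

theorem length_consAt (H : List (List (ℕ × ℕ))) (j : ℕ) (p : ℕ × ℕ) :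
    (consAt H j p).length = H.length := by
  simp [consAt]

/-- adding an element and a pair -/
theorem Rl.exists_cons (R : Rl Φ M) (a : R.N.mod) {γ : Ordinal.{0}} (h : R.Ok γ) {j : ℕ}
    (hj : j < R.H.length) (p : ℕ × ℕ) (h1 : p.1 < R.k + 1) (h2 : p.2 < R.k + 1)
    (b : R.A) (b' : R.N.mod) (hb : Function.update R.v R.k a p.1 = (b : R.N.mod))
    (hb' : Function.update R.v R.k a p.2 = b') (hE : E Φ γ (insert (b, b') (R.rel j))) :
    ∃ R' : Rl Φ M, R.Le R' ∧ R.k < R'.k ∧ R'.Ok γ ∧ p ∈ R'.H.getD j [] := by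
  have hH' : ∀ i, ∀ q ∈ (consAt R.H j p).getD i [], q.1 < R.k + 1 ∧ q.2 < R.k + 1 ∧
      Function.update R.v R.k a q.1 ∈ R.A := by
    intro i q hq
    rw [getD_consAt _ hj] at hq
    split_ifs at hq with hij
    · rcases List.mem_cons.1 hq with rfl | hq
      · exact ⟨h1, h2, by rw [hb]; exact b.2⟩
      · exact R.hadd a j q hq
    · exact R.hadd a i q hq
  refine ⟨R.add a (consAt R.H j p) hH', ?_, Nat.lt_succ_self _, ?_, ?_⟩
  · refine R.le_add a _ _ (fun i q hq => ?_) (length_consAt _ _ _).ge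
    rw [getD_consAt _ hj]
    split_ifs with hij
    · subst hij
      exact List.mem_cons_of_mem _ hq
    · exact hq
  · refine R.ok_add a _ _ h (fun i hi => ?_)
    have hij : i = j := by
      by_contra hij
      apply hi
      rw [getD_consAt _ hj, if_neg hij]
    subst hij
    have key : ∀ x : R.A × R.N.mod, (∃ q ∈ (consAt R.H i p).getD i [], (x.1 : R.N.mod) =
        Function.update R.v R.k a q.1 ∧ x.2 = Function.update R.v R.k a q.2) →
        x ∈ insert (b, b') (R.rel i) := ?_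
    · exact E.mono hE (fun x hx => key x hx)
    rintro x ⟨q, hq, hx1, hx2⟩
    rw [getD_consAt _ hj, if_pos rfl] at hq
    rcases List.mem_cons.1 hq with rfl | hq
    · left
      exact Prod.ext (Subtype.ext (hx1.trans hb)) (hx2.trans hb')
    · right
      obtain ⟨h3, h4, -⟩ := R.hH i q hq
      rw [R.upd h3] at hx1
      rw [R.upd h4] at hx2
      exact ⟨q, hq, hx1, hx2⟩
  · change p ∈ (consAt R.H j p).getD j []
    rw [getD_consAt _ hj, if_pos rfl]
    exact List.mem_cons_self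

/-- adding a new list -/
theorem Rl.exists_new (R : Rl Φ M) (a : R.N.mod) {γ : Ordinal.{0}} (h : R.Ok γ) (b : List ℕ)
    (hb : ∀ i ∈ b, i ∈ R.S) :
    ∃ R' : Rl Φ M, R.Le R' ∧ R.k < R'.k ∧ R'.Ok γ ∧ ∃ j < R'.H.length,
      ∀ i ∈ b, (i, i) ∈ R'.H.getD j [] := by
  let H' := R.H ++ [b.map fun i => (i, i)]
  have hget : ∀ j, H'.getD j [] = if j = R.H.length then b.map (fun i => (i, i)) else
      R.H.getD j [] := by
    intro j
    rcases lt_trichotomy j R.H.length with hj | hj | hj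
    · rw [if_neg hj.ne]
      simp [H', List.getD_eq_getElem?_getD, List.getElem?_append_left hj]
    · rw [if_pos hj]
      subst hj
      simp [H', List.getD_eq_getElem?_getD]
    · rw [if_neg hj.ne']
      rw [List.getD_eq_default _ _ hj.le, List.getD_eq_default]
      simp [H']
      omega
  have hH' : ∀ i, ∀ q ∈ H'.getD i [], q.1 < R.k + 1 ∧ q.2 < R.k + 1 ∧
      Function.update R.v R.k a q.1 ∈ R.A := by
    intro i q hq
    rw [hget] at hq
    split_ifs at hq with hij
    · obtain ⟨l, hl, rfl⟩ := List.mem_map.1 hq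
      obtain ⟨h1, h2⟩ := R.mem_S.1 (hb l hl)
      refine ⟨by simp only; omega, by simp only; omega, ?_⟩
      simp only
      rw [R.upd h1]
      exact h2
    · exact R.hadd a i q hq
  refine ⟨R.add a H' hH', ?_, Nat.lt_succ_self _, ?_, R.H.length, ?_, ?_⟩
  · refine R.le_add a _ _ (fun i q hq => ?_) (by simp [H'])
    rw [hget]
    split_ifs with hij
    · subst hij
      rw [List.getD_eq_default _ _ le_rfl] at hq
      simp at hq
    · exact hq
  · refine R.ok_add a _ _ h (fun i hi => ?_)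
    have hij : i = R.H.length := by
      by_contra hij
      apply hi
      rw [hget, if_neg hij]
    subst hij
    have hne : b ≠ [] := by
      rintro rfl
      apply hi
      rw [hget, if_pos rfl, List.getD_eq_default _ _ le_rfl]
      rfl
    obtain ⟨i0, hi0⟩ := List.exists_mem_of_ne_nil b hne
    classical
    let b' : ℕ → R.A := fun l => if hl : b.getD l i0 ∈ R.S then
      ⟨R.v (b.getD l i0), (R.mem_S.1 hl).2⟩ else ⟨R.v i0, (R.mem_S.1 (hb i0 hi0)).2⟩
    have key : ∀ x : R.A × R.N.mod, (∃ q ∈ H'.getD R.H.length [], (x.1 : R.N.mod) =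
        Function.update R.v R.k a q.1 ∧ x.2 = Function.update R.v R.k a q.2) →
        x ∈ pr b.length b' (fun i => ((b' i : R.A) : R.N.mod)) := ?_
    · exact E.mono (h.1 b.length b') (fun x hx => key x hx)
    rintro x ⟨q, hq, hx1, hx2⟩
    rw [hget, if_pos rfl] at hq
    obtain ⟨l, hl, rfl⟩ := List.mem_map.1 hq
    obtain ⟨h1, h2⟩ := R.mem_S.1 (hb l hl)
    simp only at hx1 hx2
    rw [R.upd h1] at hx1 hx2
    obtain ⟨n, hn, hn2⟩ := List.getElem_of_mem hl
    have h3 : b.getD n i0 = l := by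
      rw [List.getD_eq_getElem _ _ hn, hn2]
    have h4 : b' n = ⟨R.v l, h2⟩ := by
      simp only [b', h3, dif_pos (hb l hl)]
    refine ⟨n, hn, ?_⟩
    refine Prod.ext ?_ ?_
    · change x.1 = b' n
      rw [h4]
      exact Subtype.ext hx1
    · change x.2 = ((b' n : R.A) : R.N.mod)
      rw [h4]
      exact hx2
  · change R.H.length < H'.length
    simp [H']
  · intro i hi
    change (i, i) ∈ H'.getD R.H.length []
    rw [hget, if_pos rfl]
    exact List.mem_map.2 ⟨i, hi, rfl⟩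

theorem exists_task (t) (R : Rl Φ M) {γ : Ordinal.{0}} (h : R.Ok (γ + 1)) :
    ∃ R' : Rl Φ M, R.Le R' ∧ R.k < R'.k ∧ Task t R R' ∧ R'.Ok γ := by
  classical
  have hγ : γ < γ + 1 := lt_add_one γ
  have hok : R.Ok γ := h.mono hγ.le
  have ha0 : R.N.mod := R.v 0
  rcases t with φ | t | q | t | t | b
  · -- witnesses
    by_cases hφ : bd1 φ ≤ R.k ∧ φ.ex.Realize R.v default
    · obtain ⟨h1, h2⟩ := hφ
      have h3 : ∃ a, φ.Realize R.v (fun _ => a) := by
        rw [BoundedFormula.realize_ex] at h2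
        obtain ⟨a, ha⟩ := h2
        refine ⟨a, ?_⟩
        have h4 : (Fin.snoc default a : Fin 1 → R.N.mod) = fun _ => a := by
          funext i
          have hi : i = Fin.last 0 := Fin.ext (by omega)
          rw [hi]
          exact Fin.snoc_last _ _
        rw [h4] at ha
        exact ha
      obtain ⟨a, ha⟩ := h3
      refine ⟨R.add1 a, R.le_add1 a, Nat.lt_succ_self _, ?_, R.ok_add1 a hok⟩
      intro _ _ _
      refine ⟨R.k, Nat.lt_succ_self _, ?_⟩
      have h4 := (bd1_spec φ R.k R.v (R.add1 a).v h1).2 a a ?_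
      · have h5 : (R.add1 a).v R.k = a := R.upd_self a
        rw [h5]
        exact h4.1 ha
      · have h6 : Base Φ (insert (a, a) (pr R.k R.v (R.add1 a).v)) := by
          apply base_of_equiv (Language.Equiv.refl L R.N.mod)
          rintro x (rfl | ⟨i, hi, rfl⟩)
          · rfl
          · exact (R.upd hi a).symm
        exact h6.1
    · refine ⟨R.add1 ha0, R.le_add1 _, Nat.lt_succ_self _, ?_, R.ok_add1 _ hok⟩
      intro h1 h2 h3
      refine (hφ ⟨h1, ?_⟩).elim
      exact ((bd1_spec φ R.k R.v (R.add1 ha0).v h1).1 (R.le_add1 ha0).pelem).2 h3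
  · -- witnesses in the substructure
    by_cases hφ : (∀ i, t.2.2 i ∈ R.S) ∧ ∃ a, t.2.1.Realize default
        (Fin.snoc (fun i => R.v (t.2.2 i)) a : Fin (t.1 + 1) → R.N.mod)
    · obtain ⟨h1, a, ha⟩ := hφ
      let w : Fin t.1 → R.A := fun i => ⟨R.v (t.2.2 i), (R.mem_S.1 (h1 i)).2⟩
      have h2 : ∃ b : R.A, t.2.1.Realize default
          (Fin.snoc (fun i => R.v (t.2.2 i)) (b : R.N.mod) : Fin (t.1 + 1) → R.N.mod) := by
        have h3 : t.2.1.ex.Realize default (fun i => ((w i : R.A) : R.N.mod)) := by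
          rw [BoundedFormula.realize_ex]
          exact ⟨a, ha⟩
        have h4 : t.2.1.ex.Realize default w := by
          have h5 := R.A.subtype.map_boundedFormula t.2.1.ex (default : Empty → R.A) w
          rw [← h5, Subsingleton.elim (R.A.subtype ∘ (default : Empty → R.A)) default]
          exact h3
        rw [BoundedFormula.realize_ex] at h4
        obtain ⟨b, hb⟩ := h4
        refine ⟨b, ?_⟩
        have h5 := R.A.subtype.map_boundedFormula t.2.1 (default : Empty → R.A)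
          (Fin.snoc w b : Fin (t.1 + 1) → R.A)
        rw [← h5, Subsingleton.elim (R.A.subtype ∘ (default : Empty → R.A)) default] at hb
        have h6 : (R.A.subtype ∘ (Fin.snoc w b : Fin (t.1 + 1) → R.A)) =
            (Fin.snoc (fun i => R.v (t.2.2 i)) (b : R.N.mod) : Fin (t.1 + 1) → R.N.mod) := by
          funext i
          refine Fin.lastCases ?_ (fun i => ?_) i
          · simp
          · simp [w]
        rw [h6] at hb
        exact hb
      obtain ⟨b, hb⟩ := h2
      refine ⟨R.add1 (b : R.N.mod), R.le_add1 _, Nat.lt_succ_self _, ?_, R.ok_add1 _ hok⟩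
      intro _ _ _
      have h5 : Function.update R.v R.k (b : R.N.mod) R.k = (b : R.N.mod) := R.upd_self _
      have h6 : (fun i => Function.update R.v R.k (b : R.N.mod) (t.2.2 i)) =
          fun i => R.v (t.2.2 i) := by
        funext i
        exact R.upd (R.mem_S.1 (h1 i)).1 _
      refine ⟨R.k, ?_, ?_⟩
      · rw [Rl.mem_S]
        refine ⟨Nat.lt_succ_self _, ?_⟩
        change Function.update R.v R.k (b : R.N.mod) R.k ∈ R.A
        rw [h5]
        exact b.2
      · change t.2.1.Realize default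
          (Fin.snoc (fun i => Function.update R.v R.k (b : R.N.mod) (t.2.2 i))
            (Function.update R.v R.k (b : R.N.mod) R.k) : Fin (t.1 + 1) → R.N.mod)
        rw [h5, h6]
        exact hb
    · refine ⟨R.add1 ha0, R.le_add1 _, Nat.lt_succ_self _, ?_, R.ok_add1 _ hok⟩
      rintro h1 h2 ⟨a, ha⟩
      refine (hφ ⟨h1, a, ?_⟩).elim
      have h6 : (fun i => Function.update R.v R.k ha0 (t.2.2 i)) =
          fun i => R.v (t.2.2 i) := by
        funext i
        exact R.upd (R.mem_S.1 (h1 i)).1 _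
      rw [← h6]
      exact ha
  · -- elements of Q
    refine ⟨R.add1 ((R.e q : sol Φ R.N.mod) : R.N.mod), R.le_add1 _, Nat.lt_succ_self _, ?_,
      R.ok_add1 _ hok⟩
    exact ⟨R.k, Nat.lt_succ_self _, (R.upd_self _).symm⟩
  · -- domains
    by_cases hc : t.2 ∈ R.S ∧ t.1 < R.H.length
    · obtain ⟨h1, h2⟩ := hc
      obtain ⟨h3, h4⟩ := R.mem_S.1 h1
      obtain ⟨b', hb'⟩ := (h.2 t.1).forth hγ ⟨R.v t.2, h4⟩
      obtain ⟨R', hR1, hR2, hR3, hR4⟩ := R.exists_cons b' hok h2 (t.2, R.k) (by simp only; omega)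
        (by simp only; omega) ⟨R.v t.2, h4⟩ b' (R.upd h3 _) (R.upd_self _) hb'
      exact ⟨R', hR1, hR2, fun _ _ => ⟨_, hR4⟩, hR3⟩
    · refine ⟨R.add1 ha0, R.le_add1 _, Nat.lt_succ_self _, ?_, R.ok_add1 _ hok⟩
      intro h1 h2
      exact (hc ⟨h1, h2⟩).elim
  · -- ranges
    by_cases hc : t.2 < R.k ∧ t.1 < R.H.length
    · obtain ⟨h1, h2⟩ := hc
      obtain ⟨b, hb⟩ := (h.2 t.1).back hγ (R.v t.2)
      obtain ⟨R', hR1, hR2, hR3, hR4⟩ := R.exists_cons (b : R.N.mod) hok h2 (R.k, t.2)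
        (by simp only; omega) (by simp only; omega) b (R.v t.2) (R.upd_self _) (R.upd h1 _) hb
      exact ⟨R', hR1, hR2, fun _ _ => ⟨_, hR4⟩, hR3⟩
    · refine ⟨R.add1 ha0, R.le_add1 _, Nat.lt_succ_self _, ?_, R.ok_add1 _ hok⟩
      intro h1 h2
      exact (hc ⟨h1, h2⟩).elim
  · -- new lists
    by_cases hc : ∀ i ∈ b, i ∈ R.S
    · obtain ⟨R', hR1, hR2, hR3, hR4⟩ := R.exists_new ha0 hok b hc
      exact ⟨R', hR1, hR2, fun _ => hR4, hR3⟩
    · refine ⟨R.add1 ha0, R.le_add1 _, Nat.lt_succ_self _, ?_, R.ok_add1 _ hok⟩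
      intro h1
      exact (hc h1).elim

end Pool.Agent.Helper22.PT
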