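import Pool.Agent.Helper22.PT.BoundC

/-!
# The chain of realised nodes
-/

namespace Pool.Agent.Helper22.PT

open FirstOrder Language Cardinal Ordinal Pool.Agent.Helper85.VC

variable {L : FirstOrder.Language.{0, 0}} {T : L.Theory} {Φ : ℕ → Set (L.Formula (Fin 1))}
  {M : CModel T}

/-- good nodes -/
def Good (n : Nd Φ M) : Prop := ∀ γ < ω₁, ∃ R : Rl Φ M, R.node = n ∧ R.Ok γ

theorem add_one_lt_omega1 {γ : Ordinal.{0}} (h : γ < ω₁) : γ + 1 < ω₁ := by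
  have h1 : Order.IsSuccLimit (ω₁ : Ordinal.{0}) := isSuccLimit_omega 1
  have h2 := h1.succ_lt h
  rwa [← Order.succ_eq_add_one]

theorem exists_next (h0 : ∀ m, Countable (Cls Φ M 0 m)) {n : Nd Φ M} (hn : Good n) (t) :
    ∃ n' : Nd Φ M, Good n' ∧ ∀ R R' : Rl Φ M, R.node = n → R'.node = n' →
      R.Le R' ∧ R.k < R'.k ∧ Task t R R' := by
  have := countable_nd h0
  obtain ⟨n', hn'⟩ := pigeonhole (fun γ n' => ∃ R R' : Rl Φ M, R.node = n ∧ R'.node = n' ∧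
    R.Le R' ∧ R.k < R'.k ∧ Task t R R' ∧ R'.Ok γ)
    (fun γ γ' i hγ ⟨R, R', h1, h2, h3, h4, h5, h6⟩ => ⟨R, R', h1, h2, h3, h4, h5, h6.mono hγ⟩)
    (fun γ hγ => by
      obtain ⟨R, hR1, hR2⟩ := hn (γ + 1) (add_one_lt_omega1 hγ)
      obtain ⟨R', h1, h2, h3, h4⟩ := exists_task t R hR2
      exact ⟨R'.node, R, R', hR1, rfl, h1, h2, h3, h4⟩)
  refine ⟨n', fun γ hγ => ?_, fun R R' hR hR' => ?_⟩
  · obtain ⟨R, R', h1, h2, h3, h4, h5, h6⟩ := hn' γ hγ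
    exact ⟨R', h2, h6⟩
  · obtain ⟨R₁, R₁', h1, h2, h3, h4, h5, h6⟩ := hn' 0 (omega_pos 1)
    have e1 : R₁.node = R.node := h1.trans hR.symm
    have e2 : R₁'.node = R'.node := h2.trans hR'.symm
    refine ⟨((Rl.le_of_node e1.symm).trans h3).trans (Rl.le_of_node e2), ?_,
      task_congr t e1 e2 h5⟩
    rw [← (Rl.node_eq e1).1, ← (Rl.node_eq e2).1]
    exact h4

theorem exists_first (h0 : ∀ m, Countable (Cls Φ M 0 m))
    (h : ∀ γ < ω₁, ∃ (N : KQ Φ M) (A : L.ElementarySubstructure N.mod),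
      ¬ (sol Φ N.mod ⊆ (A : Set N.mod)) ∧
        ∀ (m : ℕ) (b : ℕ → A), E Φ γ (pr m b (fun i => ((b i : A) : N.mod)))) :
    ∃ n : Nd Φ M, Good n ∧ ∀ R : Rl Φ M, R.node = n →
      0 < R.k ∧ R.v 0 ∉ R.A ∧ R.v 0 ∈ sol Φ R.N.mod := by
  have := countable_nd h0
  obtain ⟨n, hn⟩ := pigeonhole (fun γ n => ∃ R : Rl Φ M, R.node = n ∧
    (0 < R.k ∧ R.v 0 ∉ R.A ∧ R.v 0 ∈ sol Φ R.N.mod) ∧ R.Ok γ)
    (fun γ γ' i hγ ⟨R, h1, h2, h3⟩ => ⟨R, h1, h2, h3.mono hγ⟩)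
    (fun γ hγ => by
      obtain ⟨N, A, h1, h2⟩ := h γ hγ
      obtain ⟨e, he⟩ := N.ex
      obtain ⟨a, ha1, ha2⟩ := Set.not_subset.1 h1
      let R : Rl Φ M := ⟨N, A, e, he, fun _ => a, 1, [], fun j p hp => by simp at hp⟩
      refine ⟨R.node, R, rfl, ⟨Nat.one_pos, ha2, ha1⟩, h2, fun j => ?_⟩
      have hrel : R.rel j = ∅ := by
        ext x
        simp [Rl.rel, R]
      rw [hrel]
      obtain ⟨c⟩ : Nonempty A := A.elementarilyEquivalent.symm.nonempty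
      exact E.mono (h2 0 (fun _ => c)) (Set.empty_subset _))
  refine ⟨n, fun γ hγ => ?_, fun R hR => ?_⟩
  · obtain ⟨R, h1, h2, h3⟩ := hn γ hγ
    exact ⟨R, h1, h3⟩
  · obtain ⟨R₁, h1, ⟨h2, h3, h4⟩, h5⟩ := hn 0 (omega_pos 1)
    have e1 : R₁.node = R.node := h1.trans hR.symm
    have hle := Rl.le_of_node e1
    refine ⟨(Rl.node_eq e1).1 ▸ h2, fun h6 => h3 ((hle.mem 0 h2).2 h6), ?_⟩
    have h7 : (R₁.v 0, R.v 0) ∈ pr R₁.k R₁.v R.v := ⟨0, h2, rfl⟩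
    exact (mem_sol_iff hle.pelem h7).1 h4

theorem exists_seq [Countable L.Symbols] (h0 : ∀ m, Countable (Cls Φ M 0 m))
    (h : ∀ γ < ω₁, ∃ (N : KQ Φ M) (A : L.ElementarySubstructure N.mod),
      ¬ (sol Φ N.mod ⊆ (A : Set N.mod)) ∧
        ∀ (m : ℕ) (b : ℕ → A), E Φ γ (pr m b (fun i => ((b i : A) : N.mod)))) :
    ∃ Rs : ℕ → Rl Φ M, (∀ i j, i ≤ j → (Rs i).Le (Rs j)) ∧ (∀ j, (Rs j).Ok 0) ∧
      (∀ t j₀, ∃ j, j₀ ≤ j ∧ Task t (Rs j) (Rs (j + 1))) ∧ (∀ j, j < (Rs j).k) ∧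
      (Rs 0).v 0 ∉ (Rs 0).A ∧ (Rs 0).v 0 ∈ sol Φ (Rs 0).N.mod := by
  classical
  obtain ⟨n₀, hn₀, hfirst⟩ := exists_first h0 h
  have c1 : Countable (L.BoundedFormula ℕ 1) :=
    (sigma_mk_injective (β := fun n => L.BoundedFormula ℕ n) (i := 1)).countable
  have c2 : ∀ n, Countable (L.BoundedFormula Empty (n + 1)) := fun n =>
    (sigma_mk_injective (β := fun n => L.BoundedFormula Empty n) (i := n + 1)).countable
  obtain ⟨τ, hτ⟩ := exists_surjective_nat (L.BoundedFormula ℕ 1 ⊕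
    (Σ n, L.BoundedFormula Empty (n + 1) × (Fin n → ℕ)) ⊕
    sol Φ M ⊕ (ℕ × ℕ) ⊕ (ℕ × ℕ) ⊕ List ℕ)
  choose f hf1 hf2 using fun (g : {n : Nd Φ M // Good n}) t => exists_next h0 g.2 t
  let G : ℕ → {n : Nd Φ M // Good n} := fun j =>
    Nat.rec ⟨n₀, hn₀⟩ (fun j g => ⟨f g (τ (Nat.unpair j).1), hf1 g _⟩) j
  choose Rs hRs1 hRs2 using fun j => (G j).2 0 (omega_pos 1)
  have hstep : ∀ j, (Rs j).Le (Rs (j + 1)) ∧ (Rs j).k < (Rs (j + 1)).k ∧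
      Task (τ (Nat.unpair j).1) (Rs j) (Rs (j + 1)) := fun j =>
    hf2 (G j) (τ (Nat.unpair j).1) (Rs j) (Rs (j + 1)) (hRs1 j) (hRs1 (j + 1))
  have hfirst0 := hfirst (Rs 0) (hRs1 0)
  refine ⟨Rs, ?_, hRs2, ?_, ?_, hfirst0.2.1, hfirst0.2.2⟩
  · intro i j hij
    induction j, hij using Nat.le_induction with
    | base => exact Rl.le_of_node rfl
    | succ j _ ih => exact ih.trans (hstep j).1
  · intro t j₀
    obtain ⟨a, ha⟩ := hτ t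
    refine ⟨Nat.pair a j₀, Nat.right_le_pair a j₀, ?_⟩
    have h1 := (hstep (Nat.pair a j₀)).2.2
    rw [Nat.unpair_pair, ha] at h1
    exact h1
  · intro j
    induction j with
    | zero => exact hfirst0.1
    | succ j ih => exact lt_of_le_of_lt ih (hstep j).2.1

end Pool.Agent.Helper22.PT
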