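import Pool.Agent.Helper22.PT.BoundD

/-!
# The limit of the chain of realised nodes
-/

namespace Pool.Agent.Helper22.PT

open FirstOrder Language Cardinal Ordinal Pool.Agent.Helper85.VC

variable {L : FirstOrder.Language.{0, 0}} {T : L.Theory} {Φ : ℕ → Set (L.Formula (Fin 1))}
  {M : CModel T}

/-- an isomorphism from two parallel surjective families with the same types -/
theorem iso_of_rel {A N X : Type} [L.Structure A] [L.Structure N] (u : X → A) (u' : X → N)
    (hu : Function.Surjective u) (hu' : Function.Surjective u')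
    (h : ∀ (n : ℕ) (φ : L.Formula (Fin n)) (xs : Fin n → X),
      φ.Realize (fun i => u (xs i)) ↔ φ.Realize (fun i => u' (xs i))) :
    ∃ g : A ≃[L] N, ∀ x, g (u x) = u' x := by
  have heq : ∀ x y, u x = u y ↔ u' x = u' y := by
    intro x y
    have h1 := h 2 ((Term.var 0).equal (Term.var 1)) ![x, y]
    simpa using h1
  choose r hr using hu
  have hj : ∀ x, u' (r (u x)) = u' x := fun x => (heq _ _).1 (hr _)
  have hbij : Function.Bijective fun m => u' (r m) := by
    constructor
    · intro m m' h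
      have := (heq _ _).2 h
      rwa [hr, hr] at this
    · intro m'
      obtain ⟨x, rfl⟩ := hu' m'
      exact ⟨u x, hj x⟩
  refine ⟨⟨Equiv.ofBijective _ hbij, ?_, ?_⟩, hj⟩
  · intro n g xs
    have h1 := h (n + 1) ((Term.func g (fun i => Term.var i.castSucc)).equal
      (Term.var (Fin.last n))) (Fin.snoc (fun i => r (xs i)) (r (Structure.funMap g xs)))
    have h2 : Structure.funMap g (fun i => u (r (xs i))) = u (r (Structure.funMap g xs)) := by
      simp only [hr]
    simp only [Formula.realize_equal, Term.realize_func, Term.realize_var,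
      Fin.snoc_castSucc, Fin.snoc_last] at h1
    exact (h1.1 h2).symm
  · intro n R xs
    have h1 := h n (R.formula (fun i => Term.var i)) (fun i => r (xs i))
    simp only [Formula.realize_rel, Term.realize_var, hr] at h1
    exact h1.symm

section limit

variable (Rs : ℕ → Rl Φ M)

/-- the limit diagram -/
def Dg (φ : L.Formula ℕ) : Prop := ∃ j₀, ∀ j, j₀ ≤ j → φ.Realize (Rs j).v

/-- the bound for the variables of `φ` -/
noncomputable def bd (φ : L.Formula ℕ) : ℕ := (exists_bd φ).choose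

theorem bd_spec (φ : L.Formula ℕ) {N N' : Type} [L.Structure N] [L.Structure N']
    (m : ℕ) (v : ℕ → N) (v' : ℕ → N') (hm : bd φ ≤ m) (h : PElem L (pr m v v')) :
    φ.Realize v ↔ φ.Realize v' :=
  (exists_bd φ).choose_spec m v v' hm h

variable {Rs} (hle : ∀ i j, i ≤ j → (Rs i).Le (Rs j)) (hk : ∀ j, j < (Rs j).k)

include hle

theorem dg_iff {φ : L.Formula ℕ} {j : ℕ} (hj : bd φ ≤ (Rs j).k) :
    Dg Rs φ ↔ φ.Realize (Rs j).v := by
  constructor
  · rintro ⟨j₀, h⟩
    have h1 := h (max j j₀) (le_max_right _ _)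
    exact (bd_spec φ _ _ _ hj (hle j _ (le_max_left _ _)).pelem).2 h1
  · intro h
    exact ⟨j, fun j' hj' => (bd_spec φ _ _ _ hj (hle j _ hj').pelem).1 h⟩

theorem val_iff {i j j' : ℕ} (hi : i < (Rs j).k) (hi' : i < (Rs j').k) (q : sol Φ M) :
    (((Rs j).e q : sol Φ (Rs j).N.mod) : (Rs j).N.mod) = (Rs j).v i ↔
      (((Rs j').e q : sol Φ (Rs j').N.mod) : (Rs j').N.mod) = (Rs j').v i := by
  rcases le_total j j' with h | h
  · exact (hle j j' h).val i hi q
  · exact ((hle j' j h).val i hi' q).symm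

theorem mem_iff {i j j' : ℕ} (hi : i < (Rs j).k) (hi' : i < (Rs j').k) :
    (Rs j).v i ∈ (Rs j).A ↔ (Rs j').v i ∈ (Rs j').A := by
  rcases le_total j j' with h | h
  · exact (hle j j' h).mem i hi
  · exact ((hle j' j h).mem i hi').symm

include hk

omit hle in
theorem lt_k {i j : ℕ} (h : i ≤ j) : i < (Rs j).k := lt_of_le_of_lt h (hk j)

open Classical in
theorem isCode_limit [Countable L.Symbols]
    (htask : ∀ t j₀, ∃ j, j₀ ≤ j ∧ Task t (Rs j) (Rs (j + 1))) :
    IsCode Φ M (fun φ => decide (Dg Rs φ), fun i => val (Rs i).e ((Rs i).v i)) := by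
  rw [isCode_iff]
  have hval : ∀ i q, (val (Rs i).e ((Rs i).v i) = some q) ↔
      ∀ j, i < (Rs j).k → (((Rs j).e q : sol Φ (Rs j).N.mod) : (Rs j).N.mod) = (Rs j).v i := by
    intro i q
    rw [val_eq]
    constructor
    · intro h j hj
      exact (val_iff hle (hk i) hj q).1 h
    · intro h
      exact h i (hk i)
  refine ⟨fun F => ?_, fun φ hφ => ?_, fun n φ σ q hq => ?_, fun i hi j => ?_, fun q => ?_⟩
  · let j := F.sup bd
    refine ⟨(Rs j).N.mod, (Rs j).v, fun φ hφ => ?_⟩
    rw [decide_eq_true_iff]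
    refine dg_iff hle ((Finset.le_sup hφ).trans (hk j).le)
  · simp only [decide_eq_true_eq] at hφ ⊢
    obtain ⟨j, hj, ht⟩ := htask (Sum.inl φ) (max (bd1 φ) (bd (φ.ex : L.Formula ℕ)))
    have hj1 : bd1 φ ≤ (Rs j).k := ((le_max_left _ _).trans hj).trans (hk j).le
    have hkk : (Rs j).k ≤ (Rs (j + 1)).k := (hle j (j + 1) (Nat.le_succ j)).k
    have hj2 : bd (φ.ex : L.Formula ℕ) ≤ (Rs (j + 1)).k :=
      (((le_max_right _ _).trans hj).trans (hk j).le).trans hkk
    have h1 := (dg_iff hle hj2).1 hφ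
    obtain ⟨m, hm, hm2⟩ := ht hj1 hkk h1
    refine ⟨m, j + 1, fun j' hj' => ?_⟩
    rw [realize_inst]
    exact (bd1_mem φ (hj1.trans hkk) (hle (j + 1) j' hj').pelem hm).1 hm2
  · rw [decide_eq_true_iff]
    let j := max (Finset.univ.sup σ) (bd (φ.relabel σ))
    have hj1 : ∀ i, σ i < (Rs j).k := fun i =>
      lt_of_le_of_lt ((Finset.le_sup (Finset.mem_univ i)).trans (le_max_left _ _)) (hk j)
    have hj2 : bd (φ.relabel σ) ≤ (Rs j).k := (le_max_right _ _).trans (hk j).le
    rw [dg_iff hle hj2, Formula.realize_relabel]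
    have h1 : (Rs j).v ∘ σ =
        fun i => (((Rs j).e (q i) : sol Φ (Rs j).N.mod) : (Rs j).N.mod) := by
      funext i
      exact ((hval _ _).1 (hq i) j (hj1 i)).symm
    rw [h1]
    have h2 := (Rs j).he (φ.relabel q)
    rw [Formula.realize_relabel, Formula.realize_relabel] at h2
    exact h2.symm
  · have h1 : (Rs i).v i ∉ sol Φ (Rs i).N.mod := by
      intro h1
      have h2 : val (Rs i).e ((Rs i).v i) = some ((Rs i).e.symm ⟨_, h1⟩) := by
        rw [val_eq, Equiv.apply_symm_apply]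
      have h3 := h2.symm.trans hi
      exact absurd h3 (Option.some_ne_none _)
    have h2 : ∃ φ ∈ Φ j, ¬ φ.Realize (fun _ => (Rs i).v i) := by
      by_contra hcon
      push Not at hcon
      exact h1 ⟨j, hcon⟩
    obtain ⟨φ, hφ, hφ2⟩ := h2
    refine ⟨φ, hφ, ?_⟩
    rw [decide_eq_false_iff_not]
    rintro ⟨j₀, h3⟩
    have h4 := h3 (max i j₀) (le_max_right _ _)
    rw [Formula.realize_relabel] at h4
    apply hφ2
    have h5 := (hle i (max i j₀) (le_max_left _ _)).pelem 1 φ
      (fun _ => ((Rs i).v i, (Rs (max i j₀)).v i)) (fun _ => ⟨i, hk i, rfl⟩)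
    exact h5.2 h4
  · obtain ⟨j, hj, i, hi, hi2⟩ := htask (Sum.inr (Sum.inr (Sum.inl q))) 0
    refine ⟨i, ?_⟩
    have h1 := (val_iff hle hi (hk i) q).1 hi2
    exact (val_eq _ _ _).2 h1

end limit

end Pool.Agent.Helper22.PT
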