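import Pool.Agent.Helper22.PT.Code
import Pool.Agent.Helper22.PT.Dep

/-!
# Generic models built from chains of approximations
-/

namespace Pool.Agent.Helper22.PT

open FirstOrder Language Cardinal Ordinal Pool.Agent.Helper85.VC

variable {L : FirstOrder.Language.{0, 0}} {T : L.Theory} {Φ : ℕ → Set (L.Formula (Fin 1))}
  {M : CModel T}

/-- An approximation: a model in `K_Q` with an elementary bijection `e` from `Q` to `Φ(N)`, a
sequence of which the first `m` terms count, and a rank `β`. -/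
structure Ap (Φ : ℕ → Set (L.Formula (Fin 1))) (M : CModel T) where
  /-- the model and the sequence -/
  p : Pt Φ M
  /-- the bijection -/
  e : sol Φ M ≃ sol Φ p.N.mod
  he : Elem L e
  /-- the number of terms that count -/
  m : ℕ
  /-- the rank -/
  β : Ordinal.{0}

/-- `s` extends `r` -/
def Ap.Le (r s : Ap Φ M) : Prop :=
  r.m ≤ s.m ∧ r.β ≤ s.β ∧ Eqv r.β r.m r.p s.p ∧
    ∀ i < r.m, ∀ q, ((r.e q : sol Φ r.p.N.mod) : r.p.N.mod) = r.p.v i ↔
      ((s.e q : sol Φ s.p.N.mod) : s.p.N.mod) = s.p.v i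

/-- adding an element of the same model -/
def Ap.ext (r : Ap Φ M) (b : r.p.N.mod) : Ap Φ M :=
  ⟨⟨r.p.N, Function.update r.p.v r.m b⟩, r.e, r.he, r.m + 1, r.β⟩

/-- changing the rank -/
def Ap.up (r : Ap Φ M) (γ : Ordinal.{0}) : Ap Φ M := ⟨r.p, r.e, r.he, r.m, γ⟩

theorem Ap.Le.refl (r : Ap Φ M) : r.Le r := ⟨le_rfl, le_rfl, Eqv.refl _ _ _, fun _ _ _ => Iff.rfl⟩

theorem Ap.Le.trans {r s t : Ap Φ M} (h : r.Le s) (h' : s.Le t) : r.Le t :=
  ⟨h.1.trans h'.1, h.2.1.trans h'.2.1, h.2.2.1.trans (h'.2.2.1.mono h.2.1 h.1),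
    fun i hi q => (h.2.2.2 i hi q).trans (h'.2.2.2 i (hi.trans_le h.1) q)⟩

theorem Ap.le_ext (r : Ap Φ M) (b : r.p.N.mod) : r.Le (r.ext b) := by
  refine ⟨Nat.le_succ _, le_rfl, ?_, fun i hi q => ?_⟩
  · apply E_refl
    rintro _ ⟨i, hi, rfl⟩
    simp [Ap.ext, hi.ne]
  · have h1 : (r.ext b).p.v i = r.p.v i := by simp [Ap.ext, hi.ne]
    rw [h1]
    exact Iff.rfl

theorem Ap.le_up (r : Ap Φ M) {γ : Ordinal.{0}} (h : r.β ≤ γ) : r.Le (r.up γ) :=
  ⟨le_rfl, h, Eqv.refl _ _ _, fun _ _ _ => Iff.rfl⟩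

/-- Replacing the model by an equivalent one (use the bijection given by `Base`). -/
theorem Ap.exists_move (r : Ap Φ M) (q : Pt Φ M) (h : Eqv r.β r.m r.p q) (γ : Ordinal.{0})
    (hγ : r.β ≤ γ) : ∃ s : Ap Φ M, s.p = q ∧ s.m = r.m ∧ s.β = γ ∧ r.Le s := by
  obtain ⟨h1, g, hg, h2⟩ := E.base h
  refine ⟨⟨q, r.e.trans g, r.he.trans hg, r.m, γ⟩, rfl, rfl, rfl, le_rfl, hγ, h,
    fun i hi a => ?_⟩
  have hm : (r.p.v i, q.v i) ∈ pr r.m r.p.v q.v := ⟨i, hi, rfl⟩
  constructor
  · intro ha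
    have h3 : r.p.v i ∈ sol Φ r.p.N.mod := by rw [← ha]; exact (r.e a).2
    have h4 := h2 _ hm h3
    have h5 : r.e a = ⟨r.p.v i, h3⟩ := Subtype.ext ha
    change ((g (r.e a) : sol Φ q.N.mod) : q.N.mod) = q.v i
    rw [h5]
    exact h4
  · intro ha
    change ((g (r.e a) : sol Φ q.N.mod) : q.N.mod) = q.v i at ha
    have h3 : q.v i ∈ sol Φ q.N.mod := by rw [← ha]; exact (g (r.e a)).2
    have h3' : r.p.v i ∈ sol Φ r.p.N.mod := (mem_sol_iff h1 hm).2 h3
    have h4 := h2 _ hm h3'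
    have h5 : g (r.e a) = g ⟨r.p.v i, h3'⟩ := Subtype.ext (ha.trans h4.symm)
    exact congrArg Subtype.val (g.injective h5)

private theorem chain_countable {δ : Ordinal.{0}} (h : δ < ω₁) : Countable (Set.Iio δ) := by
  rw [← Cardinal.mk_le_aleph0_iff, Cardinal.mk_Iio_ordinal, Cardinal.lift_le_aleph0]
  have h1 : δ < (ℵ₁ : Cardinal.{0}).ord := by
    rw [Cardinal.ord_aleph]
    exact h
  rw [Cardinal.lt_ord] at h1
  rw [← Cardinal.succ_aleph0] at h1
  exact Order.lt_succ_iff.1 h1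

private theorem chain_bookkeeping {α : Type 1} (P : α → Prop) (R : α → α → Prop)
    (hrefl : ∀ a, R a a) (htrans : ∀ a b c, R a b → R b c → R a c)
    (S : α → Set (Set α)) (hS : ∀ a, (S a).Countable)
    (hd : ∀ a b, P a → P b → R a b → ∀ A ∈ S a, ∃ c, P c ∧ R b c ∧ c ∈ A)
    (a₀ : α) (ha₀ : P a₀) :
    ∃ r : ℕ → α, r 0 = a₀ ∧ (∀ i, P (r i)) ∧ (∀ i j, i ≤ j → R (r i) (r j)) ∧
      ∀ i, ∀ A ∈ S (r i), ∃ j, i ≤ j ∧ r j ∈ A := by
  classical
  have hS' : ∀ a, ∃ f : ℕ → Set α, ∀ A ∈ S a, ∃ k, f k = A := by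
    intro a
    rcases (S a).eq_empty_or_nonempty with h | h
    · exact ⟨fun _ => ∅, by rw [h]; simp⟩
    · obtain ⟨f, hf⟩ := (hS a).exists_eq_range h
      exact ⟨f, fun A hA => by rw [hf] at hA; exact hA⟩
  choose f hf using hS'
  have hstep : ∀ (a b : α) (k : ℕ), ∃ c, P a → P b → R a b →
      P c ∧ R b c ∧ (f a k ∈ S a → c ∈ f a k) := by
    intro a b k
    by_cases h : P a ∧ P b ∧ R a b
    · by_cases hk : f a k ∈ S a
      · obtain ⟨c, h1, h2, h3⟩ := hd a b h.1 h.2.1 h.2.2 _ hk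
        exact ⟨c, fun _ _ _ => ⟨h1, h2, fun _ => h3⟩⟩
      · exact ⟨b, fun _ _ _ => ⟨h.2.1, hrefl b, fun h' => absurd h' hk⟩⟩
    · exact ⟨b, fun h1 h2 h3 => absurd ⟨h1, h2, h3⟩ h⟩
  choose step hstep using hstep
  let F : ℕ → (ℕ → α) := fun n => Nat.rec (fun _ => a₀)
    (fun j G => Function.update G (j + 1) (step (G (Nat.unpair j).1) (G j) (Nat.unpair j).2)) n
  have hF : ∀ j, F (j + 1) = Function.update (F j) (j + 1)
      (step (F j (Nat.unpair j).1) (F j j) (Nat.unpair j).2) := fun j => rfl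
  have hF1 : ∀ j i, i ≤ j → F j i = F i i := by
    intro j
    induction j with
    | zero =>
      intro i hi
      obtain rfl : i = 0 := by omega
      rfl
    | succ j ih =>
      intro i hi
      by_cases h : i = j + 1
      · rw [h]
      · rw [hF, Function.update_of_ne h]
        exact ih i (by omega)
  have hr : ∀ j, F (j + 1) (j + 1) =
      step (F (Nat.unpair j).1 (Nat.unpair j).1) (F j j) (Nat.unpair j).2 := by
    intro j
    rw [hF, Function.update_self, hF1 j _ (Nat.unpair_left_le j)]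
  have key : ∀ j, ∀ i ≤ j, P (F i i) ∧ R (F i i) (F j j) := by
    intro j
    induction j with
    | zero =>
      intro i hi
      obtain rfl : i = 0 := by omega
      exact ⟨ha₀, hrefl _⟩
    | succ j ih =>
      have h1 := ih _ (Nat.unpair_left_le j)
      have h2 := hstep _ _ (Nat.unpair j).2 h1.1 (ih j le_rfl).1 h1.2
      rw [← hr] at h2
      intro i hi
      by_cases h : i = j + 1
      · rw [h]
        exact ⟨h2.1, hrefl _⟩
      · have h3 := ih i (by omega)
        exact ⟨h3.1, htrans _ _ _ h3.2 h2.2.1⟩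
  refine ⟨fun j => F j j, rfl, fun i => (key i i le_rfl).1, fun i j hij => (key j i hij).2,
    fun i A hA => ?_⟩
  obtain ⟨k, hk⟩ := hf _ A hA
  refine ⟨Nat.pair i k + 1, (Nat.left_le_pair i k).trans (Nat.le_succ _), ?_⟩
  have h1 : (Nat.unpair (Nat.pair i k)).1 = i := by rw [Nat.unpair_pair]
  have h2 : (Nat.unpair (Nat.pair i k)).2 = k := by rw [Nat.unpair_pair]
  have h3 := hstep (F i i) (F (Nat.pair i k) (Nat.pair i k)) k (key i i le_rfl).1
    (key _ _ le_rfl).1 (key _ i (Nat.left_le_pair i k)).2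
  have h4 := hr (Nat.pair i k)
  rw [h1, h2] at h4
  rw [← h4, hk] at h3
  exact h3.2.2 hA

/-- The chain of approximations. -/
private theorem chain_exists [Countable L.Symbols] {δ : Ordinal.{0}} (hδ : δ < ω₁)
    (C : Set (Ap Φ M)) (hC : ∀ r ∈ C, r.β < δ)
    (hext : ∀ r ∈ C, ∀ b, r.ext b ∈ C) (hup : ∀ r ∈ C, ∀ γ, r.β ≤ γ → γ < δ → r.up γ ∈ C)
    (D : ℕ → Set (Ap Φ M)) (hD : ∀ k, ∀ r ∈ C, ∃ s ∈ C, s ∈ D k ∧ r.Le s)
    (r₀ : Ap Φ M) (hr₀ : r₀ ∈ C) :
    ∃ r : ℕ → Ap Φ M, r 0 = r₀ ∧ (∀ i, r i ∈ C) ∧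
      (∀ i j, i ≤ j → (r i).Le (r j)) ∧ (∀ k, ∃ i, r i ∈ D k) ∧ (∀ γ < δ, ∃ i, γ ≤ (r i).β) ∧
      (∀ n, ∃ i, n ≤ (r i).m) ∧
      (∀ q : sol Φ M, ∃ i, ∃ k < (r i).m,
        (((r i).e q : sol Φ (r i).p.N.mod) : (r i).p.N.mod) = (r i).p.v k) ∧
      (∀ i, ∀ b : (r i).p.N.mod, ∀ γ < (r i).β, ∃ j, i ≤ j ∧ ∃ k < (r j).m,
        E Φ γ (insert (b, (r j).p.v k) (pr (r i).m (r i).p.v (r j).p.v))) := by
  classical
  have := chain_countable hδ
  let S : Ap Φ M → Set (Set (Ap Φ M)) := fun r =>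
    Set.range D ∪ Set.range (fun γ : Set.Iio δ => {s : Ap Φ M | γ.1 ≤ s.β}) ∪
      Set.range (fun n : ℕ => {s : Ap Φ M | n ≤ s.m}) ∪
      Set.range (fun q : sol Φ M => {s : Ap Φ M | ∃ k < s.m,
        ((s.e q : sol Φ s.p.N.mod) : s.p.N.mod) = s.p.v k}) ∪
      Set.range (fun x : r.p.N.mod × Set.Iio δ => {s : Ap Φ M | x.2.1 < r.β → ∃ k < s.m,
        E Φ x.2.1 (insert (x.1, s.p.v k) (pr r.m r.p.v s.p.v))})
  have hS : ∀ a, (S a).Countable := by
    intro a
    exact ((((Set.countable_range _).union (Set.countable_range _)).union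
      (Set.countable_range _)).union (Set.countable_range _)).union (Set.countable_range _)
  have hd : ∀ a b : Ap Φ M, a ∈ C → b ∈ C → a.Le b → ∀ A ∈ S a, ∃ c, c ∈ C ∧ b.Le c ∧ c ∈ A := by
    rintro a b ha hb hab A ((((⟨k, rfl⟩ | ⟨γ, rfl⟩) | ⟨n, rfl⟩) | ⟨q, rfl⟩) | ⟨x, rfl⟩)
    · obtain ⟨s, hs, hs1, hs2⟩ := hD k b hb
      exact ⟨s, hs, hs2, hs1⟩
    · exact ⟨b.up (max b.β γ.1), hup b hb _ (le_max_left _ _) (max_lt (hC b hb) γ.2),
        b.le_up (le_max_left _ _), le_max_right b.β γ.1⟩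
    · clear ha hab
      induction n with
      | zero => exact ⟨b, hb, Ap.Le.refl b, Nat.zero_le _⟩
      | succ n ih =>
        obtain ⟨c, hc1, hc2, hc3⟩ := ih
        refine ⟨c.ext (Classical.arbitrary _), hext c hc1 _, hc2.trans (c.le_ext _), ?_⟩
        exact Nat.succ_le_succ hc3
    · refine ⟨b.ext (b.e q), hext b hb _, b.le_ext _, b.m, Nat.lt_succ_self _, ?_⟩
      exact (Function.update_self b.m _ b.p.v).symm
    · by_cases hx : x.2.1 < a.β
      · obtain ⟨b', hb'⟩ := E.forth hab.2.2.1 hx x.1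
        refine ⟨b.ext b', hext b hb _, b.le_ext _, fun _ => ⟨b.m, Nat.lt_succ_self _, ?_⟩⟩
        have h4 : (b.ext b').p.v b.m = b' := Function.update_self b.m _ b.p.v
        have h5 : pr a.m a.p.v (b.ext b').p.v = pr a.m a.p.v b.p.v := by
          apply pr_congr (fun _ _ => rfl)
          intro i hi
          exact Function.update_of_ne (hi.trans_le hab.1).ne _ _
        rw [h4, h5]
        exact hb'
      · exact ⟨b, hb, Ap.Le.refl b, fun h => absurd h hx⟩
  obtain ⟨r, h0, h1, h2, h3⟩ := chain_bookkeeping (α := Ap Φ M) (fun r => r ∈ C) Ap.Le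
    Ap.Le.refl (fun a b c => Ap.Le.trans) S hS hd r₀ hr₀
  refine ⟨r, h0, h1, h2, fun k => ?_, fun γ hγ => ?_, fun n => ?_, fun q => ?_,
    fun i b γ hγ => ?_⟩
  · obtain ⟨j, -, hj⟩ := h3 0 (D k) (Or.inl (Or.inl (Or.inl (Or.inl ⟨k, rfl⟩))))
    exact ⟨j, hj⟩
  · obtain ⟨j, -, hj⟩ := h3 0 _ (Or.inl (Or.inl (Or.inl (Or.inr ⟨⟨γ, hγ⟩, rfl⟩))))
    exact ⟨j, hj⟩
  · obtain ⟨j, -, hj⟩ := h3 0 _ (Or.inl (Or.inl (Or.inr ⟨n, rfl⟩)))
    exact ⟨j, hj⟩
  · obtain ⟨j, -, hj⟩ := h3 0 _ (Or.inl (Or.inr ⟨q, rfl⟩))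
    exact ⟨j, hj⟩
  · obtain ⟨j, hij, hj⟩ := h3 i _ (Or.inr ⟨(b, ⟨γ, hγ.trans (hC _ (h1 i))⟩), rfl⟩)
    exact ⟨j, hij, hj hγ⟩

/-- **Generic models.**  Let `δ` be a countable limit ordinal, `C` a set of approximations of rank
`< δ` closed under adding elements and increasing the rank, and `D k` dense subsets.

Proof.  Build the chain `r j` by recursion.  At step `j` do one task, every task being done at
arbitrarily large steps: (1) get into `D k`; (2) increase the rank to a given `γ < δ` (an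
enumeration of `Set.Iio δ`); (3) for given `i ≤ j`, `b` in the model of `r i` and `γ < (r i).β` (given
through enumerations) `(r i).Le (r j)` and `E.forth` give `b'` in the model of `r j` with
`E Φ γ (insert (b, b') (pr (r i).m (r i).p.v (r j).p.v))`, and the next approximation is
`(r j).ext b'`; (4) for given `q : sol Φ M` the next one is `(r j).ext ((r j).e q)`.
(So that the steps can refer to earlier ones let the state be a function `ℕ → Ap Φ M` of which only
the value at `j + 1` is changed.)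
Let `w.1 φ` be true iff `φ` is realised by `(r j).p.v` for all large `j` (for `j` so large that the
free variables of `φ` are `< (r i).m` for some `i ≤ j` this does not depend on `j`, as `Base` for
`(r i).Le (r j)` gives elementarity) and `w.2 i = some q` iff `(r j).e q = (r j).p.v i` for all large
`j`.  The five conditions of `isCode_iff` hold (the second one by (3) with `γ = 0` once the rank is
positive, the fifth one by (4)), which gives `p` and `e`.  Finally show, by induction on `γ`,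
for all `i` with `γ ≤ (r i).β`: `Eqv γ (r i).m (r i).p p`.  `Base`: the bijection is
`(r i).e.symm.trans e`.  Forth: task (3) for `i`, `b` gives `j ≥ i`, `m' < (r (j+1)).m` such that
`(b, (r (j+1)).p.v m')` can be added to `pr (r i).m (r i).p.v (r (j+1)).p.v` in rank `γ'`, and compose
with the induction hypothesis for `j + 1` and `γ'` restricted to the coordinates `< (r i).m` and
`m'`.  Back: an element of the model of `p` is `p.v m'`; for `j ≥ i` with `m' < (r j).m` use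
`E.back` for `(r i).Le (r j)` and the element `(r j).p.v m'`, and compose. -/
theorem chain [Countable L.Symbols] {δ : Ordinal.{0}} (hδ : δ < ω₁) (hδ0 : 0 < δ)
    (hlim : ∀ β < δ, β + 1 < δ) (C : Set (Ap Φ M)) (hC : ∀ r ∈ C, r.β < δ)
    (hext : ∀ r ∈ C, ∀ b, r.ext b ∈ C) (hup : ∀ r ∈ C, ∀ γ, r.β ≤ γ → γ < δ → r.up γ ∈ C)
    (D : ℕ → Set (Ap Φ M)) (hD : ∀ k, ∀ r ∈ C, ∃ s ∈ C, s ∈ D k ∧ r.Le s)
    (r₀ : Ap Φ M) (hr₀ : r₀ ∈ C) :
    ∃ (p : Pt Φ M) (r : ℕ → Ap Φ M), Function.Surjective p.v ∧ r 0 = r₀ ∧ (∀ i, r i ∈ C) ∧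
      (∀ i j, i ≤ j → (r i).Le (r j)) ∧ (∀ k, ∃ i, r i ∈ D k) ∧ (∀ γ < δ, ∃ i, γ ≤ (r i).β) ∧
      (∀ n, ∃ i, n ≤ (r i).m) ∧ ∀ i, Eqv (r i).β (r i).m (r i).p p := by
  classical
  obtain ⟨r, h0, hrC, hle, hrD, hrβ, hrm, hcov, hforth⟩ :=
    chain_exists hδ C hC hext hup D hD r₀ hr₀
  -- later stages agree on the first coordinates
  have hP : ∀ i j, i ≤ j → PElem L (pr (r i).m (r i).p.v (r j).p.v) := fun i j hij =>
    (hle i j hij).2.2.1.base.1
  have hm : ∀ i j, i ≤ j → (r i).m ≤ (r j).m := fun i j hij => (hle i j hij).1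
  choose K hK using fun φ : L.Formula ℕ => exists_bd φ
  choose J hJ using hrm
  -- the diagram
  let w1 : L.Formula ℕ → Bool := fun φ => decide (φ.Realize (r (J (K φ))).p.v)
  have hw1 : ∀ φ, ∃ j0, ∀ j, j0 ≤ j → (w1 φ = true ↔ φ.Realize (r j).p.v) := by
    intro φ
    refine ⟨J (K φ), fun j hj => ?_⟩
    have h1 := hK φ (r (J (K φ))).m (r (J (K φ))).p.v (r j).p.v (hJ _) (hP _ _ hj)
    rw [← h1]
    simp [w1]
  let w2 : ℕ → Opt Φ M := fun i =>
    if h : ∃ q, (((r (J (i + 1))).e q : sol Φ (r (J (i + 1))).p.N.mod) :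
      (r (J (i + 1))).p.N.mod) = (r (J (i + 1))).p.v i then some h.choose else none
  have hw2' : ∀ i q, w2 i = some q ↔ (((r (J (i + 1))).e q : sol Φ (r (J (i + 1))).p.N.mod) :
      (r (J (i + 1))).p.N.mod) = (r (J (i + 1))).p.v i := by
    intro i q
    by_cases h : ∃ q, (((r (J (i + 1))).e q : sol Φ (r (J (i + 1))).p.N.mod) :
      (r (J (i + 1))).p.N.mod) = (r (J (i + 1))).p.v i
    · have h1 : w2 i = some h.choose := dif_pos h
      rw [h1]
      constructor
      · intro h2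
        rw [← Option.some.inj h2]
        exact h.choose_spec
      · intro h2
        have h3 : (r (J (i + 1))).e h.choose = (r (J (i + 1))).e q :=
          Subtype.ext (h.choose_spec.trans h2.symm)
        rw [(r (J (i + 1))).e.injective h3]
    · have h1 : w2 i = none := dif_neg h
      rw [h1]
      constructor
      · intro h2
        exact absurd h2.symm (Option.some_ne_none q)
      · intro h2
        exact absurd ⟨q, h2⟩ h
  have hw2 : ∀ i j, i < (r j).m → ∀ q, w2 i = some q ↔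
      (((r j).e q : sol Φ (r j).p.N.mod) : (r j).p.N.mod) = (r j).p.v i := by
    intro i j hij q
    rw [hw2']
    have h1 : i < (r (J (i + 1))).m := lt_of_lt_of_le (Nat.lt_succ_self i) (hJ (i + 1))
    rcases le_total (J (i + 1)) j with h | h
    · exact (hle _ _ h).2.2.2 i h1 q
    · exact ((hle _ _ h).2.2.2 i hij q).symm
  have hcode : IsCode Φ M (w1, w2) := by
    rw [isCode_iff]
    refine ⟨fun F => ?_, fun φ hφ => ?_, fun n φ σ q hq => ?_, fun i hi k => ?_, fun q => ?_⟩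
    · choose j0 hj0 using hw1
      refine ⟨(r (F.sup j0)).p.N.mod, (r (F.sup j0)).p.v, fun φ hφ => ?_⟩
      exact hj0 φ _ (Finset.le_sup (f := j0) hφ)
    · obtain ⟨K1, hK1⟩ := exists_bd1 φ
      obtain ⟨j0, hj0⟩ := hw1 φ.ex
      obtain ⟨j1, hj1⟩ := hrβ 1 (by simpa using hlim 0 hδ0)
      let i := max (max j0 j1) (J K1)
      have hi0 : j0 ≤ i := (le_max_left _ _).trans (le_max_left _ _)
      have hi1 : j1 ≤ i := (le_max_right _ _).trans (le_max_left _ _)
      have hi2 : K1 ≤ (r i).m := (hJ K1).trans (hm _ _ (le_max_right _ _))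
      have hβ : 0 < (r i).β := by
        have h1 : (1 : Ordinal) ≤ (r i).β := hj1.trans (hle _ _ hi1).2.1
        exact lt_of_lt_of_le zero_lt_one h1
      have h1 := (hj0 i hi0).1 hφ
      obtain ⟨b, hb⟩ := BoundedFormula.realize_ex.1 h1
      obtain ⟨j, hij, k, hk, hE⟩ := hforth i b 0 hβ
      refine ⟨k, ?_⟩
      obtain ⟨j2, hj2⟩ := hw1 (inst φ k)
      let l := max j j2
      rw [hj2 l (le_max_right _ _), realize_inst]
      have hjl : j ≤ l := le_max_left _ _
      have h2 := (hK1 (r i).m (r i).p.v (r j).p.v hi2).2 b ((r j).p.v k) hE.base.1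
      have h3 : φ.Realize (r i).p.v (fun _ => b) := by
        have h4 : (Fin.snoc default b : Fin 1 → (r i).p.N.mod) = fun _ => b := by
          funext x
          obtain rfl : x = Fin.last 0 := Subsingleton.elim (α := Fin 1) _ _
          exact Fin.snoc_last (α := fun _ => (r i).p.N.mod) _ _
        rw [h4] at hb
        exact hb
      have h5 := h2.1 h3
      refine ((hK1 (r j).m (r j).p.v (r l).p.v (hi2.trans (hm _ _ hij))).2 ((r j).p.v k)
        ((r l).p.v k) ((hP j l hjl).mono ?_)).1 h5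
      rintro x (rfl | hx)
      · exact ⟨k, hk, rfl⟩
      · exact hx
    · obtain ⟨j0, hj0⟩ := hw1 (φ.relabel σ)
      let N0 : ℕ := Finset.univ.sup σ + 1
      let j := max j0 (J N0)
      rw [hj0 j (le_max_left _ _), Formula.realize_relabel]
      have h1 : ∀ i, (((r j).e (q i) : sol Φ (r j).p.N.mod) : (r j).p.N.mod) =
          (r j).p.v (σ i) := by
        intro i
        refine (hw2 (σ i) j ?_ (q i)).1 (hq i)
        have h2 : σ i < N0 := Nat.lt_succ_of_le (Finset.le_sup (f := σ) (Finset.mem_univ i))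
        exact h2.trans_le ((hJ N0).trans (hm _ _ (le_max_right _ _)))
      have h3 := (r j).he (φ.relabel q)
      rw [Formula.realize_relabel, Formula.realize_relabel] at h3
      have h4 : (fun x : sol Φ M => (((r j).e x : sol Φ (r j).p.N.mod) : (r j).p.N.mod)) ∘ q =
          (r j).p.v ∘ σ := by
        funext i
        exact h1 i
      rw [h4] at h3
      exact h3.symm
    · by_contra hcon
      push Not at hcon
      have hi1 : i < (r (J (i + 1))).m := lt_of_lt_of_le (Nat.lt_succ_self i) (hJ (i + 1))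
      have h1 : (r (J (i + 1))).p.v i ∈ sol Φ (r (J (i + 1))).p.N.mod := by
        refine ⟨k, fun φ hφ => ?_⟩
        have h2 := hcon φ hφ
        have h3 : w1 (φ.relabel fun _ => i) = true := by simpa using h2
        obtain ⟨j0, hj0⟩ := hw1 (φ.relabel fun _ => i)
        let j := max j0 (J (i + 1))
        have h4 := (hj0 j (le_max_left _ _)).1 h3
        rw [Formula.realize_relabel] at h4
        exact (hP (J (i + 1)) j (le_max_right _ _) 1 φ
          (fun _ => ((r (J (i + 1))).p.v i, (r j).p.v i)) (fun _ => ⟨i, hi1, rfl⟩)).2 h4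
      have h2 := (hw2 i (J (i + 1)) hi1 ((r (J (i + 1))).e.symm ⟨_, h1⟩)).2
        (by rw [Equiv.apply_symm_apply])
      change w2 i = none at hi
      rw [hi] at h2
      exact Option.some_ne_none _ h2.symm
    · obtain ⟨i, k, hk, hq⟩ := hcov q
      exact ⟨k, (hw2 k i hk q).2 hq⟩
  obtain ⟨N, e, x, hcod⟩ := hcode
  obtain ⟨he, hx, hx1, hx2⟩ := hcod
  have main : ∀ γ : Ordinal.{0}, ∀ i, γ ≤ (r i).β → E Φ γ (pr (r i).m (r i).p.v x) := by
    intro γ
    induction γ using WellFoundedLT.induction with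
    | _ γ ih =>
      intro i hγ
      rw [E_iff]
      refine ⟨⟨fun n φ u hu => ?_, (r i).e.symm.trans e, (r i).he.symm.trans he, ?_⟩,
        fun β hβ => ⟨fun b => ?_, fun b' => ?_⟩⟩
      · choose σ hσ hu using hu
        obtain ⟨j0, hj0⟩ := hw1 (φ.relabel σ)
        let j := max j0 i
        have h1 := hP i j (le_max_right _ _) n φ (fun k => ((r i).p.v (σ k), (r j).p.v (σ k)))
          (fun k => ⟨σ k, hσ k, rfl⟩)
        have h2 := (hj0 j (le_max_left _ _)).symm.trans (hx1 (φ.relabel σ))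
        rw [Formula.realize_relabel, Formula.realize_relabel] at h2
        have h3 : (fun k => (u k).1) = fun k => (r i).p.v (σ k) := by
          funext k
          rw [hu k]
        have h4 : (fun k => (u k).2) = x ∘ σ := by
          funext k
          rw [hu k]
          rfl
        rw [h3, h4]
        exact h1.trans h2
      · rintro _ ⟨k, hk, rfl⟩ h
        have h1 := (hw2 k i hk ((r i).e.symm ⟨(r i).p.v k, h⟩)).2
          (by rw [Equiv.apply_symm_apply])
        exact (hx2 k _).1 h1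
      · obtain ⟨j, hij, k, hk, hE⟩ := hforth i b β (hβ.trans_le hγ)
        have h1 := ih β hβ j ((hβ.le.trans hγ).trans (hle i j hij).2.1)
        refine ⟨x k, E.comp hE h1 ?_⟩
        rintro _ (rfl | ⟨l, hl, rfl⟩)
        · exact ⟨(r j).p.v k, Set.mem_insert _ _, k, hk, rfl⟩
        · exact ⟨(r j).p.v l, Set.mem_insert_of_mem _ ⟨l, hl, rfl⟩, l,
            hl.trans_le (hm i j hij), rfl⟩
      · obtain ⟨k, rfl⟩ := hx b'
        let j := max i (J (k + 1))
        have hij : i ≤ j := le_max_left _ _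
        have hk : k < (r j).m := lt_of_lt_of_le (Nat.lt_succ_self k)
          ((hJ (k + 1)).trans (hm _ _ (le_max_right _ _)))
        obtain ⟨b, hb⟩ := E.back (hle i j hij).2.2.1 (hβ.trans_le hγ) ((r j).p.v k)
        have h1 := ih β hβ j ((hβ.le.trans hγ).trans (hle i j hij).2.1)
        refine ⟨b, E.comp hb h1 ?_⟩
        rintro _ (rfl | ⟨l, hl, rfl⟩)
        · exact ⟨(r j).p.v k, Set.mem_insert _ _, k, hk, rfl⟩
        · exact ⟨(r j).p.v l, Set.mem_insert_of_mem _ ⟨l, hl, rfl⟩, l,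
            hl.trans_le (hm i j hij), rfl⟩
  exact ⟨⟨⟨N, e, he⟩, x⟩, r, hx, h0, hrC, hle, hrD, hrβ, fun n => ⟨J n, hJ n⟩,
    fun i => main _ i le_rfl⟩

end Pool.Agent.Helper22.PT
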