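import Pool.Agent.Helper22.PT.Model

/-!
# Codes of enumerated models in `K_Q`

A code is a pair consisting of the diagram of a model `N` in `K_Q` enumerated by `x` and of the
sequence of the elements of `Q = Φ(M)` corresponding to the `x i` (`none` if `x i ∉ Φ(N)`), for
some elementary bijection `e : Φ(M) → Φ(N)`.
-/

namespace Pool.Agent.Helper22.PT

open FirstOrder Language Cardinal Ordinal Pool.Agent.Helper85.VC

variable {L : FirstOrder.Language.{0, 0}} {T : L.Theory}

/-- `Q` with a point added -/
def Opt (Φ : ℕ → Set (L.Formula (Fin 1))) (M : CModel T) : Type := Option (sol Φ M)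

/-- `w` is the code of the model `N` with the enumeration `x` and the bijection `e`. -/
def Codes {Φ : ℕ → Set (L.Formula (Fin 1))} {M : CModel T} (N : CModel T)
    (e : sol Φ M ≃ sol Φ N) (x : ℕ → N) (w : (L.Formula ℕ → Bool) × (ℕ → Opt Φ M)) : Prop :=
  Elem L e ∧ Function.Surjective x ∧ (∀ φ, w.1 φ = true ↔ φ.Realize x) ∧
    ∀ i, ∀ q, w.2 i = some q ↔ ((e q : sol Φ N) : N) = x i

/-- `w` is a code. -/
def IsCode (Φ : ℕ → Set (L.Formula (Fin 1))) (M : CModel T)
    (w : (L.Formula ℕ → Bool) × (ℕ → Opt Φ M)) : Prop :=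
  ∃ (N : CModel T) (e : sol Φ M ≃ sol Φ N) (x : ℕ → N), Codes N e x w

/-- A formula is a relabelling of a formula in finitely many variables. -/
private theorem exists_fin {α : Type} (φ : L.Formula α) :
    ∃ (n : ℕ) (ψ : L.Formula (Fin n)) (r : Fin n → α),
      ∀ (N : Type) [L.Structure N] (v : α → N), φ.Realize v ↔ ψ.Realize fun i => v (r i) := by
  classical
  let g := Fintype.equivFin φ.freeVarFinset
  refine ⟨_, (φ.restrictFreeVar id).toFormula.relabel
    (Sum.elim g Fin.elim0), fun i => ((g.symm i : φ.freeVarFinset) : α), fun N _ v => ?_⟩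
  rw [Formula.realize_relabel, BoundedFormula.realize_toFormula,
    BoundedFormula.realize_restrictFreeVar v (by intro a; simp)]
  have h1 : (((fun i => v ((g.symm i : φ.freeVarFinset) : α)) ∘ Sum.elim g Fin.elim0) ∘
      Sum.inr : Fin 0 → N) = default := Subsingleton.elim _ _
  rw [h1]
  rfl

private theorem elem_of_fin {N N' : Type} [L.Structure N] [L.Structure N'] {X : Set N}
    {Y : Set N'} (e : X ≃ Y)
    (h : ∀ (n : ℕ) (ψ : L.Formula (Fin n)) (r : Fin n → X),
      ψ.Realize (fun i => (r i : N)) ↔ ψ.Realize (fun i => ((e (r i) : Y) : N'))) :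
    Elem L e := by
  intro φ
  obtain ⟨n, ψ, r, hψ⟩ := exists_fin φ
  rw [hψ, hψ]
  exact h n ψ r

/-- Proof of the direction from right to left.  `exists_model` gives `N` and a surjective `x` with
`w.1 φ = true ↔ φ.Realize x`.  The map `e` sends `q` to `x i` for any `i` with `w.2 i = some q`
(fifth condition); by the third condition it does not depend on `i`, is injective and elementary
(restrict a formula with variables in `sol Φ M` to its finitely many free variables), and `x i`
is in `sol Φ N` as `q` is in `sol Φ M`.  It is surjective: if `x i ∈ sol Φ N` then `w.2 i ≠ none`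
by the fourth condition. -/
theorem isCode_iff (Φ : ℕ → Set (L.Formula (Fin 1))) (M : CModel T)
    (w : (L.Formula ℕ → Bool) × (ℕ → Opt Φ M)) :
    IsCode Φ M w ↔
      (∀ F : Finset (L.Formula ℕ), ∃ (N : CModel T) (v : ℕ → N),
        ∀ φ ∈ F, (w.1 φ = true ↔ φ.Realize v)) ∧
      (∀ φ : L.BoundedFormula ℕ 1, w.1 φ.ex = true → ∃ m, w.1 (inst φ m) = true) ∧
      (∀ (n : ℕ) (φ : L.Formula (Fin n)) (σ : Fin n → ℕ) (q : Fin n → sol Φ M),
        (∀ i, w.2 (σ i) = some (q i)) →
          (w.1 (φ.relabel σ) = true ↔ φ.Realize (fun i => (q i : M)))) ∧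
      (∀ i, w.2 i = none → ∀ j, ∃ φ ∈ Φ j, w.1 (φ.relabel fun _ => i) = false) ∧
      (∀ q : sol Φ M, ∃ i, w.2 i = some q) := by
  constructor
  · rintro ⟨N, e, x, he, hx, hD, hw⟩
    refine ⟨fun F => ⟨N, x, fun φ _ => hD φ⟩, fun φ hφ => ?_, fun n φ σ q hq => ?_,
      fun i hi j => ?_, fun q => ?_⟩
    · rw [hD] at hφ
      have h1 : ∃ a : N, φ.Realize x (Fin.snoc default a) := BoundedFormula.realize_ex.1 hφ
      obtain ⟨a, ha⟩ := h1
      obtain ⟨m, rfl⟩ := hx a
      refine ⟨m, ?_⟩
      rw [hD, realize_inst]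
      have h2 : (Fin.snoc (default : Fin 0 → N) (x m) : Fin 1 → N) = fun _ => x m := by
        funext i
        have h3 : i = Fin.last 0 := by
          apply Fin.ext
          have := i.2
          simp only [Fin.val_last]
          omega
        rw [h3]
        exact Fin.snoc_last _ _
      rw [h2] at ha
      exact ha
    · rw [hD, Formula.realize_relabel]
      have h1 : x ∘ σ = fun i => ((e (q i) : sol Φ N) : N) := by
        funext i
        exact ((hw (σ i) (q i)).1 (hq i)).symm
      rw [h1]
      have h2 := he (φ.relabel q)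
      rw [Formula.realize_relabel, Formula.realize_relabel] at h2
      exact h2.symm
    · have h1 : x i ∉ sol Φ N := by
        intro hm
        have h2 : w.2 i = some (e.symm ⟨x i, hm⟩) := by
          rw [hw, Equiv.apply_symm_apply]
        rw [hi] at h2
        cases h2
      simp only [sol, Set.mem_ofPred_eq, not_exists, not_forall] at h1
      obtain ⟨φ, hφ, h2⟩ := h1 j
      refine ⟨φ, hφ, ?_⟩
      rw [Bool.eq_false_iff]
      intro h3
      have h4 := (hD _).1 h3
      rw [Formula.realize_relabel] at h4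
      exact h2 h4
    · obtain ⟨i, hi⟩ := hx (e q)
      exact ⟨i, (hw i q).2 hi.symm⟩
  · rintro ⟨h1, h2, h3, h4, h5⟩
    obtain ⟨N, x, hx, hD⟩ := exists_model T (fun φ => w.1 φ = true) h1 h2
    choose c hc using h5
    have hD' : ∀ φ, w.1 φ = true ↔ φ.Realize x := hD
    -- formulas
    have key : ∀ (n : ℕ) (φ : L.Formula (Fin n)) (σ : Fin n → ℕ) (q : Fin n → sol Φ M),
        (∀ i, w.2 (σ i) = some (q i)) →
          (φ.Realize (fun i => x (σ i)) ↔ φ.Realize (fun i => (q i : M))) := by
      intro n φ σ q hq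
      rw [← h3 n φ σ q hq, hD', Formula.realize_relabel]
      rfl
    have heq : ∀ i j q q', w.2 i = some q → w.2 j = some q' →
        (x i = x j ↔ (q : M) = q') := by
      intro i j q q' hi hj
      have h6 := key 2 (Term.equal (Term.var 0) (Term.var 1)) ![i, j] ![q, q'] (by
        intro k
        fin_cases k
        · exact hi
        · exact hj)
      rw [Formula.realize_equal, Formula.realize_equal] at h6
      exact h6
    have hmem : ∀ i q, w.2 i = some q → x i ∈ sol Φ N := by
      intro i q hi
      obtain ⟨j, hj⟩ := q.2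
      refine ⟨j, fun φ hφ => ?_⟩
      exact (key 1 φ (fun _ => i) (fun _ => q) (fun _ => hi)).2 (hj φ hφ)
    have hsome : ∀ i, x i ∈ sol Φ N → ∃ q, w.2 i = some q := by
      intro i hi
      by_contra hcon
      have h6 : w.2 i = none := by
        cases h7 : w.2 i with
        | none => rfl
        | some q => exact absurd ⟨q, h7⟩ hcon
      obtain ⟨j, hj⟩ := hi
      obtain ⟨φ, hφ, h8⟩ := h4 i h6 j
      have h9 : w.1 (φ.relabel fun _ => i) = true := by
        rw [hD', Formula.realize_relabel]
        exact hj φ hφ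
      rw [h8] at h9
      cases h9
    let f : sol Φ M → sol Φ N := fun q => ⟨x (c q), hmem _ _ (hc q)⟩
    have hf : Function.Bijective f := by
      constructor
      · intro q q' hq
        have h6 : x (c q) = x (c q') := congrArg Subtype.val hq
        exact Subtype.ext ((heq _ _ _ _ (hc q) (hc q')).1 h6)
      · rintro ⟨y, hy⟩
        obtain ⟨k, rfl⟩ := hx y
        obtain ⟨q, hq⟩ := hsome k hy
        refine ⟨q, Subtype.ext ?_⟩
        exact (heq _ _ _ _ (hc q) hq).2 rfl
    refine ⟨N, Equiv.ofBijective f hf, x, ?_, hx, hD', fun i q => ⟨fun hi => ?_, fun hi => ?_⟩⟩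
    · apply elem_of_fin
      intro n ψ r
      exact (key n ψ (fun i => c (r i)) r (fun i => hc (r i))).symm
    · exact (heq _ _ _ _ (hc q) hi).2 rfl
    · have h6 : x (c q) = x i := hi
      obtain ⟨q', hq'⟩ := hsome i (h6 ▸ hmem _ _ (hc q))
      have h7 := (heq _ _ _ _ (hc q) hq').1 h6
      rw [hq', Subtype.ext h7]

end Pool.Agent.Helper22.PT
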