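import Pool.Agent.Helper22.PT.Meas

/-!
# Measurability of the back-and-forth relations
-/

namespace Pool.Agent.Helper22.PT

open FirstOrder Language Cardinal Ordinal Pool.Agent.Helper85.VC

variable {L : FirstOrder.Language.{0, 0}} {T : L.Theory} {Φ : ℕ → Set (L.Formula (Fin 1))}
  {M : CModel T}

private theorem MeasB_countable {α : Ordinal.{0}} (hα : α < ω₁) : Countable (Set.Iio α) := by
  rw [← Cardinal.mk_le_aleph0_iff, Cardinal.mk_Iio_ordinal, ← Cardinal.lift_aleph0.{1, 0},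
    Cardinal.lift_le]
  have h : α.card < ℵ₁ := by
    rwa [← Cardinal.lt_ord, Cardinal.ord_aleph]
  rw [← Cardinal.succ_aleph0] at h
  exact Order.lt_succ_iff.1 h

private theorem MeasB_fst (φ : L.Formula ℕ) : Measurable fun w : Cd Φ M => w.1.1 φ :=
  (measurable_pi_apply φ).comp (measurable_fst.comp measurable_subtype_coe)

private theorem MeasB_snd (i : ℕ) : Measurable fun w : Cd Φ M => w.1.2 i :=
  (measurable_pi_apply i).comp (measurable_snd.comp measurable_subtype_coe)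

/-- The elementarity of the finite map, in terms of the code. -/
private theorem MeasB_pelem_iff (m : ℕ) (σ : ℕ → ℕ) (p : Pt Φ M) (w : Cd Φ M) :
    PElem L (pr m (w.x ∘ σ) p.v) ↔ ∀ (n : ℕ) (φ : L.Formula (Fin n)) (τ : Fin n → Fin m),
      (w.1.1 (φ.relabel fun i => σ (τ i)) = true ↔ φ.Realize fun i => p.v (τ i)) := by
  have h0 : ∀ (n : ℕ) (φ : L.Formula (Fin n)) (τ : Fin n → Fin m),
      (w.1.1 (φ.relabel fun i => σ (τ i)) = true ↔ φ.Realize fun i => w.x (σ (τ i))) := by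
    intro n φ τ
    rw [w.spec.2.2.1, Formula.realize_relabel]
    rfl
  constructor
  · intro h n φ τ
    rw [h0]
    exact h n φ (fun i => (w.x (σ (τ i)), p.v (τ i))) fun i => ⟨τ i, (τ i).2, rfl⟩
  · intro h n φ u hu
    choose t ht hu' using hu
    have h1 := (h0 n φ fun i => ⟨t i, ht i⟩).symm.trans (h n φ fun i => ⟨t i, ht i⟩)
    have h2 : (fun i => (u i).1) = fun i => w.x (σ (t i)) := by
      funext i
      rw [hu' i]
      rfl
    have h3 : (fun i => (u i).2) = fun i => p.v (t i) := by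
      funext i
      rw [hu' i]
    rw [h2, h3]
    exact h1

private theorem MeasB_pelem [Countable L.Symbols] (m : ℕ) (σ : ℕ → ℕ) (p : Pt Φ M) :
    MeasurableSet {w : Cd Φ M | PElem L (pr m (w.x ∘ σ) p.v)} := by
  simp only [MeasB_pelem_iff, Set.ofPred_forall]
  refine MeasurableSet.iInter fun n => MeasurableSet.iInter fun φ => MeasurableSet.iInter fun τ => ?_
  exact (MeasB_fst _) (MeasurableSet.of_discrete (s := {b : Bool | b = true ↔ φ.Realize fun i => p.v (τ i)}))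

/-- The second half of `Base`, in terms of the code. -/
private theorem MeasB_ext_iff (m : ℕ) (σ : ℕ → ℕ) (p : Pt Φ M) (w : Cd Φ M) :
    (∃ g : sol Φ w.N ≃ sol Φ p.N.mod, Elem L g ∧
      ∀ r ∈ pr m (w.x ∘ σ) p.v, ∀ h : r.1 ∈ sol Φ w.N,
        ((g ⟨r.1, h⟩ : sol Φ p.N.mod) : p.N.mod) = r.2) ↔
    ∃ g : sol Φ M ≃ sol Φ p.N.mod, Elem L g ∧ ∀ i : Fin m, ∀ q, w.1.2 (σ i) = some q →
      ((g q : sol Φ p.N.mod) : p.N.mod) = p.v i := by
  constructor
  · rintro ⟨g, hg, h⟩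
    refine ⟨w.e.trans g, w.spec.1.trans hg, fun i q hq => ?_⟩
    have h1 := (w.spec.2.2.2 (σ i) q).1 hq
    have h2 : w.x (σ i) ∈ sol Φ w.N := h1 ▸ (w.e q).2
    have h3 := h _ ⟨i, i.2, rfl⟩ h2
    have h4 : w.e q = ⟨w.x (σ i), h2⟩ := Subtype.ext h1
    rw [Equiv.trans_apply, h4]
    exact h3
  · rintro ⟨g, hg, h⟩
    refine ⟨w.e.symm.trans g, w.spec.1.symm.trans hg, ?_⟩
    rintro _ ⟨i, hi, rfl⟩ h1
    rw [Equiv.trans_apply]
    refine h ⟨i, hi⟩ _ ((w.spec.2.2.2 (σ i) _).2 ?_)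
    rw [Equiv.apply_symm_apply]
    rfl

private theorem MeasB_ext (m : ℕ) (σ : ℕ → ℕ) (p : Pt Φ M) :
    MeasurableSet {w : Cd Φ M | ∃ g : sol Φ w.N ≃ sol Φ p.N.mod, Elem L g ∧
      ∀ r ∈ pr m (w.x ∘ σ) p.v, ∀ h : r.1 ∈ sol Φ w.N,
        ((g ⟨r.1, h⟩ : sol Φ p.N.mod) : p.N.mod) = r.2} := by
  simp only [MeasB_ext_iff]
  have h1 : Measurable fun w : Cd Φ M => fun i : Fin m => w.1.2 (σ i) :=
    measurable_pi_lambda _ fun i => MeasB_snd (σ i)
  exact h1 (MeasurableSet.of_discrete (s := {t : Fin m → Opt Φ M |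
    ∃ g : sol Φ M ≃ sol Φ p.N.mod, Elem L g ∧ ∀ i : Fin m, ∀ q, t i = some q →
      ((g q : sol Φ p.N.mod) : p.N.mod) = p.v i}))

private theorem MeasB_base [Countable L.Symbols] (m : ℕ) (σ : ℕ → ℕ) (p : Pt Φ M) :
    MeasurableSet {w : Cd Φ M | Base Φ (pr m (w.x ∘ σ) p.v)} :=
  (MeasB_pelem m σ p).inter (MeasB_ext m σ p)

/-- One step of the back-and-forth relation, in terms of the enumeration. -/
private theorem MeasB_iff (α : Ordinal.{0}) (m : ℕ) (σ : ℕ → ℕ) (p : Pt Φ M) (w : Cd Φ M) :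
    E Φ α (pr m (w.x ∘ σ) p.v) ↔ Base Φ (pr m (w.x ∘ σ) p.v) ∧ ∀ β : Set.Iio α,
      (∀ i, ∃ b', E Φ β (pr (m + 1) (w.x ∘ Function.update σ m i) (Function.update p.v m b'))) ∧
      (∀ b', ∃ i, E Φ β
        (pr (m + 1) (w.x ∘ Function.update σ m i) (Function.update p.v m b'))) := by
  have h : ∀ (i : ℕ) (b' : p.N.mod), pr (m + 1) (w.x ∘ Function.update σ m i)
      (Function.update p.v m b') = insert (w.x i, b') (pr m (w.x ∘ σ) p.v) := by
    intro i b'
    rw [Function.comp_update, pr_update]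
  rw [E_iff]
  refine and_congr_right fun _ => ⟨fun H β => ⟨fun i => ?_, fun b' => ?_⟩,
    fun H β hβ => ⟨fun b => ?_, fun b' => ?_⟩⟩
  · obtain ⟨b', hb⟩ := (H β β.2).1 (w.x i)
    exact ⟨b', by rwa [h]⟩
  · obtain ⟨b, hb⟩ := (H β β.2).2 b'
    obtain ⟨i, rfl⟩ := w.spec.2.1 b
    exact ⟨i, by rwa [h]⟩
  · obtain ⟨i, rfl⟩ := w.spec.2.1 b
    obtain ⟨b', hb⟩ := (H ⟨β, hβ⟩).1 i
    exact ⟨b', by rwa [h] at hb⟩
  · obtain ⟨i, hb⟩ := (H ⟨β, hβ⟩).2 b'
    exact ⟨w.x i, by rwa [h] at hb⟩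

/-- By induction on `α` for all `m`, `σ`, `p`.  `Base Φ (pr m (w.x ∘ σ) p.v)` holds iff
`w.1.1 (φ.relabel (σ ∘ τ)) = true ↔ φ.Realize (p.v ∘ τ)` for all formulas `φ : L.Formula (Fin n)`
and `τ : Fin n → ℕ` with values `< m`, and there is an elementary bijection
`e' : sol Φ M ≃ sol Φ p.N.mod` with `w.1.2 (σ i) = some q ↔ e' q = p.v i` for all `i < m` and all
`q` (given such an `e'` take `w.e.symm.trans e'`; given `g` take `w.e.trans g`); the last condition
depends only on the coordinates `σ i`, `i < m`, of `w.1.2`.  For the back-and-forth part: as `w.x`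
is surjective and `p.N.mod` and `Set.Iio α` are countable it is a countable intersection of
countable unions (and conversely) of sets `E Φ β (pr (m + 1) (w.x ∘ update σ m i) (update p.v m b'))`
(see `pr_update`, `pr_congr`). -/
theorem measurableSet_E [Countable L.Symbols] {α : Ordinal.{0}} (hα : α < ω₁) (m : ℕ)
    (σ : ℕ → ℕ) (p : Pt Φ M) :
    MeasurableSet {w : Cd Φ M | E Φ α (pr m (w.x ∘ σ) p.v)} := by
  induction α using WellFoundedLT.induction generalizing m σ p with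
  | _ α ih =>
    have := MeasB_countable hα
    simp only [MeasB_iff, Set.ofPred_and, Set.ofPred_forall, Set.ofPred_exists]
    refine (MeasB_base m σ p).inter (MeasurableSet.iInter fun β => MeasurableSet.inter
      (MeasurableSet.iInter fun i => MeasurableSet.iUnion fun b' => ?_)
      (MeasurableSet.iInter fun b' => MeasurableSet.iUnion fun i => ?_))
    · exact ih β β.2 (β.2.trans hα) (m + 1) (Function.update σ m i)
        ⟨p.N, Function.update p.v m b'⟩
    · exact ih β β.2 (β.2.trans hα) (m + 1) (Function.update σ m i)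
        ⟨p.N, Function.update p.v m b'⟩

end Pool.Agent.Helper22.PT
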