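import Mathlib

/-!
# A perfect set theorem for measurable images

Proof.  By `Measurable.exists_continuous` and the upgrade of a standard Borel space to a Polish
space we may assume that `X` is Polish and `f` continuous.  An open set `O` is large if `f '' O`
is uncountable.  Every large open set contains two small large open sets with closures in `O`
and with disjoint images; iterate.
-/

namespace Pool.Agent.Helper22.PT

open Set CantorScheme PiNat

/-- a large open set splits -/
private theorem Perf_split {X : Type} {Y : Type 1} [MetricSpace X] [SecondCountableTopology X]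
    [TopologicalSpace Y] [T2Space Y] (f : X → Y) (hf : Continuous f) {O : Set X} (hO : IsOpen O)
    (hb : ¬ (f '' O).Countable) (ε : ℝ) (hε : 0 < ε) :
    ∃ P : Bool → Set X, (∀ b, IsOpen (P b)) ∧ (∀ b, ¬ (f '' (P b)).Countable) ∧
      (∀ b, closure (P b) ⊆ O) ∧ (∀ b, Metric.ediam (P b) ≤ ENNReal.ofReal ε) ∧
      (∀ a b, a ≠ b → Disjoint (f '' (P a)) (f '' (P b))) := by
  classical
  set B := TopologicalSpace.countableBasis X with hB
  set U : Set X := ⋃ W ∈ {W ∈ B | (f '' (W ∩ O)).Countable}, (W ∩ O) with hU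
  have hUc : (f '' U).Countable := by
    rw [hU, image_iUnion₂]
    refine Countable.biUnion ((TopologicalSpace.countable_countableBasis X).mono
      (fun W hW => hW.1)) (fun W hW => hW.2)
  have hcond : ∀ x ∈ O \ U, ∀ N : Set X, IsOpen N → x ∈ N → N ⊆ O → ¬ (f '' N).Countable := by
    intro x hx N hN hxN hNO hc
    obtain ⟨W, hWB, hxW, hWN⟩ :=
      (TopologicalSpace.isBasis_countableBasis X).exists_subset_of_mem_open hxN hN
    apply hx.2
    rw [hU]
    refine mem_biUnion (x := W) ⟨hWB, ?_⟩ ⟨hxW, hx.1⟩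
    exact hc.mono (image_mono (inter_subset_left.trans hWN))
  have hun : ¬ (f '' (O \ U)).Countable := by
    intro hc
    apply hb
    refine (hc.union hUc).mono ?_
    rintro _ ⟨x, hx, rfl⟩
    by_cases hxU : x ∈ U
    · exact Or.inr ⟨x, hxU, rfl⟩
    · exact Or.inl ⟨x, ⟨hx, hxU⟩, rfl⟩
  have hnt : (f '' (O \ U)).Nontrivial := by
    by_contra hn
    rw [not_nontrivial_iff] at hn
    exact hun hn.finite.countable
  obtain ⟨_, ⟨x, hx, rfl⟩, _, ⟨y, hy, rfl⟩, hxy⟩ := hnt
  obtain ⟨Vx, Vy, hVx, hVy, hxV, hyV, hV⟩ := t2_separation hxy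
  have key : ∀ z ∈ O \ U, ∀ V : Set Y, IsOpen V → f z ∈ V → ∃ Q : Set X, IsOpen Q ∧
      ¬ (f '' Q).Countable ∧ closure Q ⊆ O ∧ Metric.ediam Q ≤ ENNReal.ofReal ε ∧ f '' Q ⊆ V := by
    intro z hz V hVo hzV
    have hop : IsOpen (O ∩ f ⁻¹' V) := hO.inter (hVo.preimage hf)
    obtain ⟨r, hr, hrs⟩ := Metric.isOpen_iff.1 hop z ⟨hz.1, hzV⟩
    set s := min (r / 2) (ε / 2) with hs
    have hs0 : 0 < s := lt_min (by linarith) (by linarith)
    have hsub : Metric.closedBall z s ⊆ O ∩ f ⁻¹' V := by
      refine (Metric.closedBall_subset_ball ?_).trans hrs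
      calc s ≤ r / 2 := min_le_left _ _
        _ < r := by linarith
    refine ⟨Metric.ball z s, Metric.isOpen_ball, ?_, ?_, ?_, ?_⟩
    · exact hcond z hz _ Metric.isOpen_ball (Metric.mem_ball_self hs0)
        ((Metric.ball_subset_closedBall.trans hsub).trans inter_subset_left)
    · exact (Metric.closure_ball_subset_closedBall.trans hsub).trans inter_subset_left
    · rw [← Metric.eball_ofReal]
      refine Metric.ediam_eball_le.trans ?_
      have h2 : (2 : ENNReal) = ENNReal.ofReal 2 := by simp
      rw [h2, ← ENNReal.ofReal_mul (by norm_num)]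
      apply ENNReal.ofReal_le_ofReal
      have : s ≤ ε / 2 := min_le_right _ _
      linarith
    · rintro _ ⟨w, hw, rfl⟩
      exact (hsub (Metric.ball_subset_closedBall hw)).2
  obtain ⟨P, hP1, hP2, hP3, hP4, hP5⟩ := key x hx Vx hVx hxV
  obtain ⟨Q, hQ1, hQ2, hQ3, hQ4, hQ5⟩ := key y hy Vy hVy hyV
  refine ⟨fun b => if b then P else Q, ?_, ?_, ?_, ?_, ?_⟩
  · intro b; cases b <;> simp [hP1, hQ1]
  · intro b; cases b
    · simpa using hQ2
    · simpa using hP2
  · intro b; cases b
    · simpa using hQ3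
    · simpa using hP3
  · intro b; cases b
    · simpa using hQ4
    · simpa using hP4
  · intro a b hab
    cases a <;> cases b
    · exact absurd rfl hab
    · simpa using (hV.symm.mono hQ5 hP5)
    · simpa using (hV.mono hP5 hQ5)
    · exact absurd rfl hab

/-- the theorem for a continuous map on a complete separable metric space -/
private theorem Perf_cont {X : Type} {Y : Type 1} [MetricSpace X] [CompleteSpace X]
    [SecondCountableTopology X]
    [TopologicalSpace Y] [T2Space Y] (f : X → Y) (hf : Continuous f)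
    (h : ¬ (Set.range f).Countable) :
    ∃ j : (ℕ → Bool) → X, Function.Injective (f ∘ j) := by
  classical
  let S := {O : Set X // IsOpen O ∧ ¬ (f '' O).Countable}
  have hsp : ∀ (O : S) (n : ℕ), ∃ P : Bool → Set X, (∀ b, IsOpen (P b)) ∧
      (∀ b, ¬ (f '' (P b)).Countable) ∧
      (∀ b, closure (P b) ⊆ O.1) ∧
      (∀ b, Metric.ediam (P b) ≤ ENNReal.ofReal (1 / ((n : ℝ) + 1))) ∧
      (∀ a b, a ≠ b → Disjoint (f '' (P a)) (f '' (P b))) := fun O n =>
    Perf_split f hf O.2.1 O.2.2 _ (by positivity)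
  choose P hP1 hP2 hP3 hP4 hP5 using hsp
  let D : List Bool → S := fun l => by
    induction l with
    | nil => exact ⟨univ, isOpen_univ, by rwa [image_univ]⟩
    | cons a l ih => exact ⟨P ih l.length a, hP1 _ _ _, hP2 _ _ _⟩
  have hDc : ∀ (a : Bool) (l : List Bool), (D (a :: l)).1 = P (D l) l.length a := fun a l => rfl
  let A : List Bool → Set X := fun l => (D l).1
  have hanti : ClosureAntitone A := by
    intro l a
    change closure (D (a :: l)).1 ⊆ (D l).1
    rw [hDc]
    exact hP3 _ _ _
  have hne : ∀ l, (A l).Nonempty := by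
    intro l
    by_contra hn
    rw [not_nonempty_iff_eq_empty] at hn
    apply (D l).2.2
    change (f '' (A l)).Countable
    rw [hn]
    simp
  have hdiam : VanishingDiam A := by
    intro x
    rw [ENNReal.tendsto_atTop_zero]
    intro ε hε
    by_cases hεt : ε = ⊤
    · exact ⟨0, fun n _ => by rw [hεt]; exact le_top⟩
    obtain ⟨N, hN⟩ := exists_nat_one_div_lt (ENNReal.toReal_pos hε.ne' hεt)
    refine ⟨N + 1, fun n hn => ?_⟩
    obtain ⟨m, rfl⟩ : ∃ m, n = m + 1 := ⟨n - 1, by omega⟩
    rw [res_succ]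
    change Metric.ediam (D (x m :: res x m)).1 ≤ ε
    rw [hDc]
    refine (hP4 _ _ _).trans ?_
    rw [res_length, ← ENNReal.ofReal_toReal hεt]
    apply ENNReal.ofReal_le_ofReal
    refine le_trans ?_ hN.le
    apply one_div_le_one_div_of_le (by positivity)
    have : (N : ℝ) ≤ m := by exact_mod_cast (by omega : N ≤ m)
    linarith
  have hdom : ∀ {x}, x ∈ (inducedMap A).1 := fun {x} => by
    rw [ClosureAntitone.map_of_vanishingDiam hdiam hanti hne]
    apply mem_univ
  refine ⟨fun x => (inducedMap A).2 ⟨x, hdom⟩, ?_⟩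
  intro x y hxy
  simp only [Function.comp_apply] at hxy
  refine res_injective ?_
  ext n : 1
  induction n with
  | zero => simp
  | succ n ih =>
    simp only [res_succ, List.cons.injEq]
    refine ⟨?_, ih⟩
    by_contra hA
    have h1 : (inducedMap A).2 ⟨x, hdom⟩ ∈ A (x n :: res x n) := by
      have := map_mem (A := A) ⟨x, hdom⟩ (n + 1)
      rwa [res_succ] at this
    have h2 : (inducedMap A).2 ⟨y, hdom⟩ ∈ A (y n :: res x n) := by
      have := map_mem (A := A) ⟨y, hdom⟩ (n + 1)
      rwa [res_succ, ← ih] at this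
    have h3 : Disjoint (f '' A (x n :: res x n)) (f '' A (y n :: res x n)) := by
      change Disjoint (f '' (D (x n :: res x n)).1) (f '' (D (y n :: res x n)).1)
      rw [hDc, hDc]
      exact hP5 _ _ _ _ hA
    exact Set.disjoint_left.1 h3 ⟨_, h1, rfl⟩ ⟨_, h2, hxy.symm⟩

theorem exists_bool_inj {X : Type} {Y : Type 1} [MeasurableSpace X] [StandardBorelSpace X]
    [TopologicalSpace Y] [T2Space Y] [SecondCountableTopology Y] [MeasurableSpace Y]
    [OpensMeasurableSpace Y] (f : X → Y) (hf : Measurable f) (h : ¬ (Set.range f).Countable) :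
    ∃ j : (ℕ → Bool) → X, Function.Injective (f ∘ j) := by
  let _ := upgradeStandardBorel X
  obtain ⟨t', -, hft, hpol⟩ := hf.exists_continuous
  let _ : TopologicalSpace X := t'
  have _ : PolishSpace X := hpol
  let _ := TopologicalSpace.upgradeIsCompletelyMetrizable X
  exact Perf_cont f hft h

end Pool.Agent.Helper22.PT
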