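import Pool.Agent.Helper22.PT.Meas
import Pool.Agent.Helper22.PT.MeasB
import Pool.Agent.Helper22.PT.Perf

/-!
# Few models: countably many types of each countable rank
-/

namespace Pool.Agent.Helper22.PT

open FirstOrder Language Cardinal Ordinal Pool.Agent.Helper85.VC

variable {L : FirstOrder.Language.{0, 0}} {T : L.Theory} {Φ : ℕ → Set (L.Formula (Fin 1))}
  {M : CModel T}

/-- Two enumerated structures with the same diagram are isomorphic. -/
private theorem Count_iso {N N' : Type} [L.Structure N] [L.Structure N'] {x : ℕ → N} {y : ℕ → N'}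
    (hx : Function.Surjective x) (hy : Function.Surjective y)
    (hD : ∀ φ : L.Formula ℕ, φ.Realize x ↔ φ.Realize y) : ∃ h : N ≃[L] N', ∀ i, h (x i) = y i := by
  choose c hc using hx
  choose d hd using hy
  have heq : ∀ i j, x i = x j ↔ y i = y j := by
    intro i j
    have h1 := hD (Term.equal (Term.var i) (Term.var j))
    rw [Formula.realize_equal, Formula.realize_equal] at h1
    exact h1
  let e : N ≃ N' :=
    { toFun := fun a => y (c a)
      invFun := fun b => x (d b)
      left_inv := fun a => by
        show x (d (y (c a))) = a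
        rw [(heq _ (c a)).2 (hd _), hc]
      right_inv := fun b => by
        show y (c (x (d b))) = b
        rw [(heq _ (d b)).1 (hc _), hd] }
  have he : ∀ i, e (x i) = y i := fun i => (heq _ i).1 (hc _)
  refine ⟨⟨e, ?_, ?_⟩, he⟩
  · intro n f a
    have h1 := hD (Term.equal (Term.func f fun j => Term.var (c (a j)))
      (Term.var (c (Structure.funMap f a))))
    rw [Formula.realize_equal, Formula.realize_equal] at h1
    simp only [Term.realize_func, Term.realize_var, hc] at h1
    exact (h1.1 trivial).symm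
  · intro n r a
    have h1 := hD (r.formula fun j => Term.var (c (a j)))
    rw [Formula.realize_rel, Formula.realize_rel] at h1
    simp only [Term.realize_var, hc] at h1
    exact h1.symm

/-- Every model in `K_Q` with a sequence has an enumeration starting with the first `m` terms of
the sequence: it is equivalent to `w.pt` for some code `w`. -/
theorem exists_code (p : Pt Φ M) (m : ℕ) :
    ∃ (w : Cd Φ M) (h : w.N ≃[L] p.N.mod), ∀ i < m, h (w.x i) = p.v i := by
  classical
  obtain ⟨e, he⟩ := p.N.ex
  obtain ⟨g, hg⟩ := exists_surjective_nat p.N.mod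
  let x : ℕ → p.N.mod := fun i => if i < m then p.v i else g (i - m)
  have hx : Function.Surjective x := by
    intro a
    obtain ⟨i, rfl⟩ := hg a
    refine ⟨i + m, ?_⟩
    simp only [x]
    rw [if_neg (by omega), Nat.add_sub_cancel]
  let w0 : (L.Formula ℕ → Bool) × (ℕ → Opt Φ M) :=
    (fun φ => decide (φ.Realize x),
      fun i => if h : x i ∈ sol Φ p.N.mod then some (e.symm ⟨x i, h⟩) else none)
  have hw0 : Codes p.N.mod e x w0 := by
    refine ⟨he, hx, fun φ => by simp [w0], fun i q => ?_⟩
    simp only [w0]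
    by_cases h : x i ∈ sol Φ p.N.mod
    · rw [dif_pos h]
      constructor
      · intro h1
        have h2 : e.symm ⟨x i, h⟩ = q := Option.some.inj h1
        rw [← h2, Equiv.apply_symm_apply]
      · intro h1
        have h2 : e q = ⟨x i, h⟩ := Subtype.ext h1
        show (some (e.symm ⟨x i, h⟩) : Option (sol Φ M)) = some q
        rw [← h2, Equiv.symm_apply_apply]
    · rw [dif_neg h]
      constructor
      · intro h1
        cases h1
      · intro h1
        exact absurd (h1 ▸ (e q).2) h
  let w : Cd Φ M := ⟨w0, p.N.mod, e, x, hw0⟩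
  have hD : ∀ φ : L.Formula ℕ, φ.Realize w.x ↔ φ.Realize x := by
    intro φ
    rw [← w.spec.2.2.1 φ, ← hw0.2.2.1 φ]
  obtain ⟨h, hh⟩ := Count_iso w.spec.2.1 hx hD
  refine ⟨w, h, fun i hi => ?_⟩
  rw [hh]
  simp only [x]
  rw [if_pos hi]

private theorem Count_Iio {α : Ordinal.{0}} (hα : α < ω₁) : Countable (Set.Iio α) := by
  rw [← Cardinal.mk_le_aleph0_iff, Cardinal.mk_Iio_ordinal, ← Cardinal.lift_aleph0.{1, 0},
    Cardinal.lift_le]
  have h : α.card < ℵ₁ := by
    rwa [← Cardinal.lt_ord, Cardinal.ord_aleph]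
  rw [← Cardinal.succ_aleph0] at h
  exact Order.lt_succ_iff.1 h

/-- the point of a code, with one term of the sequence changed -/
private noncomputable def Count_q (m : ℕ) (w : Cd Φ M) (i : ℕ) : Pt Φ M :=
  ⟨w.pt.N, w.x ∘ Function.update id m i⟩

private theorem Count_pr (m : ℕ) (w w' : Cd Φ M) (i i' : ℕ) :
    pr (m + 1) (w.x ∘ Function.update id m i) (w'.x ∘ Function.update id m i') =
      insert (w.x i, w'.x i') (pr m w.x w'.x) := by
  rw [Function.comp_update, Function.comp_update, Function.comp_id, Function.comp_id, pr_update]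

open Classical in
/-- the invariant of a code -/
private noncomputable def Count_F (α : Ordinal.{0}) (m : ℕ) (w : Cd Φ M) :
    ((Σ n, L.Formula (Fin n) × (Fin n → Fin m)) → Bool) ×
      ((Σ β : Set.Iio α, Cls Φ M β (m + 1)) → Bool) :=
  (fun a => w.1.1 (a.2.1.relabel fun i => (a.2.2 i : ℕ)),
    fun b => decide (∃ i, (Quotient.mk (eqvSetoid Φ M b.1 (m + 1)) (Count_q m w i)) = b.2))

private theorem Count_one (α : Ordinal.{0}) (m : ℕ) (w w' : Cd Φ M)
    (h1 : Count_F α m w = Count_F α m w') (h2 : ∀ i < m, w.1.2 i = w'.1.2 i) :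
    Eqv α m w.pt w'.pt := by
  classical
  have hA := fun a => congrFun (congrArg Prod.fst h1) a
  have hB := fun b => congrFun (congrArg Prod.snd h1) b
  have key : ∀ β (hβ : β < α) (i : ℕ), ∀ u u' : Cd Φ M, Count_F α m u = Count_F α m u' →
      ∃ i', Eqv β (m + 1) (Count_q m u i) (Count_q m u' i') := by
    intro β hβ i u u' hu
    have h3 := congrFun (congrArg Prod.snd hu)
      ⟨⟨β, hβ⟩, Quotient.mk (eqvSetoid Φ M β (m + 1)) (Count_q m u i)⟩
    simp only [Count_F] at h3
    have h4 : ∃ i', (Quotient.mk (eqvSetoid Φ M β (m + 1)) (Count_q m u' i')) =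
        Quotient.mk (eqvSetoid Φ M β (m + 1)) (Count_q m u i) := by
      rw [decide_eq_decide] at h3
      exact h3.1 ⟨i, rfl⟩
    obtain ⟨i', hi'⟩ := h4
    exact ⟨i', (Quotient.exact hi').symm⟩
  show E Φ α (pr m w.x w'.x)
  rw [E_iff]
  refine ⟨⟨fun n φ u hu => ?_, w.e.symm.trans w'.e, w.spec.1.symm.trans w'.spec.1,
    fun p hp h => ?_⟩, fun β hβ => ⟨fun b => ?_, fun b' => ?_⟩⟩
  · choose τ hτ hu' using hu
    have h3 := hA ⟨n, φ, fun i => ⟨τ i, hτ i⟩⟩
    simp only [Count_F] at h3
    have h4 : (φ.relabel τ).Realize w.x ↔ (φ.relabel τ).Realize w'.x := by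
      rw [← w.spec.2.2.1, ← w'.spec.2.2.1, h3]
    rw [Formula.realize_relabel, Formula.realize_relabel] at h4
    have h5 : (fun i => (u i).1) = w.x ∘ τ := by
      funext i
      rw [hu' i]
      rfl
    have h6 : (fun i => (u i).2) = w'.x ∘ τ := by
      funext i
      rw [hu' i]
      rfl
    rw [h5, h6]
    exact h4
  · obtain ⟨i, hi, rfl⟩ := hp
    have h3 : w.1.2 i = some (w.e.symm ⟨w.x i, h⟩) := by
      rw [w.spec.2.2.2, Equiv.apply_symm_apply]
    rw [h2 i hi, w'.spec.2.2.2] at h3
    exact h3
  · obtain ⟨i, rfl⟩ := w.spec.2.1 b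
    obtain ⟨i', hi'⟩ := key β hβ i w w' h1
    have h3 : E Φ β (pr (m + 1) (w.x ∘ Function.update id m i)
      (w'.x ∘ Function.update id m i')) := hi'
    rw [Count_pr] at h3
    exact ⟨w'.x i', h3⟩
  · obtain ⟨i', rfl⟩ := w'.spec.2.1 b'
    obtain ⟨i, hi⟩ := key β hβ i' w' w h1.symm
    have h3 : E Φ β (pr (m + 1) (w.x ∘ Function.update id m i)
      (w'.x ∘ Function.update id m i')) := hi.symm
    rw [Count_pr] at h3
    exact ⟨w.x i, h3⟩

private theorem Count_two (α : Ordinal.{0}) (m : ℕ) (w w' : Cd Φ M) (h : w.N ≃[L] w'.N)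
    (hi : ∀ i < m, h (w.x i) = w'.x i) : Count_F α m w = Count_F α m w' := by
  classical
  have key : ∀ (β : Ordinal.{0}) (u u' : Cd Φ M) (g : u.N ≃[L] u'.N),
      (∀ i < m, g (u.x i) = u'.x i) → ∀ i, ∃ i',
        Quotient.mk (eqvSetoid Φ M β (m + 1)) (Count_q m u' i') =
        Quotient.mk (eqvSetoid Φ M β (m + 1)) (Count_q m u i) := by
    intro β u u' g hg i
    obtain ⟨i', hi'⟩ := u'.spec.2.1 (g (u.x i))
    refine ⟨i', (Quotient.sound ?_).symm⟩
    show E Φ β (pr (m + 1) (u.x ∘ Function.update id m i) (u'.x ∘ Function.update id m i'))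
    rw [Count_pr]
    refine E_of_equiv g ?_
    intro p hp
    rcases Set.mem_insert_iff.1 hp with rfl | ⟨j, hj, rfl⟩
    · exact hi'.symm
    · exact hg j hj
  have hsymm : ∀ i < m, h.symm (w'.x i) = w.x i := by
    intro i hlt
    rw [← hi i hlt]
    exact h.toEquiv.symm_apply_apply (w.x i)
  refine Prod.ext ?_ ?_
  · funext a
    obtain ⟨n, φ, τ⟩ := a
    show w.1.1 (φ.relabel fun i => (τ i : ℕ)) = w'.1.1 (φ.relabel fun i => (τ i : ℕ))
    rw [Bool.eq_iff_iff, w.spec.2.2.1, w'.spec.2.2.1, Formula.realize_relabel,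
      Formula.realize_relabel]
    have h3 : (w'.x ∘ fun i => (τ i : ℕ)) = fun i => h (w.x (τ i)) := by
      funext i
      exact (hi _ (τ i).2).symm
    rw [h3]
    exact (realize_equiv h φ _).symm
  · funext b
    obtain ⟨β, c⟩ := b
    simp only [Count_F]
    rw [decide_eq_decide]
    constructor
    · rintro ⟨i, rfl⟩
      exact key β w w' h hi i
    · rintro ⟨i, rfl⟩
      exact key β w' w h.symm hsymm i

private theorem Count_meas [Countable L.Symbols] {α : Ordinal.{0}} (hα : α < ω₁) (m : ℕ) :
    Measurable (Count_F (Φ := Φ) (M := M) α m) := by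
  refine Measurable.prodMk (measurable_pi_lambda _ fun a => ?_) (measurable_pi_lambda _ fun b => ?_)
  · exact (measurable_pi_apply _).comp (measurable_fst.comp measurable_subtype_coe)
  · refine measurable_to_bool ?_
    have h1 : ((fun w : Cd Φ M => (Count_F α m w).2 b) ⁻¹' {true}) =
        ⋃ i, {w : Cd Φ M | E Φ b.1 (pr (m + 1) (w.x ∘ Function.update id m i) b.2.out.v)} := by
      ext w
      simp only [Set.mem_preimage, Set.mem_singleton_iff, Count_F, decide_eq_true_eq,
        Set.mem_iUnion, Set.mem_ofPred_eq]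
      refine exists_congr fun i => ?_
      conv_lhs => rw [← Quotient.out_eq b.2]
      exact ⟨fun h => Quotient.exact h, fun h => Quotient.sound h⟩
    change MeasurableSet ((fun w : Cd Φ M => (Count_F α m w).2 b) ⁻¹' {true})
    rw [h1]
    exact MeasurableSet.iUnion fun i => measurableSet_E (b.1.2.trans hα) (m + 1) _ _

/-- By induction on `α`.  Let `B` be the countable type `Σ β : Set.Iio α, Cls Φ M β (m + 1)` and
`A` the countable type `Σ n, L.Formula (Fin n) × (Fin n → Fin m)`.  Consider
`F : Cd Φ M → (A → Bool) × (B → Bool)`; the first component of `F w` at `(n, φ, τ)` is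
`w.1.1 (φ.relabel fun i => (τ i : ℕ))` and the second one at `(β, c)` is true iff there is `i` such
that the class of `(w.N, w.x ∘ Function.update id m i)` in `Cls Φ M β (m + 1)` is `c`.  It is
measurable by `measurableSet_E`.  (1) If `F w = F w'` and `w.1.2 i = w'.1.2 i` for `i < m` then
`Eqv α m w.pt w'.pt` (`Base`: the bijection is `w.e.symm.trans w'.e`).  (2) If there is an
isomorphism `h : w.N ≃[L] w'.N` with `h (w.x i) = w'.x i` for `i < m` then `F w = F w'`.
If the range of `F` is countable then `Cls Φ M α m` is countable by (1) and `exists_code`.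
Otherwise `exists_bool_inj` gives `j : (ℕ → Bool) → Cd Φ M` with `F ∘ j` injective; by (2) the map
`(ℕ → Bool) → Quotient (kIso Φ M)`, `s ↦ ⟦(j s).pt.N⟧`, has countable fibres (for `s`, `s'` in the
fibre of `⟦N⟧` choose isomorphisms to `N`; the images of the first `m` terms are different), so
`𝔠 ≤ numK Φ M * ℵ₀`, contradiction (`Cardinal.mk_le_mk_mul_of_mk_preimage_le`). -/
theorem countable_cls [Countable L.Symbols] (hfew : numK Φ M < 𝔠) {α : Ordinal.{0}}
    (hα : α < ω₁) (m : ℕ) : Countable (Cls Φ M α m) := by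
  classical
  induction α using WellFoundedLT.induction generalizing m with
  | _ α ih =>
    have hIio : Countable (Set.Iio α) := Count_Iio hα
    have hcls : ∀ β : Set.Iio α, Countable (Cls Φ M β (m + 1)) := fun β =>
      ih β β.2 (β.2.trans hα) (m + 1)
    by_cases hr : (Set.range (Count_F (Φ := Φ) (M := M) α m)).Countable
    · have hr' : Countable (Set.range (Count_F (Φ := Φ) (M := M) α m)) := hr.to_subtype
      have hcode : ∀ c : Cls Φ M α m, ∃ w : Cd Φ M,
          c = Quotient.mk (eqvSetoid Φ M α m) w.pt := by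
        intro c
        obtain ⟨w, h, hw⟩ := exists_code c.out m
        refine ⟨w, ?_⟩
        conv_lhs => rw [← Quotient.out_eq c]
        refine Quotient.sound (Eqv.symm ?_)
        refine E_of_equiv h ?_
        rintro _ ⟨i, hi, rfl⟩
        exact hw i hi
      choose W hW using hcode
      let G : Cls Φ M α m → Set.range (Count_F (Φ := Φ) (M := M) α m) × (Fin m → Opt Φ M) :=
        fun c => (⟨Count_F α m (W c), W c, rfl⟩, fun i => (W c).1.2 i)
      have hG : Function.Injective G := by
        intro c c' hcc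
        rw [hW c, hW c']
        refine Quotient.sound (Count_one α m _ _ ?_ fun i hi => ?_)
        · exact congrArg Subtype.val (congrArg Prod.fst hcc)
        · exact congrFun (congrArg Prod.snd hcc) ⟨i, hi⟩
      exact hG.countable
    · exfalso
      obtain ⟨j, hj⟩ := exists_bool_inj (Count_F (Φ := Φ) (M := M) α m) (Count_meas hα m) hr
      let k : (ℕ → Bool) → Quotient (kIso Φ M) := fun s =>
        Quotient.mk (kIso Φ M) (j s).pt.N
      have hfib : ∀ q : Quotient (kIso Φ M), Countable (k ⁻¹' {q}) := by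
        intro q
        have hiso : ∀ s : k ⁻¹' {q}, Nonempty ((j s.1).N ≃[L] q.out.mod) := by
          rintro ⟨s, hs⟩
          have h1 : Quotient.mk (kIso Φ M) (j s).pt.N = Quotient.mk (kIso Φ M) q.out := by
            rw [Quotient.out_eq]
            exact hs
          exact Quotient.exact h1
        let H : ∀ s : k ⁻¹' {q}, (j s.1).N ≃[L] q.out.mod := fun s => (hiso s).some
        have hinj : Function.Injective
            (fun (s : k ⁻¹' {q}) (i : Fin m) => H s ((j s.1).x i)) := by
          intro s s' hss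
          apply Subtype.ext
          apply hj
          refine Count_two α m _ _ ((H s').symm.comp (H s)) fun i hi => ?_
          have h1 := congrFun hss ⟨i, hi⟩
          simp only at h1
          show (H s').symm (H s ((j s.1).x i)) = (j s'.1).x i
          rw [h1]
          exact (H s').toEquiv.symm_apply_apply _
        exact hinj.countable
      have h1 : lift.{1} #(ℕ → Bool) ≤ lift.{0} #(Quotient (kIso Φ M)) * ℵ₀ := by
        refine lift_mk_le_lift_mk_mul_of_lift_mk_preimage_le k fun b => ?_
        have := hfib b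
        rw [Cardinal.lift_le_aleph0]
        exact Cardinal.mk_le_aleph0
      have h2 : lift.{1} #(ℕ → Bool) = 𝔠 := by
        simp
      rw [h2, Cardinal.lift_id'] at h1
      refine absurd h1 (not_le.2 ?_)
      exact Cardinal.mul_lt_of_lt Cardinal.aleph0_le_continuum hfew Cardinal.aleph0_lt_continuum

end Pool.Agent.Helper22.PT
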