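import Pool.Agent.Helper85.VC.Defs

/-!
# Back-and-forth relations between countable models

`M` is a countable model of `T` and `Q = Φ(M)`.  `KQ Φ M` is the class of the countable models
`N` of `T` with `Φ(N) = Q` (up to an elementary bijection).  A finite map between parts of two
models is a set `s` of pairs.
-/

namespace Pool.Agent.Helper22.PT

open FirstOrder Language Cardinal Ordinal Pool.Agent.Helper85.VC

variable {L : FirstOrder.Language.{0, 0}}

/-- The set of pairs `s` is the graph of an elementary map. -/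
def PElem (L : FirstOrder.Language.{0, 0}) {N N' : Type} [L.Structure N] [L.Structure N']
    (s : Set (N × N')) : Prop :=
  ∀ (n : ℕ) (φ : L.Formula (Fin n)) (u : Fin n → N × N'), (∀ i, u i ∈ s) →
    (φ.Realize (fun i => (u i).1) ↔ φ.Realize (fun i => (u i).2))

/-- `s` is an elementary map and its part on `Φ(N)` extends to an elementary bijection
`Φ(N) → Φ(N')`. -/
def Base (Φ : ℕ → Set (L.Formula (Fin 1))) {N N' : Type} [L.Structure N] [L.Structure N']
    (s : Set (N × N')) : Prop :=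
  PElem L s ∧ ∃ g : sol Φ N ≃ sol Φ N', Elem L g ∧
    ∀ p ∈ s, ∀ h : p.1 ∈ sol Φ N, ((g ⟨p.1, h⟩ : sol Φ N') : N') = p.2

/-- The back-and-forth relation of rank `α`. -/
def E (Φ : ℕ → Set (L.Formula (Fin 1))) {N N' : Type} [L.Structure N] [L.Structure N']
    (α : Ordinal.{0}) (s : Set (N × N')) : Prop :=
  Base Φ s ∧ ∀ β, β < α →
    (∀ b, ∃ b', E Φ β (insert (b, b') s)) ∧ (∀ b', ∃ b, E Φ β (insert (b, b') s))
termination_by α

theorem E_iff (Φ : ℕ → Set (L.Formula (Fin 1))) {N N' : Type} [L.Structure N] [L.Structure N']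
    (α : Ordinal.{0}) (s : Set (N × N')) :
    E Φ α s ↔ Base Φ s ∧ ∀ β, β < α →
    (∀ b, ∃ b', E Φ β (insert (b, b') s)) ∧ (∀ b', ∃ b, E Φ β (insert (b, b') s)) := by
  rw [E]

/-- The countable models `N` of `T` with `Φ(N) = Q`, `Q = Φ(M)`. -/
structure KQ {T : L.Theory} (Φ : ℕ → Set (L.Formula (Fin 1))) (M : CModel T) where
  /-- the model -/
  mod : CModel T
  ex : ∃ e : sol Φ M ≃ sol Φ mod, Elem L e

variable {T : L.Theory} {Φ : ℕ → Set (L.Formula (Fin 1))} {M : CModel T}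

/-- isomorphism of models in `KQ Φ M` -/
def kIso (Φ : ℕ → Set (L.Formula (Fin 1))) (M : CModel T) : Setoid (KQ Φ M) where
  r N N' := Nonempty (N.mod ≃[L] N'.mod)
  iseqv :=
    { refl := fun N => ⟨Language.Equiv.refl L N.mod⟩
      symm := fun ⟨e⟩ => ⟨e.symm⟩
      trans := fun ⟨e⟩ ⟨f⟩ => ⟨f.comp e⟩ }

/-- The number of models in `K_Q` up to isomorphism. -/
noncomputable def numK (Φ : ℕ → Set (L.Formula (Fin 1))) (M : CModel T) : Cardinal.{1} :=
  #(Quotient (kIso Φ M))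

/-- the pairs `(v i, v' i)`, `i < m` -/
def pr {N N' : Type} (m : ℕ) (v : ℕ → N) (v' : ℕ → N') : Set (N × N') :=
  {p | ∃ i < m, p = (v i, v' i)}

/-- a model in `K_Q` with a sequence of elements -/
structure Pt {T : L.Theory} (Φ : ℕ → Set (L.Formula (Fin 1))) (M : CModel T) where
  /-- the model -/
  N : KQ Φ M
  /-- the sequence -/
  v : ℕ → N.mod

/-- `(N, v)` and `(N', v')` are equivalent of rank `α` on the first `m` terms. -/
def Eqv (α : Ordinal.{0}) (m : ℕ) (p q : Pt Φ M) : Prop :=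
  E Φ α (pr m p.v q.v)

/-! ## Basic properties -/

section basic

variable {N N' N'' : Type} [L.Structure N] [L.Structure N'] [L.Structure N'']

theorem PElem.mono {s t : Set (N × N')} (h : PElem L t) (hs : s ⊆ t) : PElem L s :=
  fun n φ u hu => h n φ u fun i => hs (hu i)

theorem Base.mono {s t : Set (N × N')} (h : Base Φ t) (hs : s ⊆ t) : Base Φ s := by
  obtain ⟨h1, g, hg, h2⟩ := h
  exact ⟨h1.mono hs, g, hg, fun p hp => h2 p (hs hp)⟩

theorem E.base {α : Ordinal.{0}} {s : Set (N × N')} (h : E Φ α s) : Base Φ s := by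
  rw [E_iff] at h
  exact h.1

theorem E.forth {α β : Ordinal.{0}} {s : Set (N × N')} (h : E Φ α s) (hβ : β < α) (b : N) :
    ∃ b', E Φ β (insert (b, b') s) := by
  rw [E_iff] at h
  exact (h.2 β hβ).1 b

theorem E.back {α β : Ordinal.{0}} {s : Set (N × N')} (h : E Φ α s) (hβ : β < α) (b' : N') :
    ∃ b, E Φ β (insert (b, b') s) := by
  rw [E_iff] at h
  exact (h.2 β hβ).2 b'

theorem E.mono_rank {α β : Ordinal.{0}} {s : Set (N × N')} (h : E Φ α s) (hβ : β ≤ α) :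
    E Φ β s := by
  rw [E_iff] at h ⊢
  exact ⟨h.1, fun γ hγ => h.2 γ (hγ.trans_le hβ)⟩

theorem E.mono {α : Ordinal.{0}} : ∀ {s t : Set (N × N')}, E Φ α t → s ⊆ t → E Φ α s := by
  induction α using WellFoundedLT.induction with
  | _ α ih =>
    intro s t h hs
    rw [E_iff]
    refine ⟨h.base.mono hs, fun β hβ => ⟨fun b => ?_, fun b' => ?_⟩⟩
    · obtain ⟨b', hb⟩ := h.forth hβ b
      exact ⟨b', ih β hβ hb (Set.insert_subset_insert hs)⟩
    · obtain ⟨b, hb⟩ := h.back hβ b'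
      exact ⟨b, ih β hβ hb (Set.insert_subset_insert hs)⟩

/-- the inverse relation -/
def inv (s : Set (N × N')) : Set (N' × N) := {p | (p.2, p.1) ∈ s}

theorem inv_insert (s : Set (N × N')) (b : N) (b' : N') :
    inv (insert (b, b') s) = insert (b', b) (inv s) := by
  ext ⟨x, y⟩
  simp [inv, Prod.ext_iff, and_comm]

theorem PElem.inv {s : Set (N × N')} (h : PElem L s) : PElem L (inv s) := fun n φ u hu =>
  (h n φ (fun i => ((u i).2, (u i).1)) hu).symm

theorem mem_sol_iff {s : Set (N × N')} (h : PElem L s) {p : N × N'} (hp : p ∈ s) :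
    p.1 ∈ sol Φ N ↔ p.2 ∈ sol Φ N' := by
  simp only [sol, Set.mem_ofPred_eq]
  refine exists_congr fun i => forall₂_congr fun φ _ => ?_
  exact h 1 φ (fun _ => p) (fun _ => hp)

theorem Base.inv {s : Set (N × N')} (h : Base Φ s) : Base Φ (inv s) := by
  obtain ⟨h1, g, hg, h2⟩ := h
  refine ⟨h1.inv, g.symm, hg.symm, fun p hp hp1 => ?_⟩
  have h3 : p.2 ∈ sol Φ N := (mem_sol_iff h1 hp).2 hp1
  have h4 := h2 (p.2, p.1) hp h3
  have h5 : g ⟨p.2, h3⟩ = ⟨p.1, hp1⟩ := Subtype.ext h4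
  rw [← h5, Equiv.symm_apply_apply]

theorem E.inv {α : Ordinal.{0}} : ∀ {s : Set (N × N')}, E Φ α s → E Φ α (inv s) := by
  induction α using WellFoundedLT.induction with
  | _ α ih =>
    intro s h
    rw [E_iff]
    refine ⟨h.base.inv, fun β hβ => ⟨fun b => ?_, fun b' => ?_⟩⟩
    · obtain ⟨b', hb⟩ := h.back hβ b
      exact ⟨b', by rw [← inv_insert]; exact ih β hβ hb⟩
    · obtain ⟨b, hb⟩ := h.forth hβ b'
      exact ⟨b, by rw [← inv_insert]; exact ih β hβ hb⟩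

theorem PElem.comp {s : Set (N × N')} {t : Set (N' × N'')} (hs : PElem L s) (ht : PElem L t)
    {r : Set (N × N'')} (hr : ∀ p ∈ r, ∃ b, (p.1, b) ∈ s ∧ (b, p.2) ∈ t) : PElem L r := by
  intro n φ u hu
  choose b hb using fun i => hr (u i) (hu i)
  exact (hs n φ (fun i => ((u i).1, b i)) fun i => (hb i).1).trans
    (ht n φ (fun i => (b i, (u i).2)) fun i => (hb i).2)

theorem Base.comp {s : Set (N × N')} {t : Set (N' × N'')} (hs : Base Φ s) (ht : Base Φ t)
    {r : Set (N × N'')} (hr : ∀ p ∈ r, ∃ b, (p.1, b) ∈ s ∧ (b, p.2) ∈ t) : Base Φ r := by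
  obtain ⟨h1, g, hg, h2⟩ := hs
  obtain ⟨h3, f, hf, h4⟩ := ht
  refine ⟨h1.comp h3 hr, g.trans f, hg.trans hf, fun p hp hp1 => ?_⟩
  obtain ⟨b, hb1, hb2⟩ := hr p hp
  have h5 := h2 _ hb1 hp1
  have h6 : b ∈ sol Φ N' := (mem_sol_iff h1 hb1).1 hp1
  have h7 : g ⟨p.1, hp1⟩ = ⟨b, h6⟩ := Subtype.ext h5
  rw [Equiv.trans_apply, h7]
  exact h4 _ hb2 h6

theorem E.comp {α : Ordinal.{0}} : ∀ {s : Set (N × N')} {t : Set (N' × N'')} {r : Set (N × N'')},
    E Φ α s → E Φ α t → (∀ p ∈ r, ∃ b, (p.1, b) ∈ s ∧ (b, p.2) ∈ t) → E Φ α r := by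
  induction α using WellFoundedLT.induction with
  | _ α ih =>
    intro s t r hs ht hr
    rw [E_iff]
    refine ⟨hs.base.comp ht.base hr, fun β hβ => ⟨fun b => ?_, fun b'' => ?_⟩⟩
    · obtain ⟨b', hb⟩ := hs.forth hβ b
      obtain ⟨b'', hb'⟩ := ht.forth hβ b'
      refine ⟨b'', ih β hβ hb hb' ?_⟩
      intro p hp
      rcases Set.mem_insert_iff.1 hp with rfl | hp
      · exact ⟨b', Set.mem_insert _ _, Set.mem_insert _ _⟩
      · obtain ⟨c, hc1, hc2⟩ := hr p hp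
        exact ⟨c, Set.mem_insert_of_mem _ hc1, Set.mem_insert_of_mem _ hc2⟩
    · obtain ⟨b', hb'⟩ := ht.back hβ b''
      obtain ⟨b, hb⟩ := hs.back hβ b'
      refine ⟨b, ih β hβ hb hb' ?_⟩
      intro p hp
      rcases Set.mem_insert_iff.1 hp with rfl | hp
      · exact ⟨b', Set.mem_insert _ _, Set.mem_insert _ _⟩
      · obtain ⟨c, hc1, hc2⟩ := hr p hp
        exact ⟨c, Set.mem_insert_of_mem _ hc1, Set.mem_insert_of_mem _ hc2⟩

/-- a set of pairs contained in the graph of an isomorphism -/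
theorem realize_equiv (h : N ≃[L] N') {n : ℕ} (φ : L.Formula (Fin n)) (a : Fin n → N) :
    φ.Realize (fun i => h (a i)) ↔ φ.Realize a := by
  have := StrongHomClass.realize_formula h φ (v := a)
  exact this

theorem sol_equiv (h : N ≃[L] N') (a : N) : h a ∈ sol Φ N' ↔ a ∈ sol Φ N := by
  simp only [sol, Set.mem_ofPred_eq]
  refine exists_congr fun i => forall₂_congr fun φ _ => ?_
  exact realize_equiv h φ (fun _ => a)

/-- the restriction of an isomorphism to the solution sets -/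
def solEquiv (Φ : ℕ → Set (L.Formula (Fin 1))) (h : N ≃[L] N') : sol Φ N ≃ sol Φ N' where
  toFun x := ⟨h x, (sol_equiv h _).2 x.2⟩
  invFun y := ⟨h.symm y, (sol_equiv h.symm _).2 y.2⟩
  left_inv x := by
    apply Subtype.ext
    exact h.toEquiv.symm_apply_apply x
  right_inv y := by
    apply Subtype.ext
    exact h.toEquiv.apply_symm_apply y

theorem elem_solEquiv (h : N ≃[L] N') : Elem L (solEquiv Φ h) := by
  intro φ
  have := StrongHomClass.realize_formula h φ (v := fun x : sol Φ N => (x : N))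
  exact this.symm

theorem base_of_equiv (h : N ≃[L] N') {s : Set (N × N')} (hs : ∀ p ∈ s, h p.1 = p.2) :
    Base Φ s := by
  refine ⟨fun n φ u hu => ?_, solEquiv Φ h, elem_solEquiv h, fun p hp hp1 => hs p hp⟩
  have h1 : (fun i => (u i).2) = fun i => h (u i).1 := by
    funext i
    exact (hs _ (hu i)).symm
  rw [h1]
  exact (realize_equiv h φ _).symm

theorem E_of_equiv (h : N ≃[L] N') {α : Ordinal.{0}} : ∀ {s : Set (N × N')},
    (∀ p ∈ s, h p.1 = p.2) → E Φ α s := by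
  induction α using WellFoundedLT.induction with
  | _ α ih =>
    intro s hs
    rw [E_iff]
    refine ⟨base_of_equiv h hs, fun β hβ => ⟨fun b => ⟨h b, ih β hβ ?_⟩,
      fun b' => ⟨h.symm b', ih β hβ ?_⟩⟩⟩
    · intro p hp
      rcases Set.mem_insert_iff.1 hp with rfl | hp
      · rfl
      · exact hs p hp
    · intro p hp
      rcases Set.mem_insert_iff.1 hp with rfl | hp
      · exact h.toEquiv.apply_symm_apply b'
      · exact hs p hp

theorem E_refl {α : Ordinal.{0}} {s : Set (N × N)} (hs : ∀ p ∈ s, p.1 = p.2) : E Φ α s :=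
  E_of_equiv (Language.Equiv.refl L N) hs

end basic

/-! ## Pairs of sequences -/

section pairs

variable {N N' N'' : Type}

theorem pr_mono {m m' : ℕ} (h : m ≤ m') (v : ℕ → N) (v' : ℕ → N') : pr m v v' ⊆ pr m' v v' := by
  rintro p ⟨i, hi, rfl⟩
  exact ⟨i, hi.trans_le h, rfl⟩

theorem pr_congr {m : ℕ} {v w : ℕ → N} {v' w' : ℕ → N'} (h : ∀ i < m, v i = w i)
    (h' : ∀ i < m, v' i = w' i) : pr m v v' = pr m w w' := by
  ext p
  constructor
  · rintro ⟨i, hi, rfl⟩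
    exact ⟨i, hi, by rw [h i hi, h' i hi]⟩
  · rintro ⟨i, hi, rfl⟩
    exact ⟨i, hi, by rw [h i hi, h' i hi]⟩

theorem pr_update (m : ℕ) (v : ℕ → N) (v' : ℕ → N') (b : N) (b' : N') :
    pr (m + 1) (Function.update v m b) (Function.update v' m b') = insert (b, b') (pr m v v') := by
  ext p
  constructor
  · rintro ⟨i, hi, rfl⟩
    by_cases h : i = m
    · subst h
      left
      simp
    · right
      exact ⟨i, by omega, by simp [h]⟩
  · rintro (rfl | ⟨i, hi, rfl⟩)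
    · exact ⟨m, by omega, by simp⟩
    · exact ⟨i, by omega, by simp [hi.ne]⟩

theorem pr_comp {m m' : ℕ} (v : ℕ → N) (v' : ℕ → N') (σ : ℕ → ℕ) (hσ : ∀ i < m, σ i < m') :
    pr m (v ∘ σ) (v' ∘ σ) ⊆ pr m' v v' := by
  rintro p ⟨i, hi, rfl⟩
  exact ⟨σ i, hσ i hi, rfl⟩

theorem inv_pr (m : ℕ) (v : ℕ → N) (v' : ℕ → N') : inv (pr m v v') = pr m v' v := by
  ext ⟨x, y⟩
  constructor
  · rintro ⟨i, hi, h⟩
    exact ⟨i, hi, by rw [Prod.ext_iff] at h ⊢; exact ⟨h.2, h.1⟩⟩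
  · rintro ⟨i, hi, h⟩
    exact ⟨i, hi, by rw [Prod.ext_iff] at h ⊢; exact ⟨h.2, h.1⟩⟩

theorem pr_trans (m : ℕ) (v : ℕ → N) (v' : ℕ → N') (v'' : ℕ → N'') :
    ∀ p ∈ pr m v v'', ∃ b, (p.1, b) ∈ pr m v v' ∧ (b, p.2) ∈ pr m v' v'' := by
  rintro p ⟨i, hi, rfl⟩
  exact ⟨v' i, ⟨i, hi, rfl⟩, ⟨i, hi, rfl⟩⟩

end pairs

theorem Eqv.refl (α : Ordinal.{0}) (m : ℕ) (p : Pt Φ M) : Eqv α m p p := by
  apply E_refl
  rintro _ ⟨i, -, rfl⟩
  rfl

theorem Eqv.symm {α : Ordinal.{0}} {m : ℕ} {p q : Pt Φ M} (h : Eqv α m p q) : Eqv α m q p := by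
  have := E.inv h
  rwa [inv_pr] at this

theorem Eqv.trans {α : Ordinal.{0}} {m : ℕ} {p q r : Pt Φ M} (h : Eqv α m p q)
    (h' : Eqv α m q r) : Eqv α m p r :=
  E.comp h h' (pr_trans m p.v q.v r.v)

/-- rank `α` equivalence on the first `m` terms, as an equivalence relation -/
def eqvSetoid (Φ : ℕ → Set (L.Formula (Fin 1))) (M : CModel T) (α : Ordinal.{0}) (m : ℕ) :
    Setoid (Pt Φ M) where
  r := Eqv α m
  iseqv := ⟨Eqv.refl α m, Eqv.symm, Eqv.trans⟩

/-- the set of rank `α` types of `m`-tuples in models in `K_Q` -/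
def Cls (Φ : ℕ → Set (L.Formula (Fin 1))) (M : CModel T) (α : Ordinal.{0}) (m : ℕ) : Type 1 :=
  Quotient (eqvSetoid Φ M α m)

theorem Eqv.mono {α β : Ordinal.{0}} {m n : ℕ} {p q : Pt Φ M} (h : Eqv α m p q) (hβ : β ≤ α)
    (hn : n ≤ m) : Eqv β n p q :=
  (E.mono_rank h hβ).mono (pr_mono hn _ _)

end Pool.Agent.Helper22.PT
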