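import Pool.Agent.Helper22.PT.Atom

/-!
# Atomic models embed
-/

namespace Pool.Agent.Helper22.PT

open FirstOrder Language Cardinal Ordinal Pool.Agent.Helper85.VC

variable {L : FirstOrder.Language.{0, 0}} {T : L.Theory} {Φ : ℕ → Set (L.Formula (Fin 1))}
  {M : CModel T}

/-- extension by `j` elements -/
private theorem Emb_extend {N N' : Type} [L.Structure N] [L.Structure N'] (v : ℕ → N)
    (β : Ordinal.{0}) : ∀ (j n : ℕ) (w : ℕ → N'), E Φ (β + (j : Ordinal.{0})) (pr n v w) →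
      ∃ w' : ℕ → N', (∀ i < n, w' i = w i) ∧ E Φ β (pr (n + j) v w') := by
  intro j
  induction j with
  | zero =>
    intro n w h
    refine ⟨w, fun _ _ => rfl, ?_⟩
    simpa using h
  | succ j ih =>
    intro n w h
    have hlt : β + (j : Ordinal.{0}) < β + ((j + 1 : ℕ) : Ordinal.{0}) := by
      rw [add_lt_add_iff_left]
      exact_mod_cast Nat.lt_succ_self j
    obtain ⟨b', hb'⟩ := h.forth hlt (v n)
    have hup : pr (n + 1) v (Function.update w n b') = insert (v n, b') (pr n v w) := by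
      have := pr_update n v w (v n) b'
      rwa [Function.update_eq_self] at this
    rw [← hup] at hb'
    obtain ⟨w', hw', hE⟩ := ih (n + 1) (Function.update w n b') hb'
    refine ⟨w', ?_, ?_⟩
    · intro i hi
      rw [hw' i (by omega), Function.update_of_ne hi.ne]
    · have : n + 1 + j = n + (j + 1) := by ring
      rwa [this] at hE

private theorem Emb_add_lt {δ : Ordinal.{0}} (hlim : ∀ β < δ, β + 1 < δ) {β : Ordinal.{0}}
    (hβ : β < δ) (j : ℕ) : β + (j : Ordinal.{0}) < δ := by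
  induction j with
  | zero => simpa using hβ
  | succ j ih =>
    have := hlim _ ih
    rwa [add_assoc, ← Nat.cast_add_one] at this

/-- the invariant of the construction -/
private def Emb_Inv (δ : Ordinal.{0}) (k : ℕ) (p q : Pt Φ M) (n : ℕ) (w : ℕ → q.N.mod) : Prop :=
  (∀ i < k, w i = q.v i) ∧ ∀ γ < δ, E Φ γ (pr n p.v w)

private theorem Emb_step {δ : Ordinal.{0}} (hlim : ∀ β < δ, β + 1 < δ) {k : ℕ}
    {p q : Pt Φ M} (hp : Atomic δ k p) (n : ℕ) (hkn : k ≤ n) (w : ℕ → q.N.mod)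
    (hw : Emb_Inv δ k p q n w) :
    ∃ w' : ℕ → q.N.mod, (∀ i < n, w' i = w i) ∧ Emb_Inv δ k p q (n + 1) w' := by
  obtain ⟨m, hm, β, hβ, hiso⟩ := hp.2 (n + 1)
  obtain ⟨j, rfl⟩ : ∃ j, m = n + j := ⟨m - n, by omega⟩
  obtain ⟨w', hw', hE⟩ := Emb_extend p.v β j n w (hw.2 _ (Emb_add_lt hlim hβ j))
  have hk : ∀ i < k, w' i = w i := fun i hi => hw' i (hi.trans_le hkn)
  refine ⟨w', hw', fun i hi => (hk i hi).trans (hw.1 i hi), ?_⟩
  refine hiso ⟨q.N, w'⟩ hE ?_
  intro γ hγ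
  have h1 : E Φ γ (pr k p.v w) := (hw.2 γ hγ).mono (pr_mono hkn _ _)
  have h2 : pr k p.v w' = pr k p.v w := pr_congr (fun _ _ => rfl) hk
  show E Φ γ (pr k p.v w')
  rw [h2]
  exact h1

private theorem Emb_seq {δ : Ordinal.{0}} (hlim : ∀ β < δ, β + 1 < δ) {k : ℕ}
    {p q : Pt Φ M} (hp : Atomic δ k p) (h : ∀ γ < δ, Eqv γ k p q) :
    ∃ w : ℕ → q.N.mod, (∀ i < k, w i = q.v i) ∧ ∀ n, ∀ γ < δ, E Φ γ (pr n p.v w) := by
  classical
  have hstep : ∀ (t : ℕ) (w : {w : ℕ → q.N.mod // Emb_Inv δ k p q (k + t) w}),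
      ∃ w' : {w : ℕ → q.N.mod // Emb_Inv δ k p q (k + (t + 1)) w}, ∀ i < k + t, w'.1 i = w.1 i := by
    intro t w
    obtain ⟨w', h1, h2⟩ := Emb_step hlim hp (k + t) (by omega) w.1 w.2
    exact ⟨⟨w', h2⟩, h1⟩
  choose S hS using hstep
  let W : (t : ℕ) → {w : ℕ → q.N.mod // Emb_Inv δ k p q (k + t) w} := fun t =>
    Nat.rec (motive := fun t => {w : ℕ → q.N.mod // Emb_Inv δ k p q (k + t) w})
      ⟨q.v, fun _ _ => rfl, h⟩ (fun t w => S t w) t
  have hW : ∀ t, ∀ i < k + t, (W (t + 1)).1 i = (W t).1 i := fun t i hi => hS t (W t) i hi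
  have hmono : ∀ t s, ∀ i < k + t, (W (t + s)).1 i = (W t).1 i := by
    intro t s
    induction s with
    | zero => intro i _; rfl
    | succ s ih =>
      intro i hi
      rw [← ih i hi]
      exact hW (t + s) i (by omega)
  have hagree : ∀ t, ∀ i < k + t, (W (i + 1)).1 i = (W t).1 i := by
    intro t i hi
    rcases le_total (i + 1) t with hle | hle
    · obtain ⟨s, rfl⟩ := Nat.exists_eq_add_of_le hle
      exact (hmono (i + 1) s i (by omega)).symm
    · obtain ⟨s, hs⟩ := Nat.exists_eq_add_of_le hle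
      rw [hs]
      exact hmono t s i hi
  refine ⟨fun i => (W (i + 1)).1 i, ?_, ?_⟩
  · intro i hi
    exact (W (i + 1)).2.1 i hi
  · intro n γ hγ
    have h1 : pr (k + n) p.v (fun i => (W (i + 1)).1 i) = pr (k + n) p.v (W n).1 :=
      pr_congr (fun _ _ => rfl) fun i hi => hagree n i hi
    have h2 := (W n).2.2 γ hγ
    rw [← h1] at h2
    exact h2.mono (pr_mono (by omega) _ _)

/-- Build `w : ℕ → q.N.mod` with `w i = q.v i` for `i < k` and
`∀ n, ∀ γ < δ, Eqv γ n p ⟨q.N, w⟩`; step from `n ≥ k` to `n + 1`: take `m ≥ n + 1` and `β < δ` from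
`Atomic` for `n + 1`, extend by `m - n` elements (`E.forth`, starting with rank `β + (m - n)`) to
get `Eqv β m p ⟨q.N, w'⟩` with `w' i = w i` for `i < n`; then `∀ γ < δ, Eqv γ (n + 1) p ⟨q.N, w'⟩`.
The map `f` sends `p.v i` to `w i` (well defined and elementary as `w` has the same types). -/
theorem exists_emb {δ : Ordinal.{0}} (hδ0 : 0 < δ) (hlim : ∀ β < δ, β + 1 < δ) {k : ℕ}
    {p q : Pt Φ M} (hp : Atomic δ k p) (h : ∀ γ < δ, Eqv γ k p q) :
    ∃ f : p.N.mod ↪ₑ[L] q.N.mod, (∀ i < k, f (p.v i) = q.v i) ∧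
      ∀ n, ∀ γ < δ, E Φ γ (pr n p.v (fun i => f (p.v i))) := by
  obtain ⟨w, hwk, hw⟩ := Emb_seq hlim hp h
  have hel : ∀ n, PElem L (pr n p.v w) := fun n => (hw n 0 hδ0).base.1
  choose idx hidx using hp.1
  have hwd : ∀ i j, p.v i = p.v j → w i = w j := by
    intro i j hij
    have hpe := hel (max i j + 1) 2 ((Term.var (0 : Fin 2)).equal (Term.var (1 : Fin 2)))
      ![(p.v i, w i), (p.v j, w j)] (by
        intro t
        fin_cases t
        · exact ⟨i, by simp, rfl⟩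
        · exact ⟨j, by simp, rfl⟩)
    simp only [Formula.realize_equal, Term.realize_var] at hpe
    exact hpe.1 hij
  have hreal : ∀ (n : ℕ) (φ : L.Formula (Fin n)) (x : Fin n → p.N.mod),
      φ.Realize ((fun x => w (idx x)) ∘ x) ↔ φ.Realize x := by
    intro n φ x
    obtain ⟨B, hB⟩ : ∃ B, ∀ t, idx (x t) < B := by
      refine ⟨(Finset.univ.sup fun t => idx (x t)) + 1, fun t => ?_⟩
      have := Finset.le_sup (f := fun t => idx (x t)) (Finset.mem_univ t)
      exact Nat.lt_succ_of_le this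
    have hpe := hel B n φ (fun t => (p.v (idx (x t)), w (idx (x t)))) fun t => ⟨_, hB t, rfl⟩
    simp only [hidx] at hpe
    exact hpe.symm
  have hf : ∀ i, w (idx (p.v i)) = w i := fun i => hwd _ _ (hidx (p.v i))
  refine ⟨⟨fun x => w (idx x), fun n φ x => hreal n φ x⟩, ?_, ?_⟩
  · intro i hi
    show w (idx (p.v i)) = q.v i
    rw [hf, hwk i hi]
  · intro n γ hγ
    have h1 : (fun i => w (idx (p.v i))) = w := funext hf
    show E Φ γ (pr n p.v (fun i => w (idx (p.v i))))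
    rw [h1]
    exact hw n γ hγ

end Pool.Agent.Helper22.PT
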