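import Pool.Agent.Helper22.PT.Emb

/-!
# Uncountably many good pseudotypes: small elementary substructures
-/

namespace Pool.Agent.Helper22.PT

open FirstOrder Language Cardinal Ordinal Pool.Agent.Helper85.VC

variable {L : FirstOrder.Language.{0, 0}} {T : L.Theory} {Φ : ℕ → Set (L.Formula (Fin 1))}
  {M : CModel T}

/-- the preimage of an element of `Φ(N)` -/
private theorem Low_pre {A N : Type} [L.Structure A] [L.Structure N] (f : A ↪ₑ[L] N)
    (hf : sol Φ N ⊆ Set.range f) (x : sol Φ N) : ∃ a : A, f a = x ∧ a ∈ sol Φ A := by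
  obtain ⟨a, ha⟩ := hf x.2
  refine ⟨a, ha, ?_⟩
  obtain ⟨i, hi⟩ := x.2
  refine ⟨i, fun φ hφ => ?_⟩
  have h1 := hi φ hφ
  rw [← ha] at h1
  exact (f.map_formula φ (fun _ => a)).1 h1

private theorem Low_sol {A N : Type} [L.Structure A] [L.Structure N] (f : A ↪ₑ[L] N)
    {a : A} (h : a ∈ sol Φ A) : f a ∈ sol Φ N := by
  obtain ⟨i, hi⟩ := h
  exact ⟨i, fun φ hφ => (f.map_formula φ (fun _ => a)).2 (hi φ hφ)⟩

/-- Let `f`, `f'` be elementary embeddings of `p` into `q`, `q'` whose ranges contain `Φ(q)`,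
`Φ(q')`, and `a`, `a'` the images of the same tuple `c`.  Then `tp(a / Φ(q))` and `tp(a' / Φ(q'))` are
the same pseudotype (the elementary permutation of `Φ(M)` is the composition of `e`, the bijection
`Φ(q) → Φ(q')` given by `f' ∘ f⁻¹`, and `e'⁻¹`). -/
theorem pseudo_eq {N N' A : CModel T} (f : A ↪ₑ[L] N) (f' : A ↪ₑ[L] N')
    (hf : sol Φ N ⊆ Set.range f) (hf' : sol Φ N' ⊆ Set.range f') (e : sol Φ M ≃ sol Φ N)
    (he : Elem L e) (e' : sol Φ M ≃ sol Φ N') (he' : Elem L e') {k : ℕ} (c : Fin k → A) :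
    ∃ σ : Equiv.Perm (sol Φ M), Elem L σ ∧ ∀ φ : L.Formula (Fin k ⊕ sol Φ M),
      φ ∈ tp L e (f ∘ c) ↔ φ.relabel (Sum.map id σ) ∈ tp L e' (f' ∘ c) := by
  choose h h1 h2 using Low_pre (Φ := Φ) f hf
  choose h' h1' h2' using Low_pre (Φ := Φ) f' hf'
  let g : sol Φ N ≃ sol Φ N' :=
    { toFun := fun x => ⟨f' (h x), Low_sol f' (h2 x)⟩
      invFun := fun y => ⟨f (h' y), Low_sol f (h2' y)⟩
      left_inv := by
        intro x
        apply Subtype.ext
        have h3 : h' ⟨f' (h x), Low_sol f' (h2 x)⟩ = h x := f'.injective (h1' _)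
        show f (h' ⟨f' (h x), Low_sol f' (h2 x)⟩) = x
        rw [h3, h1]
      right_inv := by
        intro y
        apply Subtype.ext
        have h3 : h ⟨f (h' y), Low_sol f (h2' y)⟩ = h' y := f.injective (h1 _)
        show f' (h ⟨f (h' y), Low_sol f (h2' y)⟩) = y
        rw [h3, h1'] }
  have hg : Elem L g := by
    intro φ
    have h3 : (fun x : sol Φ N => (x : N)) = f ∘ h := by
      funext x
      exact (h1 x).symm
    have h4 : (fun x : sol Φ N => ((g x : sol Φ N') : N')) = f' ∘ h := rfl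
    rw [h3, h4, f.map_formula, f'.map_formula]
  refine ⟨(e.trans g).trans e'.symm, (he.trans hg).trans he'.symm, fun φ => ?_⟩
  rw [mem_tp_relabel, mem_tp]
  have h3 : (Sum.elim (f ∘ c) (fun x => ((e x : sol Φ N) : N))) =
      f ∘ Sum.elim c (fun x => h (e x)) := by
    funext x
    rcases x with x | x
    · rfl
    · exact (h1 _).symm
  have h4 : (Sum.elim (f' ∘ c) (fun x => ((e' x : sol Φ N') : N'))) ∘
      Sum.map id ((e.trans g).trans e'.symm) = f' ∘ Sum.elim c (fun x => h (e x)) := by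
    funext x
    rcases x with x | x
    · rfl
    · show ((e' (e'.symm (g (e x))) : sol Φ N') : N') = f' (h (e x))
      rw [Equiv.apply_symm_apply]
      rfl
  rw [h3, h4, f.map_formula, f'.map_formula]

/-- the range of an elementary embedding -/
private theorem Low_range {P N : Type} [L.Structure P] [L.Structure N] (f : P ↪ₑ[L] N) :
    ∃ (A : L.ElementarySubstructure N) (h : P ≃[L] A), (∀ x, ((h x : A) : N) = f x) ∧
      (A : Set N) = Set.range f := by
  let g : P ↪[L] N := f.toEmbedding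
  have hg : ∀ x, ((g.equivRange x : g.toHom.range) : N) = f x := fun x => rfl
  refine ⟨⟨g.toHom.range, ?_⟩, g.equivRange, hg, ?_⟩
  · intro n φ x
    have h1 : (fun i => g.equivRange (g.equivRange.symm (x i))) = x := by
      funext i
      exact g.equivRange.toEquiv.apply_symm_apply (x i)
    have h2 : (Subtype.val ∘ x : Fin n → N) = f ∘ fun i => g.equivRange.symm (x i) := by
      funext i
      show ((x i : g.toHom.range) : N) = f (g.equivRange.symm (x i))
      rw [← hg]
      exact congrArg _ (congrFun h1 i).symm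
    have h3 := StrongHomClass.realize_formula g.equivRange φ (v := fun i => g.equivRange.symm (x i))
    have h4 : g.equivRange ∘ (fun i => g.equivRange.symm (x i)) = x := h1
    rw [h4] at h3
    rw [h2, f.map_formula]
    exact h3.symm
  · ext y
    constructor
    · rintro ⟨x, rfl⟩
      exact ⟨x, rfl⟩
    · rintro ⟨x, rfl⟩
      exact ⟨x, rfl⟩

/-- one embedding whose range misses an element of the solution set -/
private theorem Low_one {δ : Ordinal.{0}} {p q : Pt Φ M} (hp : Function.Surjective p.v)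
    (f : p.N.mod ↪ₑ[L] q.N.mod)
    (hf : ∀ n, ∀ γ < δ, E Φ γ (pr n p.v (fun i => f (p.v i))))
    (hns : ¬ (sol Φ q.N.mod ⊆ Set.range f)) :
    ∃ (N : KQ Φ M) (A : L.ElementarySubstructure N.mod), ¬ (sol Φ N.mod ⊆ (A : Set N.mod)) ∧
      ∀ γ < δ, ∀ (m : ℕ) (b : ℕ → A), E Φ γ (pr m b (fun i => ((b i : A) : N.mod))) := by
  obtain ⟨A, h, hh, hA⟩ := Low_range f
  refine ⟨q.N, A, by rwa [hA], fun γ hγ m b => ?_⟩
  choose σ hσ using fun i => hp (h.symm (b i))
  have hb : ∀ i, h (p.v (σ i)) = b i := by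
    intro i
    rw [hσ]
    exact h.toEquiv.apply_symm_apply (b i)
  have h1 : E Φ γ (pr m b (p.v ∘ σ)) := by
    apply E_of_equiv h.symm
    rintro _ ⟨i, -, rfl⟩
    exact (hσ i).symm
  refine E.comp h1 (hf ((Finset.range m).sup σ + 1) γ hγ) ?_
  rintro _ ⟨i, hi, rfl⟩
  refine ⟨p.v (σ i), ⟨i, hi, rfl⟩, ⟨σ i, ?_, ?_⟩⟩
  · exact Nat.lt_succ_of_le (Finset.le_sup (f := σ) (Finset.mem_range.2 hi))
  · show (p.v (σ i), ((b i : A) : q.N.mod)) = (p.v (σ i), f (p.v (σ i)))
    rw [← hh, hb]

/-- `GoodPseudotype Φ M` is uncountable, so there are `k` and uncountably many good pseudotypes of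
`k`-tuples; choose representatives `(N, e, a)`.  By `hc` for `k` two different ones are equivalent of
rank `δ` (extend the tuples to sequences).  Take the atomic model `p` for one of them
(`exists_atomic`) and its embeddings into both (`exists_emb`); by `pseudo_eq` one of the two
ranges does not contain the solution set of `Φ`.  Its range is the `ElementarySubstructure`; for
`b : ℕ → A` use that `f` is an isomorphism of `p.N.mod` with its range, `E_of_equiv`, and the second
part of `exists_emb` (`b i = f (p.v (σ i))`, `pr_comp`, for a large `n`). -/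
theorem exists_small [Countable L.Symbols] {δ : Ordinal.{0}} (hδ : δ < ω₁) (hδ0 : 0 < δ)
    (hlim : ∀ β < δ, β + 1 < δ) (hc : ∀ n, Countable (Cls Φ M δ n))
    (hunc : ¬ Countable (GoodPseudotype Φ M)) :
    ∃ (N : KQ Φ M) (A : L.ElementarySubstructure N.mod), ¬ (sol Φ N.mod ⊆ (A : Set N.mod)) ∧
      ∀ γ < δ, ∀ (m : ℕ) (b : ℕ → A), E Φ γ (pr m b (fun i => ((b i : A) : N.mod))) := by
  classical
  obtain ⟨k, hk⟩ : ∃ k, ¬ Countable (Quotient (pseudoSetoid Φ M k)) := by
    by_contra hcon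
    push Not at hcon
    apply hunc
    have hcon' := hcon
    unfold GoodPseudotype
    infer_instance
  -- a representative of a pseudotype
  have hrep : ∀ c : Quotient (pseudoSetoid Φ M k), ∃ (P : Pt Φ M)
      (e : sol Φ M ≃ sol Φ P.N.mod) (hg : IsGood Φ M k (tp L e (fun i : Fin k => P.v i))),
      Elem L e ∧ c = Quotient.mk (pseudoSetoid Φ M k) ⟨_, hg⟩ := by
    intro c
    induction c using Quotient.inductionOn with
    | h c =>
      obtain ⟨c, hc'⟩ := c
      obtain ⟨N, e, a, he, hpa⟩ := id hc'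
      have ha : (fun i : Fin k => (fun j : ℕ => if h : j < k then a ⟨j, h⟩ else
          Classical.arbitrary N) (i : ℕ)) = a := by
        funext i
        simp
      subst hpa
      refine ⟨⟨⟨N, ⟨e, he⟩⟩, fun j => if h : j < k then a ⟨j, h⟩ else Classical.arbitrary N⟩, e,
        ?_, he, ?_⟩
      · show IsGood Φ M k (tp L e (fun i : Fin k => (fun j : ℕ => if h : j < k then a ⟨j, h⟩ else
          Classical.arbitrary N) (i : ℕ)))
        rw [ha]
        exact hc'
      · congr 1
        apply Subtype.ext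
        show tp L e a = tp L e (fun i : Fin k => (fun j : ℕ => if h : j < k then a ⟨j, h⟩ else
          Classical.arbitrary N) (i : ℕ))
        rw [ha]
  choose P e hg he hcl using hrep
  obtain ⟨c₁, c₂, hne, hE⟩ : ∃ c₁ c₂, c₁ ≠ c₂ ∧ Eqv δ k (P c₁) (P c₂) := by
    by_contra hcon
    push Not at hcon
    apply hk
    have hck : Countable (Quotient (eqvSetoid Φ M δ k)) := hc k
    have hinj : Function.Injective
        (fun c => (Quotient.mk (eqvSetoid Φ M δ k) (P c) : Cls Φ M δ k)) := by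
      intro c₁ c₂ h12
      by_contra hne
      exact hcon c₁ c₂ hne (Quotient.exact h12)
    exact hinj.countable
  obtain ⟨p, hp, hp1⟩ := exists_atomic hδ hδ0 hlim hc k (P c₁)
  have hp2 : ∀ γ < δ, Eqv γ k p (P c₂) := fun γ hγ =>
    (hp1 γ hγ).trans (hE.mono hγ.le le_rfl)
  obtain ⟨f₁, hf₁, hF₁⟩ := exists_emb hδ0 hlim hp hp1
  obtain ⟨f₂, hf₂, hF₂⟩ := exists_emb hδ0 hlim hp hp2
  by_cases hs1 : sol Φ (P c₁).N.mod ⊆ Set.range f₁
  · by_cases hs2 : sol Φ (P c₂).N.mod ⊆ Set.range f₂
    · exfalso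
      apply hne
      obtain ⟨σ, hσ, hσ2⟩ := pseudo_eq f₁ f₂ hs1 hs2 (e c₁) (he c₁) (e c₂) (he c₂)
        (fun i : Fin k => p.v i)
      have h1 : f₁ ∘ (fun i : Fin k => p.v i) = fun i : Fin k => (P c₁).v i := by
        funext i
        exact hf₁ i i.2
      have h2 : f₂ ∘ (fun i : Fin k => p.v i) = fun i : Fin k => (P c₂).v i := by
        funext i
        exact hf₂ i i.2
      rw [h1, h2] at hσ2
      rw [hcl c₁, hcl c₂]
      apply Quotient.sound
      exact ⟨σ, hσ, hσ2⟩
    · exact Low_one hp.1 f₂ hF₂ hs2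
  · exact Low_one hp.1 f₁ hF₁ hs1

end Pool.Agent.Helper22.PT
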