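import Pool.Agent.Helper22.PT.Low
import Pool.Agent.Helper22.PT.Count
import Pool.Agent.Helper22.PT.Bound

/-!
# The structure of counterexamples to Q1
-/

namespace Pool.Agent.Helper22.PT

open FirstOrder Language Cardinal Ordinal Pool.Agent.Helper85.VC

variable {L : FirstOrder.Language.{0, 0}} {T : L.Theory} {Φ : ℕ → Set (L.Formula (Fin 1))}
  {M : CModel T}

theorem numK_le (Φ : ℕ → Set (L.Formula (Fin 1))) (M : CModel T) : numK Φ M ≤ numModels T := by
  let f : Quotient (kIso Φ M) → Quotient (isoSetoid T) :=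
    Quotient.map' (s₁ := kIso Φ M) (s₂ := isoSetoid T) (fun N : KQ Φ M => N.mod) fun _ _ h => h
  refine Cardinal.mk_le_of_injective (f := f) ?_
  intro x y
  induction x using Quotient.inductionOn with
  | h x =>
    induction y using Quotient.inductionOn with
    | h y =>
      intro h
      exact Quotient.sound (s := kIso Φ M) (Quotient.exact (s := isoSetoid T) h)

/-- the range of an elementary embedding -/
theorem exists_range {P N : Type} [L.Structure P] [L.Structure N] (f : P ↪ₑ[L] N) :
    ∃ (A : L.ElementarySubstructure N) (h : P ≃[L] A), (∀ x, ((h x : A) : N) = f x) ∧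
      (A : Set N) = Set.range f := by
  let g : P ↪[L] N := f.toEmbedding
  have hg : ∀ x, ((g.equivRange x : g.toHom.range) : N) = f x := fun x => rfl
  refine ⟨⟨g.toHom.range, ?_⟩, g.equivRange, hg, ?_⟩
  · intro n φ x
    have h1 : (fun i => g.equivRange (g.equivRange.symm (x i))) = x := by
      funext i
      exact g.equivRange.toEquiv.apply_symm_apply (x i)
    have h2 : (Subtype.val ∘ x : Fin n → N) = f ∘ fun i => g.equivRange.symm (x i) := by
      funext i
      show ((x i : g.toHom.range) : N) = f (g.equivRange.symm (x i))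
      rw [← hg]
      exact congrArg _ (congrFun h1 i).symm
    have h3 := StrongHomClass.realize_formula g.equivRange φ (v := fun i => g.equivRange.symm (x i))
    have h4 : g.equivRange ∘ (fun i => g.equivRange.symm (x i)) = x := h1
    rw [h4] at h3
    rw [h2, f.map_formula]
    exact h3.symm
  · ext y
    constructor
    · rintro ⟨x, rfl⟩
      exact ⟨x, rfl⟩
    · rintro ⟨x, rfl⟩
      exact ⟨x, rfl⟩

theorem structure_thm [Countable L.Symbols] (hfew : numK Φ M < 𝔠)
    (hunc : ¬ Countable (GoodPseudotype Φ M)) :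
    ∃ (N : KQ Φ M) (A : L.ElementarySubstructure N.mod), ¬ (sol Φ N.mod ⊆ (A : Set N.mod)) ∧
      ∀ (m : ℕ) (b : Fin m → A), ∃ g : A ≃[L] N.mod, ∀ i, g (b i) = ((b i : A) : N.mod) := by
  refine bounding (fun m => countable_cls hfew (by exact omega_pos 1) m) fun γ hγ => ?_
  have hδ : γ + ω < ω₁ := (Ordinal.isPrincipal_add_omega 1) hγ omega0_lt_omega_one
  have hlim : Order.IsSuccLimit (γ + ω) := Ordinal.isSuccLimit_add γ isSuccLimit_omega0
  have hlt : γ < γ + ω := lt_add_of_pos_right γ omega0_pos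
  obtain ⟨N, A, h1, h2⟩ := exists_small hδ (lt_of_le_of_lt (bot_le : (0 : Ordinal.{0}) ≤ γ) hlt)
    (fun β hβ => by
      rw [← Order.succ_eq_add_one]
      exact hlim.succ_lt hβ) (fun n => countable_cls hfew hδ n) hunc
  exact ⟨N, A, h1, h2 γ hlt⟩

/-- Every finite tuple of `N` lies in such a substructure. -/
theorem structure_all [Countable L.Symbols] (hfew : numK Φ M < 𝔠)
    (hunc : ¬ Countable (GoodPseudotype Φ M)) :
    ∃ N : KQ Φ M, ∀ (n : ℕ) (a : Fin n → N.mod), ∃ A : L.ElementarySubstructure N.mod,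
      (∀ i, a i ∈ A) ∧ ¬ (sol Φ N.mod ⊆ (A : Set N.mod)) ∧
      ∀ (m : ℕ) (b : Fin m → A), ∃ g : A ≃[L] N.mod, ∀ i, g (b i) = ((b i : A) : N.mod) := by
  obtain ⟨N, A, h1, h2⟩ := structure_thm hfew hunc
  refine ⟨N, fun n a => ?_⟩
  obtain ⟨g, -⟩ := h2 0 (fun i => i.elim0)
  obtain ⟨g', hg'⟩ := h2 n (fun i => g.symm (a i))
  let F : N.mod ≃[L] N.mod := g.comp g'.symm
  have hF : ∀ i, F ((g.symm (a i) : A) : N.mod) = a i := by
    intro i
    show g (g'.symm ((g.symm (a i) : A) : N.mod)) = a i
    rw [← hg' i]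
    have h3 : g'.symm (g' (g.symm (a i))) = g.symm (a i) := g'.toEquiv.symm_apply_apply _
    rw [h3]
    exact g.toEquiv.apply_symm_apply (a i)
  let f : A ↪ₑ[L] N.mod := F.toElementaryEmbedding.comp A.subtype
  have hf : ∀ x : A, f x = F (x : N.mod) := fun x => rfl
  obtain ⟨A', h, hh, hA'⟩ := exists_range f
  refine ⟨A', fun i => ?_, ?_, fun m b => ?_⟩
  · show a i ∈ (A' : Set N.mod)
    rw [hA']
    exact ⟨g.symm (a i), hF i⟩
  · rw [hA']
    intro hs
    apply h1
    intro x hx
    have h3 : F x ∈ sol Φ N.mod := (sol_equiv F x).2 hx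
    obtain ⟨y, hy⟩ := hs h3
    rw [hf] at hy
    have h4 : (y : N.mod) = x := F.injective hy
    rw [← h4]
    exact y.2
  · obtain ⟨k, hk⟩ := h2 m (fun i => h.symm (b i))
    refine ⟨F.comp (k.comp h.symm), fun i => ?_⟩
    show F (k (h.symm (b i))) = ((b i : A') : N.mod)
    rw [hk i]
    have h3 := hh (h.symm (b i))
    rw [hf] at h3
    rw [← h3]
    congr 1
    exact h.toEquiv.apply_symm_apply (b i)

/-! ## Elementary bijections between subsets -/

/-- The bijection `σ` between the subsets `Y` of `N` and `Z` of `N'` together with the map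
`a i ↦ a' i` is elementary. -/
def ElemOver (L : FirstOrder.Language.{0, 0}) {N N' : Type} [L.Structure N] [L.Structure N']
    {n : ℕ} (a : Fin n → N) (a' : Fin n → N') {Y : Set N} {Z : Set N'} (σ : Y ≃ Z) : Prop :=
  ∀ φ : L.Formula (Fin n ⊕ Y), φ.Realize (Sum.elim a fun y => (y : N)) ↔
    φ.Realize (Sum.elim a' fun y => (σ y : N'))

theorem ElemOver.refl {N : Type} [L.Structure N] {n : ℕ} (a : Fin n → N) (Y : Set N) :
    ElemOver L a a (Equiv.refl Y) := fun _ => Iff.rfl

section elemOver

variable {N N' N'' : Type} [L.Structure N] [L.Structure N'] [L.Structure N''] {n : ℕ}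
  {a : Fin n → N} {a' : Fin n → N'} {a'' : Fin n → N''} {Y : Set N} {Z : Set N'} {W : Set N''}

theorem ElemOver.trans {σ : Y ≃ Z} {τ : Z ≃ W} (h : ElemOver L a a' σ)
    (h' : ElemOver L a' a'' τ) : ElemOver L a a'' (σ.trans τ) := by
  intro φ
  have h2 := h' (φ.relabel (Sum.map id σ))
  simp only [Formula.realize_relabel] at h2
  have e1 : (Sum.elim a' fun y : Z => (y : N')) ∘ Sum.map id σ =
      Sum.elim a' fun y : Y => (σ y : N') := by
    funext x
    rcases x with x | x <;> rfl
  have e2 : (Sum.elim a'' fun y : Z => (τ y : N'')) ∘ Sum.map id σ =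
      Sum.elim a'' fun y : Y => ((σ.trans τ) y : N'') := by
    funext x
    rcases x with x | x <;> rfl
  rw [e1, e2] at h2
  exact (h φ).trans h2

theorem ElemOver.symm {σ : Y ≃ Z} (h : ElemOver L a a' σ) : ElemOver L a' a σ.symm := by
  intro φ
  have h2 := h (φ.relabel (Sum.map id σ.symm))
  simp only [Formula.realize_relabel] at h2
  have e1 : (Sum.elim a fun y : Y => (y : N)) ∘ Sum.map id σ.symm =
      Sum.elim a fun y : Z => (σ.symm y : N) := by
    funext x
    rcases x with x | x <;> rfl
  have e2 : (Sum.elim a' fun y : Y => (σ y : N')) ∘ Sum.map id σ.symm =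
      Sum.elim a' fun y : Z => (y : N') := by
    funext x
    rcases x with x | x
    · rfl
    · show ((σ (σ.symm x) : Z) : N') = x
      rw [Equiv.apply_symm_apply]
  rw [e1, e2] at h2
  exact h2.symm

end elemOver

/-- the empty tuple -/
def emp (N : Type) : Fin 0 → N := fun i => i.elim0

theorem elemOver_of_elem {N N' : Type} [L.Structure N] [L.Structure N'] {Y : Set N} {Z : Set N'}
    {σ : Y ≃ Z} (h : Elem L σ) : ElemOver L (emp N) (emp N') σ := by
  intro φ
  have h2 := h (φ.relabel (Sum.elim (fun i : Fin 0 => i.elim0) id))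
  rw [Formula.realize_relabel, Formula.realize_relabel] at h2
  have e1 : (fun x : Y => (x : N)) ∘ (Sum.elim (fun i : Fin 0 => i.elim0) id) =
      Sum.elim (emp N) fun y : Y => (y : N) := by
    funext x
    rcases x with x | x
    · exact x.elim0
    · rfl
  have e2 : (fun x : Y => (σ x : N')) ∘ (Sum.elim (fun i : Fin 0 => i.elim0) id) =
      Sum.elim (emp N') fun y : Y => (σ y : N') := by
    funext x
    rcases x with x | x
    · exact x.elim0
    · rfl
  rw [e1, e2] at h2
  exact h2

/-- The subset `X` of `N` has no proper subset `Y` such that every finite tuple `b` of `Y` is fixed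
by a bijection `Y → X` that is elementary over the tuple `a` (that is, with the structure induced
over `a`, `X` has no proper `L_∞ω`-elementary substructure). -/
def NoProper (L : FirstOrder.Language.{0, 0}) {N : Type} [L.Structure N] {n : ℕ} (a : Fin n → N)
    (X : Set N) : Prop :=
  ∀ Y : Set N, Y ⊆ X → (∀ (m : ℕ) (b : Fin m → Y), ∃ σ : Y ≃ X, ElemOver L a a σ ∧
    ∀ i, ((σ (b i) : X) : N) = b i) → Y = X

/-- The group of the permutations of the set `X` in `N` that are elementary over the tuple `a`. -/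
def AutOver (L : FirstOrder.Language.{0, 0}) {N : Type} [L.Structure N] {n : ℕ} (a : Fin n → N)
    (X : Set N) : Subgroup (Equiv.Perm X) where
  carrier := {σ | ElemOver L a a σ}
  mul_mem' := fun h h' => ElemOver.trans h' h
  one_mem' := ElemOver.refl a X
  inv_mem' := fun h => ElemOver.symm h

/-- The permutation group `G` on `X`, with the topology of pointwise convergence (`X` is
discrete), has a compatible complete left-invariant metric. -/
def Cli {X : Type} (G : Subgroup (Equiv.Perm X)) : Prop :=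
  ∃ m : MetricSpace G,
    m.toUniformSpace.toTopologicalSpace =
      TopologicalSpace.induced (fun (g : G) (x : X) => (g : Equiv.Perm X) x)
        (@Pi.topologicalSpace X (fun _ => X) fun _ => ⊥) ∧
    (∀ g h k : G, m.dist (g * h) (g * k) = m.dist h k) ∧ @CompleteSpace G m.toUniformSpace

open Filter Topology in
/-- In a cli permutation group, if a function `j` agrees on each finite set with an element of the
group then it is surjective. -/
theorem Cli.surj {X : Type} [Countable X] {G : Subgroup (Equiv.Perm X)} (hG : Cli G) (j : X → X)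
    (hj : ∀ s : Finset X, ∃ g ∈ G, ∀ x ∈ s, g x = j x) : Function.Surjective j := by
  classical
  rcases isEmpty_or_nonempty X with hX | hX
  · intro x
    exact hX.elim x
  obtain ⟨m, htop, hinv, hcomp⟩ := hG
  obtain ⟨q, hq⟩ := exists_surjective_nat X
  let tX : TopologicalSpace X := ⊥
  have hX' : DiscreteTopology X := ⟨rfl⟩
  have hn : ∀ g : G, @nhds G m.toUniformSpace.toTopologicalSpace g =
      Filter.comap (fun (g : G) (x : X) => (g : Equiv.Perm X) x)
        (𝓝 (fun x => (g : Equiv.Perm X) x)) := by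
    intro g
    rw [htop]
    exact nhds_induced _ g
  choose g hgG hg using fun n : ℕ => hj ((Finset.range n).image q)
  have hg' : ∀ i n, i < n → g n (q i) = j (q i) := fun i n hi =>
    hg n (q i) (Finset.mem_image.2 ⟨i, Finset.mem_range.2 hi, rfl⟩)
  let u : ℕ → G := fun n => ⟨g n, hgG n⟩
  have hball : ∀ ε : ℝ, 0 < ε → ∃ s : Finset X, ∀ h : G, (∀ x ∈ s, (h : Equiv.Perm X) x = x) →
      dist (1 : G) h < ε := by
    intro ε hε
    have h1 : {h : G | dist (1 : G) h < ε} ∈ @nhds G m.toUniformSpace.toTopologicalSpace 1 := by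
      have h2 := Metric.ball_mem_nhds (1 : G) hε
      refine Filter.mem_of_superset h2 ?_
      intro h hh
      rw [Metric.mem_ball, dist_comm] at hh
      exact hh
    rw [hn, Filter.mem_comap] at h1
    obtain ⟨V, hV, hVs⟩ := h1
    rw [nhds_pi, Filter.mem_pi'] at hV
    obtain ⟨s, W, hW, hWV⟩ := hV
    refine ⟨s, fun h hh => ?_⟩
    apply hVs
    apply hWV
    intro x hx
    have h3 := mem_of_mem_nhds (hW x)
    show (h : Equiv.Perm X) x ∈ W x
    rw [hh x hx]
    exact h3
  have hcau : CauchySeq u := by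
    rw [Metric.cauchySeq_iff]
    intro ε hε
    obtain ⟨s, hs⟩ := hball ε hε
    choose r hr using hq
    refine ⟨s.sup r + 1, fun a ha b hb => ?_⟩
    have h1 : dist (u a) (u b) = dist (1 : G) ((u a)⁻¹ * u b) := by
      have h2 := hinv (u a) 1 ((u a)⁻¹ * u b)
      rw [mul_one, mul_inv_cancel_left] at h2
      exact h2
    rw [h1]
    apply hs
    intro x hx
    have h2 : r x < s.sup r + 1 := Nat.lt_succ_of_le (Finset.le_sup hx)
    have h3 := hg' (r x) a (lt_of_lt_of_le h2 ha)
    have h4 := hg' (r x) b (lt_of_lt_of_le h2 hb)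
    rw [hr] at h3 h4
    show (g a)⁻¹ (g b x) = x
    rw [h4, ← h3]
    exact Equiv.symm_apply_apply (g a) x
  obtain ⟨l, hl⟩ := cauchySeq_tendsto_of_complete hcau
  have hlj : ∀ x, (l : Equiv.Perm X) x = j x := by
    intro x
    rw [hn, Filter.tendsto_comap_iff, tendsto_pi_nhds] at hl
    have h1 := hl x
    rw [nhds_discrete, tendsto_pure] at h1
    obtain ⟨i, rfl⟩ := hq x
    obtain ⟨n, hn1, hn2⟩ := (h1.and (Filter.eventually_gt_atTop i)).exists
    have h2 := hg' i n hn2
    rw [← h2]
    exact hn1.symm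
  intro y
  obtain ⟨x, hx⟩ := (l : Equiv.Perm X).surjective y
  exact ⟨x, by rw [← hlj, hx]⟩

/-- The group of the permutations of `X` elementary over `a` being cli implies `NoProper`. -/
theorem noProper_of_cli {N : Type} [L.Structure N] [Countable N] {n : ℕ} (a : Fin n → N)
    (X : Set N) (h : Cli (AutOver L a X)) : NoProper L a X := by
  classical
  intro Y hY hb
  obtain ⟨g, hg, -⟩ := hb 0 (fun i => i.elim0)
  let j : X → X := fun x => ⟨(g.symm x : Y), hY (g.symm x).2⟩
  have key : Function.Surjective j := by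
    refine h.surj j fun s => ?_
    obtain ⟨m, c, hc⟩ : ∃ (m : ℕ) (c : Fin m → X), ∀ x ∈ s, ∃ i, c i = x := by
      refine ⟨s.card, fun i => (s.equivFin.symm i : X), fun x hx => ⟨s.equivFin ⟨x, hx⟩, ?_⟩⟩
      show ((s.equivFin.symm (s.equivFin ⟨x, hx⟩) : s) : X) = x
      rw [Equiv.symm_apply_apply]
    obtain ⟨g', hg', hg2⟩ := hb m fun i => g.symm (c i)
    refine ⟨g.symm.trans g', ElemOver.trans hg.symm hg', fun x hx => ?_⟩
    obtain ⟨i, rfl⟩ := hc x hx
    exact Subtype.ext (hg2 i)
  apply Set.Subset.antisymm hY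
  intro x hx
  obtain ⟨y, hy⟩ := key ⟨x, hx⟩
  have h2 : ((g.symm y : Y) : N) = x := congrArg Subtype.val hy
  rw [← h2]
  exact (g.symm y).2

/-- Let `A` be an elementary substructure of `N` with `Φ(N) ⊄ A` that contains the tuple `a` and is
isomorphic to `N` over each of its finite subsets. Then `Φ(N)` does not have the property
`NoProper` over `a`. -/
theorem not_noProper {N : Type} [L.Structure N] (A : L.ElementarySubstructure N) {n : ℕ}
    (a : Fin n → N) (ha : ∀ i, a i ∈ A) (hA : ¬ (sol Φ N ⊆ (A : Set N)))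
    (hb : ∀ (m : ℕ) (b : Fin m → A), ∃ g : A ≃[L] N, ∀ i, g (b i) = ((b i : A) : N)) :
    ¬ NoProper L a (sol Φ N) := by
  intro h
  have hsol : ∀ x : A, (x : N) ∈ sol Φ N ↔ x ∈ sol Φ A := by
    intro x
    simp only [sol, Set.mem_ofPred_eq]
    refine exists_congr fun i => forall₂_congr fun φ _ => ?_
    exact A.subtype.map_formula φ (fun _ => x)
  have h1 : sol Φ N ∩ (A : Set N) = sol Φ N := by
    refine h _ Set.inter_subset_left fun m b => ?_
    obtain ⟨g, hg⟩ := hb (n + m) (Fin.append (fun i => ⟨a i, ha i⟩)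
      fun i => ⟨(b i : N), (b i).2.2⟩)
    have hga : ∀ i, g ⟨a i, ha i⟩ = a i := by
      intro i
      have h2 := hg (Fin.castAdd m i)
      rwa [Fin.append_left] at h2
    have hgb : ∀ i, g ⟨(b i : N), (b i).2.2⟩ = (b i : N) := by
      intro i
      have h2 := hg (Fin.natAdd n i)
      rwa [Fin.append_right] at h2
    let σ : (sol Φ N ∩ (A : Set N) : Set N) ≃ sol Φ N :=
      { toFun := fun y => ⟨g ⟨y, y.2.2⟩, (sol_equiv g _).2 ((hsol _).1 y.2.1)⟩
        invFun := fun x => ⟨(g.symm (x : N) : A),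
          (hsol _).2 ((sol_equiv g.symm _).2 x.2), (g.symm (x : N)).2⟩
        left_inv := by
          intro y
          apply Subtype.ext
          show ((g.symm (g ⟨y, y.2.2⟩) : A) : N) = y
          have h2 : g.symm (g ⟨y, y.2.2⟩) = ⟨y, y.2.2⟩ := g.toEquiv.symm_apply_apply _
          rw [h2]
        right_inv := by
          intro x
          apply Subtype.ext
          exact g.toEquiv.apply_symm_apply (x : N) }
    refine ⟨σ, fun φ => ?_, fun i => hgb i⟩
    have h3 := A.subtype.map_formula φ (Sum.elim (fun i => (⟨a i, ha i⟩ : A))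
      fun y : (sol Φ N ∩ (A : Set N) : Set N) => (⟨y, y.2.2⟩ : A))
    have h4 := StrongHomClass.realize_formula g φ
      (v := Sum.elim (fun i => (⟨a i, ha i⟩ : A))
        fun y : (sol Φ N ∩ (A : Set N) : Set N) => (⟨y, y.2.2⟩ : A))
    have e1 : A.subtype ∘ (Sum.elim (fun i => (⟨a i, ha i⟩ : A))
        fun y : (sol Φ N ∩ (A : Set N) : Set N) => (⟨y, y.2.2⟩ : A)) =
        Sum.elim a fun y : (sol Φ N ∩ (A : Set N) : Set N) => (y : N) := by
      funext x
      rcases x with x | x <;> rfl
    have e2 : g ∘ (Sum.elim (fun i => (⟨a i, ha i⟩ : A))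
        fun y : (sol Φ N ∩ (A : Set N) : Set N) => (⟨y, y.2.2⟩ : A)) =
        Sum.elim a fun y : (sol Φ N ∩ (A : Set N) : Set N) => ((σ y : sol Φ N) : N) := by
      funext x
      rcases x with x | x
      · exact hga x
      · rfl
    rw [e1] at h3
    rw [e2] at h4
    exact h3.trans h4.symm
  apply hA
  intro x hx
  rw [← h1] at hx
  exact hx.2

/-- Transfer along an elementary bijection. -/
theorem NoProper.transfer {N N' : Type} [L.Structure N] [L.Structure N'] {X : Set N} {X' : Set N'}
    (e : X ≃ X') (he : Elem L e) (h : NoProper L (emp N) X) : NoProper L (emp N') X' := by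
  intro Y' hY' hb
  let Y : Set N := {x | ∃ h : x ∈ X, ((e ⟨x, h⟩ : X') : N') ∈ Y'}
  have hY : Y ⊆ X := fun x hx => hx.1
  let eY : Y ≃ Y' :=
    { toFun := fun y => ⟨(e ⟨y, y.2.1⟩ : X'), y.2.2⟩
      invFun := fun z => ⟨(e.symm ⟨z, hY' z.2⟩ : X), (e.symm ⟨z, hY' z.2⟩).2, by
        show ((e (e.symm ⟨z, hY' z.2⟩) : X') : N') ∈ Y'
        rw [Equiv.apply_symm_apply]
        exact z.2⟩
      left_inv := by
        intro y
        apply Subtype.ext
        show ((e.symm (e ⟨y, y.2.1⟩) : X) : N) = y
        rw [Equiv.symm_apply_apply]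
      right_inv := by
        intro z
        apply Subtype.ext
        show ((e (e.symm ⟨z, hY' z.2⟩) : X') : N') = z
        rw [Equiv.apply_symm_apply] }
  have heY : Elem L eY := by
    intro φ
    have h2 := he (φ.relabel fun y : Y => (⟨y, y.2.1⟩ : X))
    rw [Formula.realize_relabel, Formula.realize_relabel] at h2
    exact h2
  have h1 : Y = X := by
    refine h Y hY fun m b => ?_
    obtain ⟨σ, hσ, hσ2⟩ := hb m fun i => eY (b i)
    refine ⟨eY.trans (σ.trans e.symm), (elemOver_of_elem heY).trans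
      (hσ.trans (elemOver_of_elem he.symm)), fun i => ?_⟩
    show ((e.symm (σ (eY (b i))) : X) : N) = b i
    have h2 : σ (eY (b i)) = e ⟨b i, (b i).2.1⟩ := Subtype.ext (hσ2 i)
    rw [h2, Equiv.symm_apply_apply]
  apply Set.Subset.antisymm hY'
  intro z hz
  have h2 : ((e.symm ⟨z, hz⟩ : X) : N) ∈ Y := by
    rw [h1]
    exact (e.symm ⟨z, hz⟩).2
  have h3 : ((e (e.symm ⟨z, hz⟩) : X') : N') ∈ Y' := h2.2
  rw [Equiv.apply_symm_apply] at h3
  exact h3

/-- The case of the empty tuple, in terms of `Q`. -/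
theorem countable_of_noProper [Countable L.Symbols] (hfew : numK Φ M < 𝔠)
    (h : NoProper L (emp M) (sol Φ M)) : Countable (GoodPseudotype Φ M) := by
  by_contra hunc
  obtain ⟨N, hN⟩ := structure_all hfew hunc
  obtain ⟨A, ha, hA, hb⟩ := hN 0 (emp N.mod)
  obtain ⟨e, he⟩ := N.ex
  exact not_noProper A _ ha hA hb (h.transfer e he)

end Pool.Agent.Helper22.PT
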