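import Pool.Agent.Helper22.PT.Code

/-!
# The standard Borel space of codes
-/

namespace Pool.Agent.Helper22.PT

open FirstOrder Language Cardinal Ordinal Pool.Agent.Helper85.VC

variable {L : FirstOrder.Language.{0, 0}} {T : L.Theory} {Φ : ℕ → Set (L.Formula (Fin 1))}
  {M : CModel T}

instance : TopologicalSpace (Opt Φ M) := ⊥

instance : DiscreteTopology (Opt Φ M) := ⟨rfl⟩

instance : Countable (Opt Φ M) := inferInstanceAs (Countable (Option (sol Φ M)))

instance : MeasurableSpace (Opt Φ M) := borel _

instance : BorelSpace (Opt Φ M) := ⟨rfl⟩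

private theorem Meas_fst (φ : L.Formula ℕ) :
    Measurable fun w : (L.Formula ℕ → Bool) × (ℕ → Opt Φ M) => w.1 φ :=
  (measurable_pi_apply φ).comp measurable_fst

private theorem Meas_snd (i : ℕ) :
    Measurable fun w : (L.Formula ℕ → Bool) × (ℕ → Opt Φ M) => w.2 i :=
  (measurable_pi_apply i).comp measurable_snd

private theorem Meas_val (φ : L.Formula ℕ) (b : Bool) :
    MeasurableSet {w : (L.Formula ℕ → Bool) × (ℕ → Opt Φ M) | w.1 φ = b} :=
  (Meas_fst φ) (MeasurableSet.of_discrete (s := {b}))

private theorem Meas_opt (i : ℕ) (o : Opt Φ M) :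
    MeasurableSet {w : (L.Formula ℕ → Bool) × (ℕ → Opt Φ M) | w.2 i = o} :=
  (Meas_snd i) (MeasurableSet.of_discrete (s := {o}))

private theorem Meas_fin (F : Finset (L.Formula ℕ)) :
    MeasurableSet {w : (L.Formula ℕ → Bool) × (ℕ → Opt Φ M) |
      ∃ (N : CModel T) (v : ℕ → N), ∀ φ ∈ F, (w.1 φ = true ↔ φ.Realize v)} := by
  have h : Measurable fun (w : (L.Formula ℕ → Bool) × (ℕ → Opt Φ M)) (φ : F) => w.1 φ.1 :=
    measurable_pi_lambda _ fun φ => Meas_fst φ.1
  have h1 := h (MeasurableSet.of_discrete (s := {b : F → Bool |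
    ∃ (N : CModel T) (v : ℕ → N), ∀ φ : F, (b φ = true ↔ φ.1.Realize v)}))
  convert h1 using 1
  ext w
  simp only [Set.mem_ofPred_eq, Set.mem_preimage, Subtype.forall]

private theorem Meas_countable [Countable L.Symbols] : Countable (L.BoundedFormula ℕ 1) := by
  have h : Function.Injective fun φ : L.BoundedFormula ℕ 1 =>
      (⟨1, φ⟩ : Σ n, L.BoundedFormula ℕ n) := fun a b hab => by
    simpa using hab
  exact h.countable

/-- By `isCode_iff`: countable intersections and unions of sets that depend on finitely many
coordinates (for the first condition: for each finite set `F` the set of all `w` satisfying it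
depends only on the coordinates in `F`). -/
theorem measurableSet_isCode [Countable L.Symbols] (Φ : ℕ → Set (L.Formula (Fin 1)))
    (M : CModel T) : MeasurableSet {w | IsCode Φ M w} := by
  have hc : Countable (L.Formula ℕ) := inferInstance
  have hc1 : Countable (L.BoundedFormula ℕ 1) := Meas_countable
  simp only [isCode_iff, Set.ofPred_and]
  refine MeasurableSet.inter ?_ (MeasurableSet.inter ?_ (MeasurableSet.inter ?_
    (MeasurableSet.inter ?_ ?_)))
  · rw [Set.ofPred_forall]
    exact MeasurableSet.iInter fun F => Meas_fin F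
  · rw [Set.ofPred_forall]
    refine MeasurableSet.iInter fun φ => ?_
    refine (Meas_val φ.ex true).imp ?_
    rw [Set.ofPred_exists]
    exact MeasurableSet.iUnion fun m => Meas_val _ _
  · simp only [Set.ofPred_forall]
    refine MeasurableSet.iInter fun n => MeasurableSet.iInter fun φ =>
      MeasurableSet.iInter fun σ => MeasurableSet.iInter fun q => ?_
    refine MeasurableSet.imp ?_ ((Meas_val _ _).iff (MeasurableSet.const _))
    rw [Set.ofPred_forall]
    exact MeasurableSet.iInter fun i => Meas_opt _ _
  · rw [Set.ofPred_forall]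
    refine MeasurableSet.iInter fun i => (Meas_opt i none).imp ?_
    rw [Set.ofPred_forall]
    refine MeasurableSet.iInter fun j => ?_
    simp only [Set.ofPred_exists]
    refine MeasurableSet.iUnion fun φ => ?_
    exact (MeasurableSet.const _).inter (Meas_val _ _)
  · simp only [Set.ofPred_forall, Set.ofPred_exists]
    exact MeasurableSet.iInter fun q => MeasurableSet.iUnion fun i => Meas_opt _ _

/-- the type of codes -/
def Cd (Φ : ℕ → Set (L.Formula (Fin 1))) (M : CModel T) : Type :=
  {w : (L.Formula ℕ → Bool) × (ℕ → Opt Φ M) // IsCode Φ M w}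

instance : MeasurableSpace (Cd Φ M) :=
  inferInstanceAs (MeasurableSpace {w : (L.Formula ℕ → Bool) × (ℕ → Opt Φ M) // IsCode Φ M w})

instance [Countable L.Symbols] : StandardBorelSpace (Cd Φ M) := by
  have hc : Countable (L.Formula ℕ) := inferInstance
  exact MeasurableSet.standardBorel (measurableSet_isCode Φ M)

/-- the model with the given code -/
noncomputable def Cd.N (w : Cd Φ M) : CModel T := w.2.choose

/-- the elementary bijection -/
noncomputable def Cd.e (w : Cd Φ M) : sol Φ M ≃ sol Φ w.N := w.2.choose_spec.choose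

/-- the enumeration -/
noncomputable def Cd.x (w : Cd Φ M) : ℕ → w.N := w.2.choose_spec.choose_spec.choose

theorem Cd.spec (w : Cd Φ M) : Codes w.N w.e w.x w.1 :=
  w.2.choose_spec.choose_spec.choose_spec

/-- the enumerated model with the given code -/
noncomputable def Cd.pt (w : Cd Φ M) : Pt Φ M := ⟨⟨w.N, w.e, w.spec.1⟩, w.x⟩

end Pool.Agent.Helper22.PT
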