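import Pool.Agent.Helper22.PT.Defs

/-!
# A countable model from a Henkin diagram

`D` is a set of formulas in the variables `x₀, x₁, …` such that every finite piece of `D` and of
its complement is realised in a countable model of `T`, and such that every existential formula
in `D` has a witness among the `x_m`.  Then `D` is the set of formulas true in a countable model
of `T` enumerated by `x₀, x₁, …`.

Proof.  Compactness (`isSatisfiable_iff_isFinitelySatisfiable`) for the theory of `L[[ℕ]]`
consisting of `T` and the sentences `φ(c₀, c₁, …)`, `φ ∈ D`, gives a model `N*` and `x : ℕ → N*`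
with `D φ ↔ φ.Realize x` (for `φ ∉ D` use `φ.not ∈ D`, which follows from `h1` for the set
`{φ, φ.not}`).  By `h2` the set `range x` meets every nonempty set definable with parameters in
`range x`, so it is (the universe of) an elementary substructure (Tarski-Vaught, `MeetsDefinable`
or `Substructure.isElementary_of_exists`).
-/

namespace Pool.Agent.Helper22.PT

open FirstOrder Language Cardinal Ordinal Pool.Agent.Helper85.VC

variable {L : FirstOrder.Language.{0, 0}}

/-- the formula `φ(x, x_m)` -/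
def inst (φ : L.BoundedFormula ℕ 1) (m : ℕ) : L.Formula ℕ :=
  φ.toFormula.relabel (Sum.elim id fun _ => m)

theorem realize_inst {N : Type} [L.Structure N] (φ : L.BoundedFormula ℕ 1) (m : ℕ) (v : ℕ → N) :
    (inst φ m).Realize v ↔ φ.Realize v (fun _ => v m) := by
  unfold inst
  rw [Formula.realize_relabel, BoundedFormula.realize_toFormula]
  rfl

/-- the complete type of the diagram is realised -/
private theorem model_realised (T : L.Theory) (D : L.Formula ℕ → Prop)
    (h1 : ∀ F : Finset (L.Formula ℕ), ∃ (N : CModel T) (v : ℕ → N),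
      ∀ φ ∈ F, (D φ ↔ φ.Realize v)) :
    ∃ (M : Theory.ModelType.{0, 0, 0} T) (v : ℕ → M), ∀ φ, D φ ↔ φ.Realize v := by
  classical
  have key : ∀ F : Finset L[[ℕ]].Sentence, ∃ (N : CModel T) (v : ℕ → N),
      ∀ ψ ∈ F, (D (Formula.equivSentence.symm ψ) ↔ ψ ∈ T.typeOf v) := by
    intro F
    obtain ⟨N, v, h⟩ := h1 (F.image Formula.equivSentence.symm)
    refine ⟨N, v, fun ψ hψ => ?_⟩
    rw [Theory.CompleteType.mem_typeOf]
    exact h _ (Finset.mem_image_of_mem _ hψ)
  set P : L[[ℕ]].Theory := {ψ | D (Formula.equivSentence.symm ψ)} with hP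
  have hfin : P.IsFinitelySatisfiable := by
    intro T0 hT0
    obtain ⟨N, v, h⟩ := key T0
    refine Theory.IsSatisfiable.mono (T.typeOf v).isMaximal.1 ?_
    intro ψ hψ
    exact (h ψ hψ).1 (hT0 hψ)
  have hmax : P.IsMaximal := by
    refine ⟨Theory.isSatisfiable_iff_isFinitelySatisfiable.2 hfin, fun ψ => ?_⟩
    obtain ⟨N, v, h⟩ := key {ψ, ψ.not}
    rcases (T.typeOf v).mem_or_not_mem ψ with h3 | h3
    · left
      exact (h ψ (by simp)).2 h3
    · right
      exact (h ψ.not (by simp)).2 h3
  have hsub : (L.lhomWithConstants ℕ).onTheory T ⊆ P := by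
    intro ψ hψ
    obtain ⟨N, v, h⟩ := key {ψ}
    exact (h ψ (by simp)).2 ((T.typeOf v).subset hψ)
  obtain ⟨M, hM⟩ := Theory.exists_modelType_is_realized_in T (⟨P, hsub, hmax⟩ : T.CompleteType ℕ)
  obtain ⟨v, hv⟩ := hM
  refine ⟨M, v, fun φ => ?_⟩
  rw [← Theory.CompleteType.formula_mem_typeOf (T := T), hv]
  change D φ ↔ D (Formula.equivSentence.symm (Formula.equivSentence φ))
  rw [Equiv.symm_apply_apply]

/-- the range of the enumeration meets the definable sets -/
private theorem model_meets {M : Type} [L.Structure M] (D : L.Formula ℕ → Prop)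
    (h2 : ∀ φ : L.BoundedFormula ℕ 1, D φ.ex → ∃ m, D (inst φ m)) (v : ℕ → M)
    (hv : ∀ φ, D φ ↔ φ.Realize v) : L.MeetsDefinable (Set.range v) := by
  classical
  rintro S ⟨a, ha⟩ ⟨φ, hφ⟩
  choose i hi using fun a : Set.range v => a.2
  let g : (Set.range v ⊕ Fin 1) → ℕ ⊕ Fin 1 := Sum.map i id
  let ψ : L.BoundedFormula ℕ 1 := BoundedFormula.relabel g (BoundedFormula.constantsVarsEquiv φ)
  have hψ : ∀ b : M, ψ.Realize v (fun _ => b) ↔ b ∈ S := by
    intro b
    have h3 : ψ.Realize v (fun _ => b) ↔ (BoundedFormula.constantsVarsEquiv φ).Realize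
        (Sum.elim v ((fun _ : Fin (1 + 0) => b) ∘ Fin.castAdd 0) ∘ g)
        ((fun _ : Fin (1 + 0) => b) ∘ Fin.natAdd 1) := BoundedFormula.realize_relabel
    have h4 : (Sum.elim v ((fun _ : Fin (1 + 0) => b) ∘ Fin.castAdd 0) ∘ g) =
        Sum.elim (fun a : Set.range v => ((L.con a : L[[Set.range v]].Constants) : M))
          (fun _ => b) := by
      funext x
      rcases x with x | x
      · change v (i x) = _
        rw [hi x]
        simp
      · rfl
    rw [h3, h4]
    have h5 := @BoundedFormula.realize_constantsVarsEquiv L M _ (Set.range v) (Fin 1) _ _ 0 φ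
      (fun _ => b) ((fun _ : Fin (1 + 0) => b) ∘ Fin.natAdd 1)
    rw [h5]
    have h6 : (fun _ : Fin 1 => b) ∈ {x : Fin 1 → M | x 0 ∈ S} ↔ φ.Realize (fun _ => b) := by
      rw [hφ]
      rfl
    have h7 : ((fun _ : Fin (1 + 0) => b) ∘ Fin.natAdd 1 : Fin 0 → M) = default :=
      Subsingleton.elim _ _
    rw [h7]
    exact h6.symm
  have h8 : D ψ.ex := by
    rw [hv]
    change BoundedFormula.Realize ψ.ex v default
    rw [BoundedFormula.realize_ex]
    refine ⟨a, ?_⟩
    have h9 : (Fin.snoc (default : Fin 0 → M) a : Fin 1 → M) = fun _ => a := by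
      funext x
      have hx : x = Fin.last 0 := Fin.ext (by omega)
      rw [hx]
      exact Fin.snoc_last (α := fun _ => M) a default
    rw [h9]
    exact (hψ a).2 ha
  obtain ⟨m, hm⟩ := h2 ψ h8
  rw [hv, realize_inst] at hm
  exact ⟨v m, (hψ _).1 hm, m, rfl⟩

theorem exists_model (T : L.Theory) (D : L.Formula ℕ → Prop)
    (h1 : ∀ F : Finset (L.Formula ℕ), ∃ (N : CModel T) (v : ℕ → N),
      ∀ φ ∈ F, (D φ ↔ φ.Realize v))
    (h2 : ∀ φ : L.BoundedFormula ℕ 1, D φ.ex → ∃ m, D (inst φ m)) :
    ∃ (N : CModel T) (x : ℕ → N), Function.Surjective x ∧ ∀ φ, D φ ↔ φ.Realize x := by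
  obtain ⟨M, v, hv⟩ := model_realised T D h1
  have hA := model_meets D h2 v hv
  let S := hA.toElementarySubstructure
  have hS : ∀ a : M, a ∈ S ↔ a ∈ Set.range v := by
    intro a
    change a ∈ (Substructure.closure L (Set.range v) : Set M) ↔ _
    rw [hA.closure_eq_self]
  have hc : Countable S := by
    have : (S : Set M) = Set.range v := Set.ext hS
    have h3 : (S : Set M).Countable := by
      rw [this]
      exact Set.countable_range v
    exact h3.to_subtype
  let x : ℕ → S := fun n => ⟨v n, (hS _).2 ⟨n, rfl⟩⟩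
  refine ⟨⟨S⟩, x, ?_, ?_⟩
  · rintro ⟨a, ha⟩
    obtain ⟨n, rfl⟩ := (hS a).1 ha
    exact ⟨n, rfl⟩
  · intro φ
    rw [hv]
    exact S.subtype.map_formula φ x

end Pool.Agent.Helper22.PT
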